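import Pool.Agent.K22T.Defs
set_option autoImplicit false
open Finset BigOperators

namespace K22T.A1



theorem exists_extremal {I : Type*} [Fintype I] (S : I → I → Prop) (c : ℝ)
    (w : I → ℝ) (p : I → I → ℝ) (h : Feas S c w p) :
    ∃ w' p', Feas S c w' p' ∧ ∀ w'' p'', Feas S c w'' p'' → Dens w'' p'' ≤ Dens w' p' := by
  let F : Set ((I → ℝ) × (I → I → ℝ)) := {q | Feas S c q.1 q.2}
  have hcw : ∀ i : I, Continuous (fun q : (I → ℝ) × (I → I → ℝ) => q.1 i) := fun i =>
    (continuous_apply i).comp continuous_fst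
  have hcp : ∀ i j : I, Continuous (fun q : (I → ℝ) × (I → I → ℝ) => q.2 i j) := fun i j =>
    (continuous_apply_apply i j).comp continuous_snd
  have hclosed : IsClosed F := by
    have e : F = {q : (I → ℝ) × (I → I → ℝ) | ∀ i, 0 ≤ q.1 i} ∩
        ({q : (I → ℝ) × (I → I → ℝ) | ∑ i, q.1 i = 1} ∩
        ({q : (I → ℝ) × (I → I → ℝ) | ∀ i j, 0 ≤ q.2 i j ∧ q.2 i j ≤ 1} ∩
        ({q : (I → ℝ) × (I → I → ℝ) | ∀ i j, q.2 i j = q.2 j i} ∩
        ({q : (I → ℝ) × (I → I → ℝ) | ∀ i j, ¬ S i j → q.2 i j = 0} ∩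
        {q : (I → ℝ) × (I → I → ℝ) |
          ∀ a b, S a b → ∑ m, q.1 m * (q.2 a m ^ 2 * q.2 b m ^ 2) ≤ c})))) := rfl
    rw [e]
    refine IsClosed.inter ?_ (IsClosed.inter ?_ (IsClosed.inter ?_ (IsClosed.inter ?_
      (IsClosed.inter ?_ ?_))))
    · simp only [Set.setOf_forall]
      exact isClosed_iInter fun i => isClosed_le continuous_const (hcw i)
    · exact isClosed_eq (continuous_finset_sum _ fun i _ => hcw i) continuous_const
    · simp only [Set.setOf_forall]
      exact isClosed_iInter fun i => isClosed_iInter fun j =>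
        (isClosed_le continuous_const (hcp i j)).inter (isClosed_le (hcp i j) continuous_const)
    · simp only [Set.setOf_forall]
      exact isClosed_iInter fun i => isClosed_iInter fun j => isClosed_eq (hcp i j) (hcp j i)
    · simp only [Set.setOf_forall]
      exact isClosed_iInter fun i => isClosed_iInter fun j => isClosed_iInter fun _ =>
        isClosed_eq (hcp i j) continuous_const
    · simp only [Set.setOf_forall]
      exact isClosed_iInter fun a => isClosed_iInter fun b => isClosed_iInter fun _ =>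
        isClosed_le (continuous_finset_sum _ fun m _ =>
          (hcw m).mul (((hcp a m).pow 2).mul ((hcp b m).pow 2))) continuous_const
  have hbdd : F ⊆ (Set.pi Set.univ fun _ : I => Set.Icc (0 : ℝ) 1) ×ˢ
      (Set.pi Set.univ fun _ : I => Set.pi Set.univ fun _ : I => Set.Icc (0 : ℝ) 1) := by
    rintro ⟨w, p⟩ ⟨h1, h2, h3, -⟩
    refine ⟨fun i _ => ⟨h1 i, ?_⟩, fun i _ j _ => h3 i j⟩
    have := Finset.single_le_sum (f := w) (s := Finset.univ) (fun i _ => h1 i) (Finset.mem_univ i)
    exact this.trans_eq h2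
  have hK : IsCompact ((Set.pi Set.univ fun _ : I => Set.Icc (0 : ℝ) 1) ×ˢ
      (Set.pi Set.univ fun _ : I => Set.pi Set.univ fun _ : I => Set.Icc (0 : ℝ) 1)) :=
    (isCompact_univ_pi fun _ => isCompact_Icc).prod
      (isCompact_univ_pi fun _ => isCompact_univ_pi fun _ => isCompact_Icc)
  have hF : IsCompact F := hK.of_isClosed_subset hclosed hbdd
  have hD : Continuous (fun q : (I → ℝ) × (I → I → ℝ) => Dens q.1 q.2) := by
    unfold Dens
    exact continuous_finset_sum _ fun i _ => continuous_finset_sum _ fun j _ =>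
      ((hcw i).mul (hcw j)).mul (hcp i j)
  obtain ⟨q, hq, hmax⟩ := hF.exists_isMaxOn ⟨(w, p), h⟩ hD.continuousOn
  exact ⟨q.1, q.2, hq, fun w'' p'' h'' => hmax (a := (w'', p'')) h''⟩

end K22T.A1
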