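import Pool.Agent.K22T.Defs
set_option autoImplicit false
open Finset BigOperators

namespace K22T.A2




theorem lin_deriv (x : ℝ) : HasDerivAt (fun t : ℝ => 1 + t * x) x 0 := by
  have := ((hasDerivAt_id (0:ℝ)).mul_const x).const_add 1
  simpa using this

theorem lin_deriv' (x : ℝ) : HasDerivAt (fun t : ℝ => 1 - t * x) (-x) 0 := by
  have := ((hasDerivAt_id (0:ℝ)).mul_const x).const_sub 1
  simpa using this

theorem u_deriv (μ M ra rb rm ε : ℝ) : HasDerivAt (fun t : ℝ => (1 + t * μ) / (1 + t * M) *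
    (((1 - t * ra) * (1 - t * rm) * (1 - t * ε)) ^ 2 * ((1 - t * rb) * (1 - t * rm) * (1 - t * ε)) ^ 2))
    (μ - M - 2 * ra - 2 * rb - 4 * rm - 4 * ε) 0 := by
  have h := ((lin_deriv μ).fun_div (lin_deriv M) (by simp)).fun_mul
    (((((lin_deriv' ra).fun_mul (lin_deriv' rm)).fun_mul (lin_deriv' ε)).fun_pow 2).fun_mul
      ((((lin_deriv' rb).fun_mul (lin_deriv' rm)).fun_mul (lin_deriv' ε)).fun_pow 2))
  refine HasDerivAt.congr_deriv h ?_
  norm_num
  ring

theorem v_deriv (μ μ' M r r' ε : ℝ) : HasDerivAt (fun t : ℝ => (1 + t * μ) / (1 + t * M) *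
    ((1 + t * μ') / (1 + t * M)) * ((1 - t * r) * (1 - t * r') * (1 - t * ε)))
    (μ + μ' - 2 * M - r - r' - ε) 0 := by
  have h := (((lin_deriv μ).fun_div (lin_deriv M) (by simp)).fun_mul
    ((lin_deriv μ').fun_div (lin_deriv M) (by simp))).fun_mul
    (((lin_deriv' r).fun_mul (lin_deriv' r')).fun_mul (lin_deriv' ε))
  refine HasDerivAt.congr_deriv h ?_
  norm_num
  ring

theorem ev_lin_pos (x : ℝ) : ∀ᶠ t : ℝ in nhdsWithin 0 (Set.Ioi 0), 0 < 1 + t * x := by
  have h : ContinuousAt (fun t : ℝ => 1 + t * x) 0 := (lin_deriv x).continuousAt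
  have h2 : ∀ᶠ t : ℝ in nhds 0, 0 < 1 + t * x := h.tendsto.eventually_const_lt (by simp)
  exact nhdsWithin_le_nhds h2

/-- a function with negative derivative at `0` is below its value just after `0` -/
theorem ev_lt_of_deriv {g : ℝ → ℝ} {g' : ℝ} (h : HasDerivAt g g' 0) (hg : g' < 0) :
    ∀ᶠ t : ℝ in nhdsWithin 0 (Set.Ioi 0), g t ≤ g 0 := by
  have h1 := h.tendsto_slope_zero_right
  have h2 := h1.eventually_lt_const hg
  filter_upwards [h2, self_mem_nhdsWithin] with t ht ht0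
  have ht0' : (0:ℝ) < t := ht0
  rw [zero_add, smul_eq_mul] at ht
  by_contra hcon
  push Not at hcon
  have : 0 < t⁻¹ * (g t - g 0) := by
    have := sub_pos.2 hcon
    positivity
  linarith

theorem first_order_eps {I : Type*} [Fintype I] (S : I → I → Prop) (c : ℝ) (hc : 0 < c)
    (w : I → ℝ) (p : I → I → ℝ) (h : Feas S c w p)
    (hmax : ∀ w'' p'', Feas S c w'' p'' → Dens w'' p'' ≤ Dens w p)
    (μ ρ : I → ℝ) (hρ : ∀ i, 0 ≤ ρ i)
    (htight : ∀ a b, S a b → ∑ m, w m * (p a m ^ 2 * p b m ^ 2) = c →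
      ∑ m, w m * (p a m ^ 2 * p b m ^ 2) * (μ m - 4 * ρ m) - 2 * (ρ a + ρ b) * c
        ≤ c * ∑ m, w m * μ m) (ε : ℝ) (hε : 0 < ε) :
    2 * ∑ z, w z * (∑ j, w j * p z j) * (μ z - ρ z) ≤
      (2 * (∑ z, w z * μ z) + ε) * Dens w p := by
  obtain ⟨hw0, hw1, hp01, hpsym, hpS, hcon⟩ := h
  set M : ℝ := ∑ z, w z * μ z with hM
  clear_value M
  let wt : ℝ → I → ℝ := fun t m => w m * ((1 + t * μ m) / (1 + t * M))
  let pt : ℝ → I → I → ℝ := fun t a b => p a b * ((1 - t * ρ a) * (1 - t * ρ b) * (1 - t * ε))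
  -- feasibility
  have e1 : ∀ᶠ t : ℝ in nhdsWithin 0 (Set.Ioi 0), ∀ i, 0 < 1 + t * μ i :=
    Filter.eventually_all.2 fun i => ev_lin_pos (μ i)
  have e2 := ev_lin_pos M
  have e3 : ∀ᶠ t : ℝ in nhdsWithin 0 (Set.Ioi 0), ∀ i, 0 < 1 + t * (-ρ i) :=
    Filter.eventually_all.2 fun i => ev_lin_pos (-ρ i)
  have e4 := ev_lin_pos (-ε)
  have e5 : ∀ᶠ t : ℝ in nhdsWithin 0 (Set.Ioi 0), ∀ a b, S a b →
      ∑ m, wt t m * (pt t a m ^ 2 * pt t b m ^ 2) ≤ c := by
    rw [Filter.eventually_all]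
    intro a
    rw [Filter.eventually_all]
    intro b
    by_cases hS : S a b
    swap
    · exact Filter.Eventually.of_forall fun t h => absurd h hS
    have hd : HasDerivAt (fun t => ∑ m, wt t m * (pt t a m ^ 2 * pt t b m ^ 2))
        (∑ m, (w m * (p a m ^ 2 * p b m ^ 2)) * (μ m - M - 2 * ρ a - 2 * ρ b - 4 * ρ m - 4 * ε)) 0 := by
      have := HasDerivAt.fun_sum (u := (Finset.univ : Finset I))
        (fun m _ => (u_deriv (μ m) M (ρ a) (ρ b) (ρ m) ε).const_mul (w m * (p a m ^ 2 * p b m ^ 2)))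
      refine this.congr_of_eventuallyEq (Filter.Eventually.of_forall fun t => ?_)
      refine Finset.sum_congr rfl fun m _ => ?_
      show w m * ((1 + t * μ m) / (1 + t * M)) *
        ((p a m * ((1 - t * ρ a) * (1 - t * ρ m) * (1 - t * ε))) ^ 2 *
          (p b m * ((1 - t * ρ b) * (1 - t * ρ m) * (1 - t * ε))) ^ 2) = _
      ring
    have hz : ∑ m, wt 0 m * (pt 0 a m ^ 2 * pt 0 b m ^ 2) =
        ∑ m, w m * (p a m ^ 2 * p b m ^ 2) := by
      refine Finset.sum_congr rfl fun m _ => ?_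
      show w m * ((1 + 0 * μ m) / (1 + 0 * M)) *
        ((p a m * ((1 - 0 * ρ a) * (1 - 0 * ρ m) * (1 - 0 * ε))) ^ 2 *
          (p b m * ((1 - 0 * ρ b) * (1 - 0 * ρ m) * (1 - 0 * ε))) ^ 2) = _
      norm_num
    rcases (hcon a b hS).lt_or_eq with hlt | heq
    · have hc2 : ∀ᶠ t in nhds (0:ℝ), (fun t => ∑ m, wt t m * (pt t a m ^ 2 * pt t b m ^ 2)) t < c := by
        apply hd.continuousAt.tendsto.eventually_lt_const
        show ∑ m, wt 0 m * (pt 0 a m ^ 2 * pt 0 b m ^ 2) < c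
        rw [hz]; exact hlt
      filter_upwards [nhdsWithin_le_nhds hc2] with t ht _
      exact ht.le
    · have hneg : ∑ m, (w m * (p a m ^ 2 * p b m ^ 2)) *
          (μ m - M - 2 * ρ a - 2 * ρ b - 4 * ρ m - 4 * ε) < 0 := by
        have h1 := htight a b hS heq
        have h2 : ∑ m, (w m * (p a m ^ 2 * p b m ^ 2)) *
            (μ m - M - 2 * ρ a - 2 * ρ b - 4 * ρ m - 4 * ε) =
            ∑ m, w m * (p a m ^ 2 * p b m ^ 2) * (μ m - 4 * ρ m) -
            (M + 2 * ρ a + 2 * ρ b + 4 * ε) * ∑ m, w m * (p a m ^ 2 * p b m ^ 2) := by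
          rw [Finset.mul_sum, ← Finset.sum_sub_distrib]
          refine Finset.sum_congr rfl fun m _ => by ring
        rw [h2, heq]
        have : 0 < ε * c := mul_pos hε hc
        nlinarith
      filter_upwards [ev_lt_of_deriv hd hneg] with t ht _
      rw [hz, heq] at ht
      exact ht
  have hfeas : ∀ᶠ t : ℝ in nhdsWithin 0 (Set.Ioi 0), Feas S c (wt t) (pt t) := by
    filter_upwards [e1, e2, e3, e4, e5, self_mem_nhdsWithin] with t h1 h2 h3 h4 h5 ht
    have ht' : (0:ℝ) < t := ht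
    refine ⟨fun i => ?_, ?_, fun i j => ?_, fun i j => ?_, fun i j hij => ?_, h5⟩
    · exact mul_nonneg (hw0 i) (div_nonneg (h1 i).le h2.le)
    · have : ∑ i, wt t i = (∑ i, w i * (1 + t * μ i)) / (1 + t * M) := by
        rw [Finset.sum_div]
        refine Finset.sum_congr rfl fun i _ => ?_
        show w i * ((1 + t * μ i) / (1 + t * M)) = _
        rw [mul_div_assoc]
      rw [this]
      have h6 : ∑ i, w i * (1 + t * μ i) = 1 + t * M := by
        have h7 : ∑ i, w i * (1 + t * μ i) = ∑ i, w i + t * ∑ i, w i * μ i := by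
          rw [Finset.mul_sum, ← Finset.sum_add_distrib]
          refine Finset.sum_congr rfl fun i _ => by ring
        rw [h7, hw1, hM]
      rw [h6, div_self h2.ne']
    · have a1 : 0 ≤ 1 - t * ρ i := by have := h3 i; linarith
      have a2 : 0 ≤ 1 - t * ρ j := by have := h3 j; linarith
      have a3 : 0 ≤ 1 - t * ε := by linarith
      have b1 : 1 - t * ρ i ≤ 1 := by have := mul_nonneg ht'.le (hρ i); linarith
      have b2 : 1 - t * ρ j ≤ 1 := by have := mul_nonneg ht'.le (hρ j); linarith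
      have b3 : 1 - t * ε ≤ 1 := by have := mul_nonneg ht'.le hε.le; linarith
      obtain ⟨c1, c2⟩ := hp01 i j
      have d1 : 0 ≤ (1 - t * ρ i) * (1 - t * ρ j) * (1 - t * ε) := by positivity
      have d2 : (1 - t * ρ i) * (1 - t * ρ j) * (1 - t * ε) ≤ 1 := by
        calc (1 - t * ρ i) * (1 - t * ρ j) * (1 - t * ε) ≤ 1 * 1 * 1 := by gcongr
          _ = 1 := by norm_num
      constructor
      · exact mul_nonneg c1 d1
      · calc p i j * ((1 - t * ρ i) * (1 - t * ρ j) * (1 - t * ε)) ≤ 1 * 1 := by gcongr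
          _ = 1 := one_mul _
    · show p i j * ((1 - t * ρ i) * (1 - t * ρ j) * (1 - t * ε)) =
        p j i * ((1 - t * ρ j) * (1 - t * ρ i) * (1 - t * ε))
      rw [hpsym i j]; ring
    · show p i j * _ = 0
      rw [hpS i j hij, zero_mul]
  -- derivative of the density
  have hD : HasDerivAt (fun t => Dens (wt t) (pt t))
      (∑ i, ∑ j, (w i * w j * p i j) * (μ i + μ j - 2 * M - ρ i - ρ j - ε)) 0 := by
    have := HasDerivAt.fun_sum (u := (Finset.univ : Finset I))
      (fun i _ => HasDerivAt.fun_sum (u := (Finset.univ : Finset I))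
        (fun j _ => (v_deriv (μ i) (μ j) M (ρ i) (ρ j) ε).const_mul (w i * w j * p i j)))
    refine this.congr_of_eventuallyEq (Filter.Eventually.of_forall fun t => ?_)
    refine Finset.sum_congr rfl fun i _ => Finset.sum_congr rfl fun j _ => ?_
    show w i * ((1 + t * μ i) / (1 + t * M)) * (w j * ((1 + t * μ j) / (1 + t * M))) *
      (p i j * ((1 - t * ρ i) * (1 - t * ρ j) * (1 - t * ε))) = _
    ring
  have hD0 : Dens (wt 0) (pt 0) = Dens w p := by
    refine Finset.sum_congr rfl fun i _ => Finset.sum_congr rfl fun j _ => ?_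
    show w i * ((1 + 0 * μ i) / (1 + 0 * M)) * (w j * ((1 + 0 * μ j) / (1 + 0 * M))) *
      (p i j * ((1 - 0 * ρ i) * (1 - 0 * ρ j) * (1 - 0 * ε))) = _
    norm_num
  have hle : ∑ i, ∑ j, (w i * w j * p i j) * (μ i + μ j - 2 * M - ρ i - ρ j - ε) ≤ 0 := by
    refine le_of_tendsto hD.tendsto_slope_zero_right ?_
    filter_upwards [hfeas, self_mem_nhdsWithin] with t ht ht0
    have ht' : (0:ℝ) < t := ht0
    have := hmax _ _ ht
    rw [zero_add, smul_eq_mul, hD0]
    apply mul_nonpos_of_nonneg_of_nonpos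
    · positivity
    · linarith
  have hexp : ∑ i, ∑ j, (w i * w j * p i j) * (μ i + μ j - 2 * M - ρ i - ρ j - ε) =
      2 * ∑ z, w z * (∑ j, w j * p z j) * (μ z - ρ z) - (2 * M + ε) * Dens w p := by
    have s1 : ∑ i, ∑ j, (w i * w j * p i j) * (μ i + μ j - 2 * M - ρ i - ρ j - ε) =
        ∑ i, ∑ j, (w i * w j * p i j) * (μ i - ρ i) + ∑ i, ∑ j, (w i * w j * p i j) * (μ j - ρ j) -
        (2 * M + ε) * Dens w p := by
      unfold Dens
      rw [Finset.mul_sum, ← Finset.sum_add_distrib, ← Finset.sum_sub_distrib]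
      refine Finset.sum_congr rfl fun i _ => ?_
      rw [Finset.mul_sum, ← Finset.sum_add_distrib, ← Finset.sum_sub_distrib]
      refine Finset.sum_congr rfl fun j _ => by ring
    have s2 : ∑ i, ∑ j, (w i * w j * p i j) * (μ j - ρ j) =
        ∑ i, ∑ j, (w i * w j * p i j) * (μ i - ρ i) := by
      rw [Finset.sum_comm]
      refine Finset.sum_congr rfl fun i _ => Finset.sum_congr rfl fun j _ => ?_
      rw [hpsym j i]; ring
    have s3 : ∑ i, ∑ j, (w i * w j * p i j) * (μ i - ρ i) =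
        ∑ z, w z * (∑ j, w j * p z j) * (μ z - ρ z) := by
      refine Finset.sum_congr rfl fun i _ => ?_
      rw [Finset.mul_sum, Finset.sum_mul]
      refine Finset.sum_congr rfl fun j _ => by ring
    rw [s1, s2, s3]; ring
  rw [hexp] at hle
  linarith

/-- first order optimality at a maximiser: masses are changed by `w m (1 + t μ m)` (renormalised),
densities by `p a b (1 - t ρ a)(1 - t ρ b)(1 - ε t)`. -/
theorem first_order {I : Type*} [Fintype I] (S : I → I → Prop) (c : ℝ) (hc : 0 < c)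
    (w : I → ℝ) (p : I → I → ℝ) (h : Feas S c w p)
    (hmax : ∀ w'' p'', Feas S c w'' p'' → Dens w'' p'' ≤ Dens w p)
    (μ ρ : I → ℝ) (hρ : ∀ i, 0 ≤ ρ i)
    (htight : ∀ a b, S a b → ∑ m, w m * (p a m ^ 2 * p b m ^ 2) = c →
      ∑ m, w m * (p a m ^ 2 * p b m ^ 2) * (μ m - 4 * ρ m) - 2 * (ρ a + ρ b) * c
        ≤ c * ∑ m, w m * μ m) :
    ∑ z, w z * (∑ j, w j * p z j) * (μ z - ρ z) ≤ Dens w p * ∑ z, w z * μ z := by
  have h1 := first_order_eps S c hc w p h hmax μ ρ hρ htight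
  have h2 : 2 * ∑ z, w z * (∑ j, w j * p z j) * (μ z - ρ z) ≤
      (2 * (∑ z, w z * μ z)) * Dens w p := by
    have hlim : Filter.Tendsto (fun ε : ℝ => (2 * (∑ z, w z * μ z) + ε) * Dens w p)
        (nhdsWithin 0 (Set.Ioi 0)) (nhds ((2 * (∑ z, w z * μ z) + 0) * Dens w p)) := by
      apply Filter.Tendsto.mono_left _ nhdsWithin_le_nhds
      have : Continuous fun ε : ℝ => (2 * (∑ z, w z * μ z) + ε) * Dens w p := by fun_prop
      exact this.tendsto 0
    rw [add_zero] at hlim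
    refine ge_of_tendsto hlim ?_
    filter_upwards [self_mem_nhdsWithin] with ε hε
    exact h1 ε hε
  linarith

end K22T.A2
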