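import Pool.Agent.K22T.Defs
set_option autoImplicit false
open Finset BigOperators

namespace K22T.A34




theorem P_dens_eq {I : Type*} [Fintype I] (w : I → ℝ) (p : I → I → ℝ) :
    ∑ z, w z * (∑ j, w j * p z j) = Dens w p := by
  unfold Dens
  refine Finset.sum_congr rfl fun i _ => ?_
  rw [Finset.mul_sum]
  exact Finset.sum_congr rfl fun j _ => by ring

theorem P_sum_ind {I : Type*} [Fintype I] [DecidableEq I] (w g : I → ℝ) (z : I) (hz : 0 < w z) :
    ∑ m, w m * g m * (if m = z then 1 / w z else 0) = g z := by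
  simp only [mul_ite, mul_zero, Finset.sum_ite_eq', Finset.mem_univ, if_true]
  field_simp

/-- (the conclusion of the first order lemma is taken as a hypothesis `FO`) -/
theorem P1 {I : Type*} [Fintype I] (S : I → I → Prop) (c : ℝ) (hc : 0 < c)
    (w : I → ℝ) (p : I → I → ℝ) (h : Feas S c w p)
    (FO : ∀ μ ρ : I → ℝ, (∀ i, 0 ≤ ρ i) →
      (∀ a b, S a b → ∑ m, w m * (p a m ^ 2 * p b m ^ 2) = c →
      ∑ m, w m * (p a m ^ 2 * p b m ^ 2) * (μ m - 4 * ρ m) - 2 * (ρ a + ρ b) * c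
        ≤ c * ∑ m, w m * μ m) →
      ∑ z, w z * (∑ j, w j * p z j) * (μ z - ρ z) ≤ Dens w p * ∑ z, w z * μ z)
    (z : I) (hz : 0 < w z) : 7 / 8 * Dens w p ≤ ∑ j, w j * p z j := by
  classical
  obtain ⟨hw, hw1, hp, hsym, hS, hcS⟩ := h
  have hM : ∑ m, w m * (-(if m = z then 1 / w z else 0)) = -1 := by
    have := P_sum_ind w (fun _ => 1) z hz
    simp only [mul_one] at this
    simp only [mul_neg, Finset.sum_neg_distrib]
    rw [this]
  have key := FO (fun m => -(if m = z then 1 / w z else 0)) (fun _ => 1 / 8)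
    (fun _ => by norm_num) (by
      intro a b hab ht
      rw [hM]
      have h1 := P_sum_ind w (fun m => p a m ^ 2 * p b m ^ 2) z hz
      have e1 : ∑ m, w m * (p a m ^ 2 * p b m ^ 2) * (-(if m = z then 1 / w z else 0) - 4 * (1 / 8))
          = -(∑ m, w m * (p a m ^ 2 * p b m ^ 2) * (if m = z then 1 / w z else 0))
            - 1 / 2 * ∑ m, w m * (p a m ^ 2 * p b m ^ 2) := by
        rw [Finset.mul_sum, ← Finset.sum_neg_distrib, ← Finset.sum_sub_distrib]
        refine Finset.sum_congr rfl fun m _ => by ring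
      rw [e1, h1, ht]
      have : 0 ≤ p a z ^ 2 * p b z ^ 2 := by positivity
      linarith)
  rw [hM] at key
  have h2 := P_sum_ind w (fun m => ∑ j, w j * p m j) z hz
  have e2 : ∑ m, w m * (∑ j, w j * p m j) * (-(if m = z then 1 / w z else 0) - 1 / 8)
      = -(∑ m, w m * (∑ j, w j * p m j) * (if m = z then 1 / w z else 0))
        - 1 / 8 * ∑ m, w m * (∑ j, w j * p m j) := by
    rw [Finset.mul_sum, ← Finset.sum_neg_distrib, ← Finset.sum_sub_distrib]
    refine Finset.sum_congr rfl fun m _ => by ring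
  rw [e2, h2, P_dens_eq] at key
  linarith

theorem P2 {I : Type*} [Fintype I] (S : I → I → Prop) (c : ℝ) (hc : 0 < c)
    (w : I → ℝ) (p : I → I → ℝ) (h : Feas S c w p)
    (FO : ∀ μ ρ : I → ℝ, (∀ i, 0 ≤ ρ i) →
      (∀ a b, S a b → ∑ m, w m * (p a m ^ 2 * p b m ^ 2) = c →
      ∑ m, w m * (p a m ^ 2 * p b m ^ 2) * (μ m - 4 * ρ m) - 2 * (ρ a + ρ b) * c
        ≤ c * ∑ m, w m * μ m) →
      ∑ z, w z * (∑ j, w j * p z j) * (μ z - ρ z) ≤ Dens w p * ∑ z, w z * μ z)
    (i j : I) (hi : 0 < w i) (hj : 0 < w j) :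
    ∑ z, w z * ((4 * (∑ k, w k * p j k) - 3 * (∑ k, w k * p z k)) * p i z ^ 2)
      ≤ (6 - 2 * c) * (∑ k, w k * p j k) + 2 * c * (∑ k, w k * p i k) - 5 * Dens w p := by
  classical
  obtain ⟨hw, hw1, hp, hsym, hS, hcS⟩ := h
  have hU : ∀ a b, 0 ≤ p a b ^ 2 ∧ p a b ^ 2 ≤ 1 := fun a b =>
    ⟨by positivity, by nlinarith [(hp a b).1, (hp a b).2]⟩
  set A : ℝ := ∑ m, w m * p i m ^ 2 with hA
  have hA1 : A ≤ 1 := by
    rw [hA, ← hw1]
    exact Finset.sum_le_sum fun m _ => by nlinarith [hw m, (hU i m).2]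
  set x : ℝ := (2 / c) * (1 - A) + 1 / c - 1 with hx
  set ρ : I → ℝ := fun m => (1 - p i m ^ 2) / (2 * c) with hρ
  set μ : I → ℝ := fun m => 4 * ρ m - (if m = i then 1 / w i else 0) -
    x * (if m = j then 1 / w j else 0) with hμ
  have hsρ : ∑ m, w m * ρ m = (1 - A) / (2 * c) := by
    rw [hA, ← hw1, ← Finset.sum_sub_distrib, Finset.sum_div]
    refine Finset.sum_congr rfl fun m _ => ?_
    rw [hρ]; ring
  have hsi : ∑ m, w m * (if m = i then 1 / w i else 0) = 1 := by
    have := P_sum_ind w (fun _ => 1) i hi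
    simpa only [mul_one] using this
  have hsj : ∑ m, w m * (if m = j then 1 / w j else 0) = 1 := by
    have := P_sum_ind w (fun _ => 1) j hj
    simpa only [mul_one] using this
  have hM : ∑ m, w m * μ m = -1 / c := by
    have e1 : ∑ m, w m * μ m = 4 * ∑ m, w m * ρ m - ∑ m, w m * (if m = i then 1 / w i else 0)
        - x * ∑ m, w m * (if m = j then 1 / w j else 0) := by
      rw [Finset.mul_sum, Finset.mul_sum, ← Finset.sum_sub_distrib, ← Finset.sum_sub_distrib]
      refine Finset.sum_congr rfl fun m _ => ?_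
      rw [hμ]; ring
    rw [e1, hsρ, hsi, hsj, hx]
    field_simp
    ring
  have key := FO μ ρ
    (fun m => div_nonneg (by linarith [(hU i m).2]) (by positivity)) (by
      intro a b hab ht
      rw [hM]
      have hc1 : c ≤ 1 := by
        rw [← ht, ← hw1]
        refine Finset.sum_le_sum fun m _ => ?_
        have h1 := hU a m
        have h2 := hU b m
        have h3 : p a m ^ 2 * p b m ^ 2 ≤ 1 := mul_le_one₀ h1.2 h2.1 h2.2
        nlinarith [hw m]
      have hx0 : 0 ≤ x := by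
        have h1 : 1 ≤ 1 / c := by rw [le_div_iff₀ hc]; linarith
        have h2 : 0 ≤ (2 / c) * (1 - A) := mul_nonneg (by positivity) (by linarith)
        rw [hx]; linarith
      have h1 := P_sum_ind w (fun m => p a m ^ 2 * p b m ^ 2) i hi
      have h2 := P_sum_ind w (fun m => p a m ^ 2 * p b m ^ 2) j hj
      have e1 : ∑ m, w m * (p a m ^ 2 * p b m ^ 2) * (μ m - 4 * ρ m)
          = -(∑ m, w m * (p a m ^ 2 * p b m ^ 2) * (if m = i then 1 / w i else 0))
            - x * ∑ m, w m * (p a m ^ 2 * p b m ^ 2) * (if m = j then 1 / w j else 0) := by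
        rw [Finset.mul_sum, ← Finset.sum_neg_distrib, ← Finset.sum_sub_distrib]
        refine Finset.sum_congr rfl fun m _ => ?_
        rw [hμ]; ring
      rw [e1, h1, h2]
      have e2 : 2 * (ρ a + ρ b) * c = 2 - p i a ^ 2 - p i b ^ 2 := by
        rw [hρ]; field_simp; ring
      have e3 : c * (-1 / c) = -1 := by field_simp
      rw [e2, e3, hsym a i, hsym b i]
      have h4 : 0 ≤ x * (p a j ^ 2 * p b j ^ 2) := by positivity
      have h5 := (hU i a).2
      have h6 := (hU i b).2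
      nlinarith [mul_nonneg (sub_nonneg.2 h5) (sub_nonneg.2 h6)])
  rw [hM] at key
  have h1 := P_sum_ind w (fun m => ∑ k, w k * p m k) i hi
  have h2 := P_sum_ind w (fun m => ∑ k, w k * p m k) j hj
  have e1 : ∑ m, w m * (∑ k, w k * p m k) * (μ m - ρ m)
      = (3 / (2 * c)) * (∑ m, w m * (∑ k, w k * p m k) -
          ∑ m, w m * (∑ k, w k * p m k) * p i m ^ 2)
        - (∑ m, w m * (∑ k, w k * p m k) * (if m = i then 1 / w i else 0))
        - x * ∑ m, w m * (∑ k, w k * p m k) * (if m = j then 1 / w j else 0) := by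
    rw [← Finset.sum_sub_distrib, Finset.mul_sum, Finset.mul_sum, ← Finset.sum_sub_distrib,
      ← Finset.sum_sub_distrib]
    refine Finset.sum_congr rfl fun m _ => ?_
    rw [hμ, hρ]; ring
  rw [e1, h1, h2, P_dens_eq] at key
  have e4 : ∑ z, w z * ((4 * (∑ k, w k * p j k) - 3 * (∑ k, w k * p z k)) * p i z ^ 2)
      = 4 * (∑ k, w k * p j k) * A - 3 * ∑ m, w m * (∑ k, w k * p m k) * p i m ^ 2 := by
    generalize (∑ k, w k * p j k) = dj
    rw [hA, Finset.mul_sum, Finset.mul_sum, ← Finset.sum_sub_distrib]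
    exact Finset.sum_congr rfl fun m _ => by ring
  rw [e4]
  have e5 := mul_le_mul_of_nonneg_left key (show (0 : ℝ) ≤ 2 * c by positivity)
  rw [hx] at e5
  have e6 : 2 * c * (Dens w p * (-1 / c)) = -2 * Dens w p := by field_simp
  rw [e6] at e5
  have e7 : 2 * c * (3 / (2 * c) * (Dens w p - ∑ m, w m * (∑ k, w k * p m k) * p i m ^ 2)
      - ∑ k, w k * p i k - ((2 / c) * (1 - A) + 1 / c - 1) * ∑ k, w k * p j k)
      = 3 * (Dens w p - ∑ m, w m * (∑ k, w k * p m k) * p i m ^ 2) - 2 * c * ∑ k, w k * p i k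
        - (4 * (1 - A) + 2 - 2 * c) * ∑ k, w k * p j k := by
    field_simp
    ring
  rw [e7] at e5
  linarith

end K22T.A34
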