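import Pool.Agent.K22T.Defs
set_option autoImplicit false
open Finset BigOperators

namespace K22T.A5a

theorem pair_aux (x y : ℝ) (hx : 1/2 ≤ x) (hx' : x ≤ 4/5) :
    (x + y) / 2 ≤ x ^ 2 * y ^ 2 + 1 / 2 := by
  have h1 : 0 ≤ (2 * x ^ 2 * y - 1 / 2) ^ 2 := sq_nonneg _
  have h2 : 1 ≤ 8 * x ^ 2 * (1 - x) := by
    nlinarith [mul_nonneg (sub_nonneg.2 hx) (sub_nonneg.2 hx'), mul_nonneg (mul_nonneg (sub_nonneg.2 hx) (sub_nonneg.2 hx')) (by linarith : (0:ℝ) ≤ x), sq_nonneg x]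
  have h3 : 0 < 4 * x ^ 2 := by nlinarith
  have h4 : 0 ≤ 4 * x ^ 2 * (x ^ 2 * y ^ 2 + 1 / 2 - (x + y) / 2) := by nlinarith
  have := nonneg_of_mul_nonneg_right h4 h3
  linarith

theorem pair_aux2 (x y : ℝ) (hx' : x ≤ 4/5) (hy' : y ≤ 4/5) :
    (x + y) / 2 ≤ x ^ 2 * y ^ 2 + 1 / 2 := by
  rcases le_total (1/2) x with h | h
  · exact pair_aux x y h hx'
  · rcases le_total (1/2) y with h' | h'
    · have := pair_aux y x h' hy'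
      linarith [mul_comm (x^2) (y^2)]
    · nlinarith [mul_nonneg (sq_nonneg x) (sq_nonneg y)]

theorem big_aux (x u v : ℝ) (hx : 4/5 ≤ x) (hx' : x ≤ 1) :
    x + u + v ≤ x ^ 2 * u ^ 2 + u ^ 2 * v ^ 2 + x ^ 2 * v ^ 2 + 3 / 2 := by
  have h1 : 0 ≤ (u * v - 1/4) ^ 2 := sq_nonneg _
  have h2 : 0 ≤ (x ^ 2 - 1 / 4) * (u - v) ^ 2 := mul_nonneg (by nlinarith) (sq_nonneg _)
  have h3 : (u + v) ^ 2 * (x ^ 2 + 1 / 4) / 2 - 1 / 16 ≤ x ^ 2 * u ^ 2 + u ^ 2 * v ^ 2 + x ^ 2 * v ^ 2 := by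
    nlinarith
  have h4 : 1 ≤ (2 * x ^ 2 + 1 / 2) * (23 / 16 - x) := by
    nlinarith [mul_nonneg (sub_nonneg.2 hx) (sub_nonneg.2 hx'), mul_nonneg (mul_nonneg (sub_nonneg.2 hx) (sub_nonneg.2 hx')) (by linarith : (0:ℝ) ≤ x), sq_nonneg x]
  have h5 : 0 ≤ ((u + v) * (x ^ 2 + 1 / 4) - 1) ^ 2 := sq_nonneg _
  have hA : 0 < x ^ 2 + 1 / 4 := by positivity
  have h6 : 0 ≤ (x ^ 2 + 1 / 4) * ((u + v) ^ 2 * (x ^ 2 + 1 / 4) / 2 - (u + v) + (23 / 16 - x)) := by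
    nlinarith
  have h7 := nonneg_of_mul_nonneg_right h6 hA
  linarith

theorem pt3 (p q r : ℝ) (hp : 0 ≤ p ∧ p ≤ 1) (hq : 0 ≤ q ∧ q ≤ 1) (hr : 0 ≤ r ∧ r ≤ 1) :
    p + q + r ≤ p ^ 2 * q ^ 2 + q ^ 2 * r ^ 2 + p ^ 2 * r ^ 2 + 3 / 2 := by
  rcases le_total (4/5) p with h | h
  · exact big_aux p q r h hp.2
  rcases le_total (4/5) q with h' | h'
  · have := big_aux q r p h' hq.2
    linarith [mul_comm (p^2) (q^2), mul_comm (p^2) (r^2), mul_comm (q^2) (r^2)]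
  rcases le_total (4/5) r with h'' | h''
  · have := big_aux r p q h'' hr.2
    linarith [mul_comm (p^2) (q^2), mul_comm (p^2) (r^2), mul_comm (q^2) (r^2)]
  have h1 := pair_aux2 p q h h'
  have h2 := pair_aux2 q r h' h''
  have h3 := pair_aux2 p r h h''
  linarith

end K22T.A5a
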