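import Pool.Agent.K22T.Defs
set_option autoImplicit false
open Finset BigOperators

namespace K22T.A5b

private lemma raise4 (p t A : ℝ) (hpt : p ≤ t) (hA : 0 ≤ A) (h : A * (2 * t) ≤ 1) :
    p - p ^ 2 * A ≤ t - t ^ 2 * A := by
  have h1 : A * (p + t) ≤ 1 := by nlinarith
  nlinarith [mul_nonneg (sub_nonneg.2 hpt) (sub_nonneg.2 h1)]

private lemma cub4 (K L m n lo hi x : ℝ) (h1 : lo ≤ x) (h2 : x ≤ hi) (hlt : lo < hi) (hm : 0 ≤ m)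
    (hL : L ≤ 3 * m * lo) (hlo : n ≤ (K + lo ^ 2) * (L - m * lo))
    (hhi : n ≤ (K + hi ^ 2) * (L - m * hi)) : n ≤ (K + x ^ 2) * (L - m * x) := by
  have h3 : 0 ≤ m * (lo + hi + x) - L := by nlinarith
  have h4 : 0 ≤ (x - lo) * (hi - x) * (hi - lo) * (m * (lo + hi + x) - L) :=
    mul_nonneg (mul_nonneg (mul_nonneg (by linarith) (by linarith)) (by linarith)) h3
  have h5 : (hi - lo) * ((K + x ^ 2) * (L - m * x) - n)
      = (hi - x) * ((K + lo ^ 2) * (L - m * lo) - n) + (x - lo) * ((K + hi ^ 2) * (L - m * hi) - n)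
        + (x - lo) * (hi - x) * (hi - lo) * (m * (lo + hi + x) - L) := by ring
  have h6 : 0 ≤ (hi - lo) * ((K + x ^ 2) * (L - m * x) - n) := by
    rw [h5]
    have := mul_nonneg (sub_nonneg.2 h2) (sub_nonneg.2 hlo)
    have := mul_nonneg (sub_nonneg.2 h1) (sub_nonneg.2 hhi)
    linarith
  have h7 := (mul_nonneg_iff_of_pos_left (sub_pos.2 hlt)).1 h6
  linarith

private lemma key4 (x a b c τ : ℝ) (hτ : 0 < τ) (hx : τ ≤ x)
    (h : 3 / 4 ≤ (2 * τ ^ 2 + x ^ 2) * (331 / 200 - 3 * τ ^ 4 - 1 * x)) :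
    x + a + b + c ≤ x ^ 2 * (a ^ 2 + b ^ 2 + c ^ 2) + a ^ 2 * b ^ 2 + a ^ 2 * c ^ 2 + b ^ 2 * c ^ 2
      + 331 / 200 := by
  have hD : 0 < 2 * τ ^ 2 + x ^ 2 := by positivity
  have e1 : 0 ≤ (a * b - τ ^ 2) ^ 2 := sq_nonneg _
  have e2 : 0 ≤ (a * c - τ ^ 2) ^ 2 := sq_nonneg _
  have e3 : 0 ≤ (b * c - τ ^ 2) ^ 2 := sq_nonneg _
  have hx2 : 0 ≤ x ^ 2 - τ ^ 2 := by nlinarith
  have e4 : 0 ≤ (x ^ 2 - τ ^ 2) * ((a - b) ^ 2 + (a - c) ^ 2 + (b - c) ^ 2) :=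
    mul_nonneg hx2 (by positivity)
  set D := 2 * τ ^ 2 + x ^ 2 with hDdef
  -- D sigma^2/3 - sigma + 3/(4D) >= 0
  have e5 : 0 ≤ (2 * D * (a + b + c) - 3) ^ 2 := sq_nonneg _
  have e6 : 0 ≤ D * (a + b + c) ^ 2 / 3 - (a + b + c) + (331 / 200 - 3 * τ ^ 4 - 1 * x) := by
    have : 0 ≤ D * (D * (a + b + c) ^ 2 / 3 - (a + b + c) + (331 / 200 - 3 * τ ^ 4 - 1 * x)) := by
      nlinarith
    exact (mul_nonneg_iff_of_pos_left hD).1 this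
  have e7 : D * (a + b + c) ^ 2 / 3 = τ ^ 2 * (a + b + c) ^ 2
      + (x ^ 2 - τ ^ 2) * (a ^ 2 + b ^ 2 + c ^ 2)
      - (x ^ 2 - τ ^ 2) * ((a - b) ^ 2 + (a - c) ^ 2 + (b - c) ^ 2) / 3 := by
    rw [hDdef]; ring
  nlinarith

private lemma big4 (x a b c : ℝ) (hx : 11 / 20 ≤ x) (hx1 : x ≤ 1) :
    x + a + b + c ≤ x ^ 2 * (a ^ 2 + b ^ 2 + c ^ 2) + a ^ 2 * b ^ 2 + a ^ 2 * c ^ 2 + b ^ 2 * c ^ 2
      + 331 / 200 := by
  rcases le_total x (191 / 250) with h | h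
  · exact key4 x a b c (529 / 1000) (by norm_num) (by linarith)
      (cub4 _ _ 1 _ (11 / 20) (191 / 250) x hx h (by norm_num) (by norm_num) (by norm_num)
        (by norm_num) (by norm_num))
  · exact key4 x a b c (107 / 250) (by norm_num) (by linarith)
      (cub4 _ _ 1 _ (191 / 250) 1 x h hx1 (by norm_num) (by norm_num) (by norm_num)
        (by norm_num) (by norm_num))

theorem pt4 (p q r s : ℝ) (hp : 0 ≤ p ∧ p ≤ 1) (hq : 0 ≤ q ∧ q ≤ 1) (hr : 0 ≤ r ∧ r ≤ 1)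
    (hs : 0 ≤ s ∧ s ≤ 1) :
    p + q + r + s ≤ p ^ 2 * q ^ 2 + p ^ 2 * r ^ 2 + p ^ 2 * s ^ 2 + q ^ 2 * r ^ 2 + q ^ 2 * s ^ 2
      + r ^ 2 * s ^ 2 + (15 / 8 - 11 / 50) := by
  by_cases h1 : 11 / 20 ≤ p
  · have := big4 p q r s h1 hp.2; linarith
  by_cases h2 : 11 / 20 ≤ q
  · have := big4 q p r s h2 hq.2; linarith
  by_cases h3 : 11 / 20 ≤ r
  · have := big4 r p q s h3 hr.2; linarith
  by_cases h4 : 11 / 20 ≤ s
  · have := big4 s p q r h4 hs.2; linarith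
  push Not at h1 h2 h3 h4
  have sq_le : ∀ y : ℝ, 0 ≤ y → y ≤ 11 / 20 → y ^ 2 ≤ 121 / 400 := by
    intro y h0 h; nlinarith
  have bp := sq_le p hp.1 h1.le
  have bq := sq_le q hq.1 h2.le
  have br := sq_le r hr.1 h3.le
  have bs := sq_le s hs.1 h4.le
  have r1 := raise4 p (11 / 20) (q ^ 2 + r ^ 2 + s ^ 2) h1.le (by positivity) (by linarith)
  have r2 := raise4 q (11 / 20) ((11 / 20) ^ 2 + r ^ 2 + s ^ 2) h2.le (by positivity)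
    (by norm_num; linarith)
  have r3 := raise4 r (11 / 20) ((11 / 20) ^ 2 + (11 / 20) ^ 2 + s ^ 2) h3.le (by positivity)
    (by norm_num; linarith)
  have r4 := raise4 s (11 / 20) ((11 / 20) ^ 2 + (11 / 20) ^ 2 + (11 / 20) ^ 2) h4.le
    (by positivity) (by norm_num)
  nlinarith

end K22T.A5b
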