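import Pool.Agent.K22T.Defs
set_option autoImplicit false
open Finset BigOperators

namespace K22T.A5c

theorem pt5_A (τ y p q r s : ℝ) (hτ : 0 < τ) (hy : τ ≤ y) :
    -6 * τ ^ 4 - 1 / (3 * τ ^ 2 + y ^ 2) ≤ y ^ 2 * (p ^ 2 + q ^ 2 + r ^ 2 + s ^ 2)
      + p ^ 2 * q ^ 2 + p ^ 2 * r ^ 2 + p ^ 2 * s ^ 2 + q ^ 2 * r ^ 2 + q ^ 2 * s ^ 2
      + r ^ 2 * s ^ 2 - (p + q + r + s) := by
  have hD : 0 < 3 * τ ^ 2 + y ^ 2 := by positivity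
  have h1 : τ ^ 2 * ((p + q + r + s) ^ 2 - (p ^ 2 + q ^ 2 + r ^ 2 + s ^ 2)) - 6 * τ ^ 4 ≤
      p ^ 2 * q ^ 2 + p ^ 2 * r ^ 2 + p ^ 2 * s ^ 2 + q ^ 2 * r ^ 2 + q ^ 2 * s ^ 2
      + r ^ 2 * s ^ 2 := by
    nlinarith [sq_nonneg (p * q - τ ^ 2), sq_nonneg (p * r - τ ^ 2), sq_nonneg (p * s - τ ^ 2),
      sq_nonneg (q * r - τ ^ 2), sq_nonneg (q * s - τ ^ 2), sq_nonneg (r * s - τ ^ 2)]
  have h2 : (p + q + r + s) ^ 2 ≤ 4 * (p ^ 2 + q ^ 2 + r ^ 2 + s ^ 2) := by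
    nlinarith [sq_nonneg (p - q), sq_nonneg (p - r), sq_nonneg (p - s), sq_nonneg (q - r),
      sq_nonneg (q - s), sq_nonneg (r - s)]
  have h3 : 0 ≤ y ^ 2 - τ ^ 2 := by nlinarith
  have h4 : (y ^ 2 - τ ^ 2) * (p + q + r + s) ^ 2 ≤ (y ^ 2 - τ ^ 2) * (4 * (p ^ 2 + q ^ 2 + r ^ 2 + s ^ 2)) :=
    mul_le_mul_of_nonneg_left h2 h3
  have h5 : -1 / (3 * τ ^ 2 + y ^ 2) ≤
      (3 * τ ^ 2 + y ^ 2) / 4 * (p + q + r + s) ^ 2 - (p + q + r + s) := by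
    rw [div_le_iff₀ hD]
    nlinarith [sq_nonneg ((3 * τ ^ 2 + y ^ 2) * (p + q + r + s) - 2)]
  have h6 : -1 / (3 * τ ^ 2 + y ^ 2) = - (1 / (3 * τ ^ 2 + y ^ 2)) := by ring
  rw [h6] at h5
  nlinarith

theorem pt5_B (x : ℝ) (h0 : 1 / 2 ≤ x) (h1 : x ≤ 1) : ∃ τ : ℝ, 0 < τ ∧ τ ≤ x ∧
    (x - 57 / 100) / 8 ≤ -6 * τ ^ 4 - 1 / (3 * τ ^ 2 + x ^ 2) - x + 15 / 8 := by
  have key : ∀ τ : ℝ, 0 < τ → 1 ≤ (15 / 8 + 57 / 800 - 9 * x / 8 - 6 * τ ^ 4) * (3 * τ ^ 2 + x ^ 2) →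
      (x - 57 / 100) / 8 ≤ -6 * τ ^ 4 - 1 / (3 * τ ^ 2 + x ^ 2) - x + 15 / 8 := by
    intro τ hτ h
    have hD : 0 < 3 * τ ^ 2 + x ^ 2 := by positivity
    have h2 : 1 / (3 * τ ^ 2 + x ^ 2) ≤ 15 / 8 + 57 / 800 - 9 * x / 8 - 6 * τ ^ 4 := by
      rw [div_le_iff₀ hD]; exact h
    linarith
  by_cases c1 : x ≤ 58 / 100
  · refine ⟨483 / 1000, by norm_num, by linarith, key _ (by norm_num) ?_⟩
    nlinarith [mul_nonneg (sub_nonneg.mpr h0) (sub_nonneg.mpr c1), mul_nonneg (mul_nonneg (sub_nonneg.mpr h0) (sub_nonneg.mpr c1)) (sub_nonneg.mpr h0)]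
  push Not at c1
  by_cases c2 : x ≤ 66 / 100
  · refine ⟨471 / 1000, by norm_num, by linarith, key _ (by norm_num) ?_⟩
    nlinarith [mul_nonneg (sub_nonneg.mpr c1.le) (sub_nonneg.mpr c2), mul_nonneg (mul_nonneg (sub_nonneg.mpr c1.le) (sub_nonneg.mpr c2)) (sub_nonneg.mpr c1.le)]
  push Not at c2
  by_cases c3 : x ≤ 74 / 100
  · refine ⟨456 / 1000, by norm_num, by linarith, key _ (by norm_num) ?_⟩
    nlinarith [mul_nonneg (sub_nonneg.mpr c2.le) (sub_nonneg.mpr c3), mul_nonneg (mul_nonneg (sub_nonneg.mpr c2.le) (sub_nonneg.mpr c3)) (sub_nonneg.mpr c2.le)]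
  push Not at c3
  by_cases c4 : x ≤ 82 / 100
  · refine ⟨436 / 1000, by norm_num, by linarith, key _ (by norm_num) ?_⟩
    nlinarith [mul_nonneg (sub_nonneg.mpr c3.le) (sub_nonneg.mpr c4), mul_nonneg (mul_nonneg (sub_nonneg.mpr c3.le) (sub_nonneg.mpr c4)) (sub_nonneg.mpr c3.le)]
  push Not at c4
  by_cases c5 : x ≤ 90 / 100
  · refine ⟨408 / 1000, by norm_num, by linarith, key _ (by norm_num) ?_⟩
    nlinarith [mul_nonneg (sub_nonneg.mpr c4.le) (sub_nonneg.mpr c5), mul_nonneg (mul_nonneg (sub_nonneg.mpr c4.le) (sub_nonneg.mpr c5)) (sub_nonneg.mpr c4.le)]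
  push Not at c5
  by_cases c6 : x ≤ 95 / 100
  · refine ⟨379 / 1000, by norm_num, by linarith, key _ (by norm_num) ?_⟩
    nlinarith [mul_nonneg (sub_nonneg.mpr c5.le) (sub_nonneg.mpr c6), mul_nonneg (mul_nonneg (sub_nonneg.mpr c5.le) (sub_nonneg.mpr c6)) (sub_nonneg.mpr c5.le)]
  push Not at c6
  · refine ⟨360 / 1000, by norm_num, by linarith, key _ (by norm_num) ?_⟩
    nlinarith [mul_nonneg (sub_nonneg.mpr c6.le) (sub_nonneg.mpr h1), mul_nonneg (mul_nonneg (sub_nonneg.mpr c6.le) (sub_nonneg.mpr h1)) (sub_nonneg.mpr c6.le)]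

theorem pt5_mono (u A : ℝ) (hu : 0 ≤ u) (hu' : u ≤ 1 / 2) (hA : 0 ≤ A) (hA' : A ≤ 1) :
    A / 4 - 1 / 2 ≤ u ^ 2 * A - u := by
  nlinarith [mul_nonneg (sub_nonneg.mpr hu') (sub_nonneg.mpr (show (u + 1 / 2) * A ≤ 1 by nlinarith))]

theorem pt5_half (x p q r s : ℝ) (hx : 0 ≤ x ∧ x ≤ 1 / 2) (hp : 0 ≤ p ∧ p ≤ 1 / 2)
    (hq : 0 ≤ q ∧ q ≤ 1 / 2) (hr : 0 ≤ r ∧ r ≤ 1 / 2) (hs : 0 ≤ s ∧ s ≤ 1 / 2) :
    x + p + q + r + s ≤ x ^ 2 * (p ^ 2 + q ^ 2 + r ^ 2 + s ^ 2)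
      + p ^ 2 * q ^ 2 + p ^ 2 * r ^ 2 + p ^ 2 * s ^ 2 + q ^ 2 * r ^ 2 + q ^ 2 * s ^ 2
      + r ^ 2 * s ^ 2 + 15 / 8 := by
  have bp : p ^ 2 ≤ 1 / 4 := by nlinarith
  have bq : q ^ 2 ≤ 1 / 4 := by nlinarith
  have br : r ^ 2 ≤ 1 / 4 := by nlinarith
  have bs : s ^ 2 ≤ 1 / 4 := by nlinarith
  have h1 := pt5_mono x (p ^ 2 + q ^ 2 + r ^ 2 + s ^ 2) hx.1 hx.2 (by positivity) (by linarith)
  have h2 := pt5_mono p (1 / 4 + q ^ 2 + r ^ 2 + s ^ 2) hp.1 hp.2 (by positivity) (by linarith)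
  have h3 := pt5_mono q (1 / 4 + 1 / 4 + r ^ 2 + s ^ 2) hq.1 hq.2 (by positivity) (by linarith)
  have h4 := pt5_mono r (1 / 4 + 1 / 4 + 1 / 4 + s ^ 2) hr.1 hr.2 (by positivity) (by linarith)
  have h5 := pt5_mono s (1 / 4 + 1 / 4 + 1 / 4 + 1 / 4) hs.1 hs.2 (by norm_num) (by norm_num)
  nlinarith

theorem pt5 (x p q r s : ℝ) (hx : 0 ≤ x ∧ x ≤ 1) (hp : 0 ≤ p ∧ p ≤ 1) (hq : 0 ≤ q ∧ q ≤ 1)
    (hr : 0 ≤ r ∧ r ≤ 1) (hs : 0 ≤ s ∧ s ≤ 1) :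
    x + p + q + r + s + (x - 57 / 100) / 8 ≤ x ^ 2 * (p ^ 2 + q ^ 2 + r ^ 2 + s ^ 2)
      + p ^ 2 * q ^ 2 + p ^ 2 * r ^ 2 + p ^ 2 * s ^ 2 + q ^ 2 * r ^ 2 + q ^ 2 * s ^ 2
      + r ^ 2 * s ^ 2 + 15 / 8 := by
  by_cases h1 : 1 / 2 ≤ x
  · obtain ⟨τ, t0, t1, t2⟩ := pt5_B x h1 hx.2
    have := pt5_A τ x p q r s t0 t1
    linarith
  push Not at h1
  by_cases h2 : 1 / 2 ≤ p
  · obtain ⟨τ, t0, t1, t2⟩ := pt5_B p h2 hp.2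
    have := pt5_A τ p x q r s t0 t1
    nlinarith
  push Not at h2
  by_cases h3 : 1 / 2 ≤ q
  · obtain ⟨τ, t0, t1, t2⟩ := pt5_B q h3 hq.2
    have := pt5_A τ q x p r s t0 t1
    nlinarith
  push Not at h3
  by_cases h4 : 1 / 2 ≤ r
  · obtain ⟨τ, t0, t1, t2⟩ := pt5_B r h4 hr.2
    have := pt5_A τ r x p q s t0 t1
    nlinarith
  push Not at h4
  by_cases h5 : 1 / 2 ≤ s
  · obtain ⟨τ, t0, t1, t2⟩ := pt5_B s h5 hs.2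
    have := pt5_A τ s x p q r t0 t1
    nlinarith
  push Not at h5
  have := pt5_half x p q r s ⟨hx.1, h1.le⟩ ⟨hp.1, h2.le⟩ ⟨hq.1, h3.le⟩ ⟨hr.1, h4.le⟩ ⟨hs.1, h5.le⟩
  linarith

end K22T.A5c
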