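import Pool.Agent.K22T.A5c
set_option autoImplicit false

namespace K22T.A5d
open K22T.A5c

theorem B0 (y : ℝ) (h0 : 1 / 2 ≤ y) (h1 : y ≤ 57 / 100) : ∃ τ : ℝ, 0 < τ ∧ τ ≤ y ∧
    0 ≤ -6 * τ ^ 4 - 1 / (3 * τ ^ 2 + y ^ 2) - y + 15 / 8 := by
  refine ⟨1 / 2 - (y - 1 / 2) / 5, by linarith, by linarith, ?_⟩
  obtain ⟨u, hu⟩ : ∃ u : ℝ, u = (y - 1 / 2) / 5 := ⟨_, rfl⟩
  have hy : y = 1 / 2 + 5 * u := by rw [hu]; ring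
  have hu0 : 0 ≤ u := by rw [hu]; linarith
  have hu1 : u ≤ 14 / 1000 := by rw [hu]; linarith
  rw [← hu, hy]
  have hD : 0 < 3 * (1 / 2 - u) ^ 2 + (1 / 2 + 5 * u) ^ 2 := by nlinarith
  have key : 1 ≤ (15 / 8 - (1 / 2 + 5 * u) - 6 * (1 / 2 - u) ^ 4) *
      (3 * (1 / 2 - u) ^ 2 + (1 / 2 + 5 * u) ^ 2) := by
    have e : (15 / 8 - (1 / 2 + 5 * u) - 6 * (1 / 2 - u) ^ 4) *
      (3 * (1 / 2 - u) ^ 2 + (1 / 2 + 5 * u) ^ 2) - 1 =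
      u ^ 2 * (15 - 62 * u + 0 * u ^ 2) + ((15 / 8 - (1 / 2 + 5 * u) - 6 * (1 / 2 - u) ^ 4) *
      (3 * (1 / 2 - u) ^ 2 + (1 / 2 + 5 * u) ^ 2) - 1 - u ^ 2 * (15 - 62 * u + 0 * u ^ 2)) := by ring
    nlinarith [mul_nonneg hu0 hu0, mul_nonneg (mul_nonneg hu0 hu0) hu0, mul_nonneg (mul_nonneg hu0 hu0) (sub_nonneg.mpr hu1), mul_nonneg (mul_nonneg (mul_nonneg hu0 hu0) hu0) (sub_nonneg.mpr hu1), pow_nonneg hu0 4, pow_nonneg hu0 5, pow_nonneg hu0 6]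
  have h2 : 1 / (3 * (1 / 2 - u) ^ 2 + (1 / 2 + 5 * u) ^ 2) ≤
      15 / 8 - (1 / 2 + 5 * u) - 6 * (1 / 2 - u) ^ 4 := by
    rw [div_le_iff₀ hD]; exact key
  linarith

theorem B (y : ℝ) (h0 : 1 / 2 ≤ y) (h1 : y ≤ 1) : ∃ τ : ℝ, 0 < τ ∧ τ ≤ y ∧
    0 ≤ -6 * τ ^ 4 - 1 / (3 * τ ^ 2 + y ^ 2) - y + 15 / 8 := by
  by_cases h : y ≤ 57 / 100
  · exact B0 y h0 h
  · push Not at h
    obtain ⟨τ, t0, t1, t2⟩ := pt5_B y h0 h1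
    exact ⟨τ, t0, t1, by linarith⟩

theorem pt5' (x p q r s : ℝ) (hx : 0 ≤ x ∧ x ≤ 1) (hp : 0 ≤ p ∧ p ≤ 1) (hq : 0 ≤ q ∧ q ≤ 1)
    (hr : 0 ≤ r ∧ r ≤ 1) (hs : 0 ≤ s ∧ s ≤ 1) :
    x + p + q + r + s ≤ x ^ 2 * (p ^ 2 + q ^ 2 + r ^ 2 + s ^ 2)
      + p ^ 2 * q ^ 2 + p ^ 2 * r ^ 2 + p ^ 2 * s ^ 2 + q ^ 2 * r ^ 2 + q ^ 2 * s ^ 2
      + r ^ 2 * s ^ 2 + 15 / 8 := by
  by_cases h1 : 1 / 2 ≤ x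
  · obtain ⟨τ, t0, t1, t2⟩ := B x h1 hx.2
    have := pt5_A τ x p q r s t0 t1
    linarith
  push Not at h1
  by_cases h2 : 1 / 2 ≤ p
  · obtain ⟨τ, t0, t1, t2⟩ := B p h2 hp.2
    have := pt5_A τ p x q r s t0 t1
    nlinarith
  push Not at h2
  by_cases h3 : 1 / 2 ≤ q
  · obtain ⟨τ, t0, t1, t2⟩ := B q h3 hq.2
    have := pt5_A τ q x p r s t0 t1
    nlinarith
  push Not at h3
  by_cases h4 : 1 / 2 ≤ r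
  · obtain ⟨τ, t0, t1, t2⟩ := B r h4 hr.2
    have := pt5_A τ r x p q s t0 t1
    nlinarith
  push Not at h4
  by_cases h5 : 1 / 2 ≤ s
  · obtain ⟨τ, t0, t1, t2⟩ := B s h5 hs.2
    have := pt5_A τ s x p q r t0 t1
    nlinarith
  push Not at h5
  have := pt5_half x p q r s ⟨hx.1, h1.le⟩ ⟨hp.1, h2.le⟩ ⟨hq.1, h3.le⟩ ⟨hr.1, h4.le⟩ ⟨hs.1, h5.le⟩
  linarith

end K22T.A5d
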