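import Pool.Agent.K22T.Defs
set_option autoImplicit false
open Finset BigOperators

namespace K22T.A7

/-- the final infeasibility (numerically the last inequality fails by at least 0.005 whenever the
others hold) -/
theorem final_infeasible (f ω y α β : ℝ) (hf : 0 ≤ f) (hω : 0 ≤ ω) (hfω : f + ω ≤ 1)
    (hy0 : 0 < y) (hy : y ≤ 1 / 16) (hβ : 0 ≤ β) (hαβ : β ≤ α)
    (hC : α ≤ 1 / 2 + y - f)
    (hG : y ≤ α * f + β * ω)
    (hS0 : α + β ≤ 5 * y - 11 / 50 * (f + ω))
    (hS1 : α + β ≤ 5 * y - 11 / 50 * f - 133 / 800 * ω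
      - (1 / 8) * ((1 / 2 - y + α) - 57 / 100 * (1 - f)))
    (hQ : (1 / 4 - y / 2) * (1 / 2 - y + α) ^ 2 - 3 / 2 * β * ω * (1 - f)
      ≤ (1 / 4 - 3 * y + α / 16) * (1 - f)) : False := by
  -- step 1: the combined inequality (*)
  have hstar : f * (233 * f + 133 * ω - 7) + 800 * β * f - 900 * (β * ω)
      ≤ y * (4100 * f - 900) := by
    have h1 : 900 * α + 800 * β ≤ 4100 * y - 233 * f - 133 * ω + 7 := by linarith
    have h2 := mul_le_mul_of_nonneg_left h1 hf
    linarith only [h2, hG]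
  -- step 2: ω < f
  have hωf : ω < f := by
    by_contra hcon
    have hcon' : f ≤ ω := not_lt.mp hcon
    have hp : 0 ≤ (α - β) * (ω - f) := mul_nonneg (by linarith) (by linarith)
    have h1 : 2 * y ≤ (α + β) * (f + ω) := by linarith only [hp, hG]
    have hs0 : 0 ≤ f + ω := by positivity
    have hT1 : α + β ≤ 5 / 16 - 11 / 50 * (f + ω) := by linarith
    have hT0 : 0 ≤ α + β := by linarith
    generalize α + β = T at *
    generalize f + ω = s at *
    have h2 : 11 / 50 * s ≤ T * (5 / 2 * s - 1) := by linarith only [h1, hS0]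
    rcases le_or_gt (5 / 2 * s - 1) 0 with h3 | h3
    · have : T * (5 / 2 * s - 1) ≤ 0 := mul_nonpos_of_nonneg_of_nonpos hT0 h3
      have hs00 : s ≤ 0 := by linarith
      have : s = 0 := le_antisymm hs00 hs0
      rw [this] at h1
      linarith
    · have h4 : T * (5 / 2 * s - 1) ≤ (5 / 16 - 11 / 50 * s) * (5 / 2 * s - 1) :=
        mul_le_mul_of_nonneg_right hT1 h3.le
      have h5 := sq_nonneg (s - 71/100)
      nlinarith only [h2, h4, h5]
  have hf0 : 0 < f := lt_of_le_of_lt hω hωf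
  have hα : 0 ≤ α := le_trans hβ hαβ
  have hβB : β ≤ 5 / 32 - 11 / 100 * (f + ω) := by linarith
  -- step 3: f > 0.24
  have hf24 : 24 / 100 ≤ f := by
    by_contra hcon
    have hcon' : f < 24 / 100 := not_le.mp hcon
    have h0 : 0 ≤ β * (f - ω) := mul_nonneg hβ (by linarith)
    have h1 : y ≤ (α + β) * f := by linarith only [h0, hG]
    have hT0 : 0 ≤ α + β := by linarith
    have hT1 : α + β ≤ 5 / 16 - 11 / 50 * f := by linarith
    have hT2 : α + β ≤ 5 * y - 11 / 50 * f := by linarith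
    generalize α + β = T at *
    have h2 : 11 / 50 * f ≤ T * (5 * f - 1) := by linarith only [h1, hT2]
    rcases le_or_gt (5 * f - 1) 0 with h3 | h3
    · have : T * (5 * f - 1) ≤ 0 := mul_nonpos_of_nonneg_of_nonpos hT0 h3
      linarith
    · have h4 : T * (5 * f - 1) ≤ (5 / 16 - 11 / 50 * f) * (5 * f - 1) :=
        mul_le_mul_of_nonneg_right hT1 h3.le
      nlinarith only [h2, h4, hcon', h3]
  have hw0 : 0 ≤ β * ω := mul_nonneg hβ hω
  have hD : 0 < 4100 * f - 900 := by linarith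
  have he0 : 0 ≤ 133 * (f * ω) + 800 * β * f - 900 * (β * ω) := by
    have h1 : 0 ≤ β * (f - ω) := mul_nonneg hβ (by linarith)
    have h2 : 0 ≤ (f - 4 / 5 * β) * ω := mul_nonneg (by linarith) hω
    have h3 : 0 ≤ f * ω := mul_nonneg hf hω
    linarith only [h1, h2, hw0, h3]
  have hstar0 : f * (233 * f - 7) ≤ y * (4100 * f - 900) := by linarith only [hstar, he0]
  have hf28 : 28 / 100 ≤ f := by
    by_contra hcon
    have hcon' : f < 28 / 100 := not_le.mp hcon
    have h1 : y * (4100 * f - 900) ≤ 1 / 16 * (4100 * f - 900) :=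
      mul_le_mul_of_nonneg_right hy hD.le
    nlinarith only [h1, hstar0, hcon', hf24]
  have hf55 : f ≤ 55 / 100 := by
    by_contra hcon
    have hcon' : 55 / 100 < f := not_le.mp hcon
    have h1 : α * f ≤ (1 / 2 + y - f) * f := mul_le_mul_of_nonneg_right hC hf
    have h2 : β * ω ≤ (5 / 32 - 11 / 100 * (f + ω)) * ω := mul_le_mul_of_nonneg_right hβB hω
    have h3 : ω ≤ 1 - f := by linarith
    have h4 : 0 ≤ (1 - f - ω) * ω := mul_nonneg (by linarith) hω
    have h5 := mul_nonneg hy0.le (by linarith : (0:ℝ) ≤ 1 - f)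
    have h6 : 0 ≤ (1 - f - ω) * (f - 55 / 100) := mul_nonneg (by linarith) (by linarith)
    nlinarith only [h1, h2, h3, h4, h5, h6, hG, hcon', hω]
  have hy46 : 23 / 500 ≤ y := by
    have h1 : 23 / 500 * (4100 * f - 900) ≤ y * (4100 * f - 900) := by
      nlinarith only [hstar0, sq_nonneg (f - 42 / 100)]
    exact le_of_mul_le_mul_right h1 hD
  -- step 6: e ≥ K w
  have heK : (3500 * f - 780) * (β * ω) ≤ 133 * (f * ω) + 800 * β * f - 900 * (β * ω) := by
    have hB0 : 0 < 5 / 32 - 11 / 100 * (f + ω) := by nlinarith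
    have h1 : 0 ≤ 133 * (f * ω) + 800 * f * (5 / 32 - 11 / 100 * (f + ω))
        - (120 + 3500 * f) * ((5 / 32 - 11 / 100 * (f + ω)) * ω) := by
      have ht : 0 ≤ f - ω := by linarith
      have hq : 0 ≤ f * (425 / 4 - 22539 / 40 * f + 770 * f ^ 2) :=
        mul_nonneg hf (by nlinarith only [sq_nonneg (f - 366 / 1000)])
      rcases le_total f (43 / 100) with h43 | h43
      · have hc1 : 0 ≤ ((120 + 3500 * f) * (5 / 32 - 33 / 100 * f) - 45 * f) * (f - ω) := by
          refine mul_nonneg ?_ ht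
          nlinarith only [mul_nonneg (sub_nonneg.2 hf28) (sub_nonneg.2 h43), hf28, h43]
        have hc2 : 0 ≤ (11 / 100 * (120 + 3500 * f)) * (f - ω) ^ 2 := by positivity
        linarith only [hq, hc1, hc2]
      · have hc1 : 0 ≤ ((120 + 3500 * f) * (5 / 32 - 33 / 100 * f
            + 22 / 100 * (17 / 10 * (f - 43 / 100))) - 45 * f) * (f - ω) := by
          refine mul_nonneg ?_ ht
          nlinarith only [h43, hf55]
        have hc2 : 0 ≤ (11 / 100 * (120 + 3500 * f))
            * ((f - ω) - 17 / 10 * (f - 43 / 100)) ^ 2 := by positivity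
        have hq2 : 0 ≤ f * (425 / 4 - 22539 / 40 * f + 770 * f ^ 2)
            - (11 / 100 * (120 + 3500 * f)) * (17 / 10 * (f - 43 / 100)) ^ 2 := by
          nlinarith only [mul_nonneg (sub_nonneg.2 h43) (sub_nonneg.2 hf55), h43, hf55,
            mul_nonneg (mul_nonneg (sub_nonneg.2 h43) (sub_nonneg.2 hf55)) hf]
        linarith only [hq2, hc1, hc2]
    generalize 5 / 32 - 11 / 100 * (f + ω) = B at *
    have h2 : 0 ≤ B * (133 * (f * ω) + 800 * β * f - (120 + 3500 * f) * (β * ω)) := by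
      have h3 : 0 ≤ (B - β) * (133 * (f * ω)) := mul_nonneg (by linarith) (by positivity)
      have h4 := mul_nonneg hβ h1
      linarith only [h3, h4]
    have h5 := nonneg_of_mul_nonneg_right h2 hB0
    linarith only [h5]
  -- step 7: the linearised inequality
  have hlin : (f * (57 / 400 - 3249 / 40000 - (1 - f) / 4) + 57 / 100 * (1 - f) * (23 / 8000))
      + (57 / 200 * (1 - f) - 57 / 200 * f + 3249 / 20000 * f + 3 * f * (1 - f) - (1 - f) / 16
        - 57 / 100 * (1 - f) * (23 / 500 + 1 / 16)) * y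
      + (-(57 / 200) - 3 / 2 * f * (1 - f) + (1 - f) / 16) * (β * ω) ≤ 0 := by
    have t1 : 0 ≤ f * ((1 / 4 - y / 2) * ((1 / 2 - y + α) - 57 / 100) ^ 2) :=
      mul_nonneg hf (mul_nonneg (by linarith) (sq_nonneg _))
    have t2 := mul_le_mul_of_nonneg_left hQ hf
    have t3 : 0 ≤ (α * f - y + β * ω) * (57 / 50 * (1 / 4 - y / 2) - (1 - f) / 16) :=
      mul_nonneg (by linarith) (by linarith)
    have t4 : 0 ≤ 57 / 100 * (1 - f) * ((y - 23 / 500) * (1 / 16 - y)) :=
      mul_nonneg (by linarith) (mul_nonneg (by linarith) (by linarith))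
    have t5 : 0 ≤ y * (β * ω) := mul_nonneg hy0.le hw0
    linarith only [t1, t2, t3, t4, t5]
  have hg1 : 0 ≤ 57 / 200 * (1 - f) - 57 / 200 * f + 3249 / 20000 * f + 3 * f * (1 - f)
      - (1 - f) / 16 - 57 / 100 * (1 - f) * (23 / 500 + 1 / 16) := by
    nlinarith only [mul_nonneg (sub_nonneg.2 hf28) (sub_nonneg.2 hf55), hf28, hf55]
  have hfin : 0 < (f * (57 / 400 - 3249 / 40000 - (1 - f) / 4)
        + 57 / 100 * (1 - f) * (23 / 8000)) * (4100 * f - 900)
      + (57 / 200 * (1 - f) - 57 / 200 * f + 3249 / 20000 * f + 3 * f * (1 - f) - (1 - f) / 16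
        - 57 / 100 * (1 - f) * (23 / 500 + 1 / 16)) * (f * (233 * f - 7)) := by
    have e2 : 0 ≤ (f - 28 / 100) * (55 / 100 - f) :=
      mul_nonneg (sub_nonneg.2 hf28) (sub_nonneg.2 hf55)
    nlinarith only [mul_nonneg e2 (sq_nonneg (f - 38 / 100)), sq_nonneg (f - 38 / 100),
      mul_nonneg (sub_nonneg.2 hf28) (sq_nonneg (f - 38 / 100)), e2, hf28, hf55]
  have hK : 0 ≤ (57 / 200 * (1 - f) - 57 / 200 * f + 3249 / 20000 * f + 3 * f * (1 - f)
        - (1 - f) / 16 - 57 / 100 * (1 - f) * (23 / 500 + 1 / 16)) * (3500 * f - 780)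
      + (-(57 / 200) - 3 / 2 * f * (1 - f) + (1 - f) / 16) * (4100 * f - 900) := by
    have e2 : 0 ≤ (f - 28 / 100) * (55 / 100 - f) :=
      mul_nonneg (sub_nonneg.2 hf28) (sub_nonneg.2 hf55)
    nlinarith only [mul_nonneg e2 (sub_nonneg.2 hf28), mul_nonneg e2 (sub_nonneg.2 hf55), e2,
      hf28, hf55]
  generalize hG1 : 57 / 200 * (1 - f) - 57 / 200 * f + 3249 / 20000 * f + 3 * f * (1 - f)
      - (1 - f) / 16 - 57 / 100 * (1 - f) * (23 / 500 + 1 / 16) = g1 at *
  generalize hG0 : f * (57 / 400 - 3249 / 40000 - (1 - f) / 4)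
      + 57 / 100 * (1 - f) * (23 / 8000) = g0 at *
  generalize hG2 : -(57 / 200) - 3 / 2 * f * (1 - f) + (1 - f) / 16 = g2 at *
  have s1 := mul_le_mul_of_nonneg_right hlin hD.le
  have s2 := mul_le_mul_of_nonneg_left hstar hg1
  have s3 := mul_le_mul_of_nonneg_left heK hg1
  have s4 := mul_nonneg hw0 hK
  linarith only [s1, s2, s3, s4, hfin]

end K22T.A7
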