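import Pool.Agent.K22T.A1
import Pool.Agent.K22T.A2
import Pool.Agent.K22T.A34
import Pool.Agent.K22T.A5a
import Pool.Agent.K22T.A5b
import Pool.Agent.K22T.A5c
import Pool.Agent.K22T.A5d
import Pool.Agent.K22T.A7
set_option autoImplicit false
set_option maxHeartbeats 4000000
open Finset BigOperators

namespace K22T.A6

theorem exists_argmax {I : Type*} [Fintype I] (d : I → ℝ) (Q : I → Prop) (h : ∃ z, Q z) :
    ∃ v, Q v ∧ ∀ z, Q z → d z ≤ d v := by
  classical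
  obtain ⟨z, hz⟩ := h
  obtain ⟨v, hv, hmax⟩ := (Finset.univ.filter Q).exists_max_image d ⟨z, by simp [hz]⟩
  exact ⟨v, by simpa using hv, fun z hz => hmax z (by simp [hz])⟩

theorem wsum_le {I : Type*} [Fintype I] (w : I → ℝ) (hw : ∀ i, 0 ≤ w i) (f g : I → ℝ)
    (h : ∀ z, 0 < w z → f z ≤ g z) : ∑ z, w z * f z ≤ ∑ z, w z * g z := by
  apply Finset.sum_le_sum
  intro z _
  rcases (hw z).lt_or_eq with h1 | h1
  · exact mul_le_mul_of_nonneg_left (h z h1) h1.le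
  · rw [← h1]; simp

theorem pair_ineq (x y : ℝ) (hx : 0 ≤ x ∧ x ≤ 1) (hy : 0 ≤ y ∧ y ≤ 1) :
    x + y ≤ 1 + 8 / 7 * (x ^ 2 * y ^ 2) + 7 / 32 := by
  by_cases h : x + y ≤ 1
  · have : 0 ≤ x ^ 2 * y ^ 2 := by positivity
    linarith
  · push Not at h
    have h1 : x + y - 1 ≤ x * y := by nlinarith [mul_nonneg (sub_nonneg.mpr hx.2) (sub_nonneg.mpr hy.2)]
    have h2 : (x + y - 1) ^ 2 ≤ (x * y) ^ 2 := by
      apply pow_le_pow_left₀ (by linarith) h1
    nlinarith [sq_nonneg (x + y - 1 - 7 / 16)]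

theorem q_full (δ dz x b : ℝ) (h : dz ≤ δ) :
    δ * x ^ 2 - 3 * (b - δ) * 0 ≤ (4 * δ - 3 * dz) * x ^ 2 := by
  nlinarith [mul_nonneg (sub_nonneg.mpr h) (sq_nonneg x)]

theorem q_part (δ dz x b : ℝ) (h : dz ≤ b) (hb : δ ≤ b) (h0 : 0 ≤ x) (h1 : x ≤ 1) :
    δ * x ^ 2 - 3 * (b - δ) * 1 ≤ (4 * δ - 3 * dz) * x ^ 2 := by
  have hx : x ^ 2 ≤ 1 := by nlinarith
  nlinarith [mul_nonneg (sub_nonneg.mpr h) (sq_nonneg x),
    mul_nonneg (sub_nonneg.mpr hb) (sub_nonneg.mpr hx)]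

theorem q_rhs (δ a c D : ℝ) (h : δ ≤ a) (hc : c < 1 / 16) :
    (6 - 2 * c) * δ + 2 * c * a - 5 * D ≤ 6 * δ - 5 * D + (a - δ) / 8 := by
  nlinarith [mul_nonneg (sub_nonneg.mpr h) (sub_nonneg.mpr hc.le)]

theorem q_fin (δ a b f ω U : ℝ) (h1f : 0 ≤ 1 - f)
    (hk : 0 ≤ 1 / 4 - (1 / 2 - δ) / 2) (hCS : a ^ 2 ≤ (1 - f) * U)
    (e2 : (δ * U - 3 * (b - δ) * ω) / 2 ≤ 1 / 4 - 3 * (1 / 2 - δ) + (a - δ) / 16) :
    (1 / 4 - (1 / 2 - δ) / 2) * (1 / 2 - (1 / 2 - δ) + (a - δ)) ^ 2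
      - 3 / 2 * (b - δ) * ω * (1 - f) ≤
      (1 / 4 - 3 * (1 / 2 - δ) + (a - δ) / 16) * (1 - f) := by
  have e1 : (1 / 4 - (1 / 2 - δ) / 2) * (1 / 2 - (1 / 2 - δ) + (a - δ)) ^ 2 ≤
      (1 / 4 - (1 / 2 - δ) / 2) * ((1 - f) * U) := by
    apply mul_le_mul_of_nonneg_left _ hk
    have : 1 / 2 - (1 / 2 - δ) + (a - δ) = a := by ring
    rw [this]; exact hCS
  have e3 := mul_le_mul_of_nonneg_right e2 h1f
  nlinarith

theorem no_big {I : Type*} [Fintype I] (S : I → I → Prop) (hsym : ∀ i j, S i j → S j i)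
    (c : ℝ) (hc0 : 0 < c) (hc : c < 1 / 16)
    (w : I → ℝ) (p : I → I → ℝ) (h : Feas S c w p)
    (hmax : ∀ w'' p'', Feas S c w'' p'' → Dens w'' p'' ≤ Dens w p) : Dens w p ≤ 1 / 2 := by
  classical
  by_contra hD
  push Not at hD
  have FO := fun μ ρ hρ ht => A2.first_order S c hc0 w p h hmax μ ρ hρ ht
  have hP1 := A34.P1 S c hc0 w p h FO
  have hP2 := A34.P2 S c hc0 w p h FO
  obtain ⟨hw, hw1, hp, hps, hpS, hcS⟩ := h
  obtain ⟨D, hDdef⟩ : ∃ D, D = Dens w p := ⟨_, rfl⟩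
  rw [← hDdef] at hD hP1 hP2
  obtain ⟨d, hd⟩ : ∃ d : I → ℝ, d = fun z => ∑ j, w j * p z j := ⟨_, rfl⟩
  have hdz : ∀ z, ∑ j, w j * p z j = d z := fun z => by rw [hd]
  simp only [hdz] at hP1 hP2
  have hDsum : ∑ z, w z * d z = D := by
    rw [hDdef, Dens]
    apply Finset.sum_congr rfl
    intro z _
    rw [← hdz z, Finset.mul_sum]
    apply Finset.sum_congr rfl
    intro j _; ring
  -- bound D by any upper bound of d
  have Dle : ∀ B : I → ℝ, (∀ z, 0 < w z → d z ≤ B z) → D ≤ ∑ z, w z * B z := by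
    intro B hB
    rw [← hDsum]
    exact wsum_le w hw d B hB
  have hp0 : ∀ i j, 0 ≤ p i j := fun i j => (hp i j).1
  have hp1 : ∀ i j, p i j ≤ 1 := fun i j => (hp i j).2
  have dlow : ∀ z, 0 < w z → 7 / 16 < d z := fun z hz => by
    have := hP1 z hz; linarith
  -- v1
  have hex1 : ∃ z, 0 < w z := by
    by_contra hcon
    push Not at hcon
    have : ∑ i, w i ≤ 0 := Finset.sum_nonpos fun i _ => hcon i
    linarith
  obtain ⟨v1, hv1, hm1⟩ := exists_argmax d (fun z => 0 < w z) hex1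
  -- v2
  have hex2 : ∃ z, 0 < w z ∧ S v1 z := by
    by_contra hcon
    push Not at hcon
    have : d v1 ≤ 0 := by
      rw [← hdz v1]
      apply Finset.sum_nonpos
      intro j _
      by_cases hj : 0 < w j
      · rw [hpS v1 j (hcon j hj)]; simp
      · have : w j = 0 := le_antisymm (not_lt.mp hj) (hw j)
        rw [this]; simp
    have := dlow v1 hv1
    linarith
  obtain ⟨v2, ⟨hv2, h12⟩, hm2⟩ := exists_argmax d (fun z => 0 < w z ∧ S v1 z) hex2
  obtain ⟨a, ha⟩ : ∃ a, a = d v1 := ⟨_, rfl⟩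
  obtain ⟨b, hb⟩ : ∃ b, b = d v2 := ⟨_, rfl⟩
  have hab : b ≤ a := by rw [ha, hb]; exact hm1 v2 hv2
  have haD : D ≤ a := by
    have := Dle (fun _ => a) (fun z hz => by rw [ha]; exact hm1 z hz)
    rw [← Finset.sum_mul, hw1, one_mul] at this
    exact this
  -- s1
  obtain ⟨s1, hs1⟩ : ∃ s1 : ℝ, s1 = ∑ z, w z * (if S v1 z then 1 else 0) := ⟨_, rfl⟩
  have has1 : a ≤ s1 := by
    rw [ha, ← hdz v1, hs1]
    apply wsum_le w hw
    intro z _
    by_cases hz : S v1 z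
    · simp [hz, hp1 v1 z]
    · simp [hz, hpS v1 z hz]
  have hDb : D ≤ a - s1 * (a - b) := by
    have := Dle (fun z => if S v1 z then b else a) (fun z hz => by
      by_cases h1 : S v1 z
      · simp only [h1, if_true]; rw [hb]; exact hm2 z ⟨hz, h1⟩
      · simp only [h1, if_false]; rw [ha]; exact hm1 z hz)
    have e : ∑ z, w z * (if S v1 z then b else a) = a - s1 * (a - b) := by
      rw [hs1]
      have : ∀ z, w z * (if S v1 z then b else a) =
          w z * a - w z * (if S v1 z then 1 else 0) * (a - b) := by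
        intro z; split_ifs <;> ring
      rw [Finset.sum_congr rfl fun z _ => this z, Finset.sum_sub_distrib, ← Finset.sum_mul,
        ← Finset.sum_mul, hw1, one_mul]
    rw [e] at this
    exact this
  have hab1 : 1 < a + b := by nlinarith
  -- v3
  have hex3 : ∃ z, 0 < w z ∧ S v1 z ∧ S v2 z := by
    by_contra hcon
    push Not at hcon
    have : ∑ z, w z * (p v1 z + p v2 z) ≤ ∑ z, w z * 1 := by
      apply wsum_le w hw
      intro z hz
      by_cases h1 : S v1 z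
      · have := hpS v2 z (hcon z hz h1)
        rw [this]; linarith [hp1 v1 z]
      · have := hpS v1 z h1
        rw [this]; linarith [hp1 v2 z]
    simp only [mul_add, mul_one, Finset.sum_add_distrib, hdz, hw1] at this
    rw [← ha, ← hb] at this
    linarith
  obtain ⟨v3, ⟨hv3, h13, h23⟩, hm3⟩ := exists_argmax d (fun z => 0 < w z ∧ S v1 z ∧ S v2 z) hex3
  have hd3 := dlow v3 hv3
  -- v4
  have hex4 : ∃ z, 0 < w z ∧ S v1 z ∧ S v2 z ∧ S v3 z := by
    by_contra hcon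
    push Not at hcon
    have : ∑ z, w z * (p v1 z + p v2 z + p v3 z) ≤ ∑ z, w z * (39 / 32 + 8 / 7 *
        (p v1 z ^ 2 * p v2 z ^ 2 + p v1 z ^ 2 * p v3 z ^ 2 + p v2 z ^ 2 * p v3 z ^ 2)) := by
      apply wsum_le w hw
      intro z hz
      by_cases h1 : S v1 z
      · by_cases h2 : S v2 z
        · have := hpS v3 z (hcon z hz h1 h2)
          rw [this]
          have := pair_ineq _ _ (hp v1 z) (hp v2 z)
          nlinarith
        · have := hpS v2 z h2
          rw [this]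
          have := pair_ineq _ _ (hp v1 z) (hp v3 z)
          nlinarith
      · have := hpS v1 z h1
        rw [this]
        have := pair_ineq _ _ (hp v2 z) (hp v3 z)
        nlinarith
    have e : ∑ z, w z * (39 / 32 + 8 / 7 *
        (p v1 z ^ 2 * p v2 z ^ 2 + p v1 z ^ 2 * p v3 z ^ 2 + p v2 z ^ 2 * p v3 z ^ 2)) =
        39 / 32 + 8 / 7 * (∑ z, w z * (p v1 z ^ 2 * p v2 z ^ 2) +
          ∑ z, w z * (p v1 z ^ 2 * p v3 z ^ 2) + ∑ z, w z * (p v2 z ^ 2 * p v3 z ^ 2)) := by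
      rw [← Finset.sum_add_distrib, ← Finset.sum_add_distrib, Finset.mul_sum]
      have : (39 / 32 : ℝ) = ∑ z, w z * (39 / 32) := by rw [← Finset.sum_mul, hw1, one_mul]
      conv_rhs => rw [this]
      rw [← Finset.sum_add_distrib]
      apply Finset.sum_congr rfl
      intro z _; ring
    rw [e] at this
    simp only [mul_add, Finset.sum_add_distrib, hdz] at this
    rw [← ha, ← hb] at this
    have q1 := hcS v1 v2 h12
    have q2 := hcS v1 v3 h13
    have q3 := hcS v2 v3 h23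
    linarith
  obtain ⟨v4, ⟨hv4, h14, h24, h34⟩, hm4⟩ :=
    exists_argmax d (fun z => 0 < w z ∧ S v1 z ∧ S v2 z ∧ S v3 z) hex4
  have hd4 := dlow v4 hv4
  -- v5
  have hex5 : ∃ z, 0 < w z ∧ S v1 z ∧ S v2 z ∧ S v3 z ∧ S v4 z := by
    by_contra hcon
    push Not at hcon
    have : ∑ z, w z * (p v1 z + p v2 z + p v3 z + p v4 z) ≤ ∑ z, w z * (3 / 2 +
        (p v1 z ^ 2 * p v2 z ^ 2 + p v1 z ^ 2 * p v3 z ^ 2 + p v1 z ^ 2 * p v4 z ^ 2 +
          p v2 z ^ 2 * p v3 z ^ 2 + p v2 z ^ 2 * p v4 z ^ 2 + p v3 z ^ 2 * p v4 z ^ 2)) := by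
      apply wsum_le w hw
      intro z hz
      by_cases h1 : S v1 z
      · by_cases h2 : S v2 z
        · by_cases h3 : S v3 z
          · have := hpS v4 z (hcon z hz h1 h2 h3)
            rw [this]
            have := A5a.pt3 _ _ _ (hp v1 z) (hp v2 z) (hp v3 z)
            nlinarith
          · have := hpS v3 z h3
            rw [this]
            have := A5a.pt3 _ _ _ (hp v1 z) (hp v2 z) (hp v4 z)
            nlinarith
        · have := hpS v2 z h2
          rw [this]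
          have := A5a.pt3 _ _ _ (hp v1 z) (hp v3 z) (hp v4 z)
          nlinarith
      · have := hpS v1 z h1
        rw [this]
        have := A5a.pt3 _ _ _ (hp v2 z) (hp v3 z) (hp v4 z)
        nlinarith
    have e : ∑ z, w z * (3 / 2 +
        (p v1 z ^ 2 * p v2 z ^ 2 + p v1 z ^ 2 * p v3 z ^ 2 + p v1 z ^ 2 * p v4 z ^ 2 +
          p v2 z ^ 2 * p v3 z ^ 2 + p v2 z ^ 2 * p v4 z ^ 2 + p v3 z ^ 2 * p v4 z ^ 2)) =
        3 / 2 + (∑ z, w z * (p v1 z ^ 2 * p v2 z ^ 2) +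
          ∑ z, w z * (p v1 z ^ 2 * p v3 z ^ 2) + ∑ z, w z * (p v1 z ^ 2 * p v4 z ^ 2) +
          ∑ z, w z * (p v2 z ^ 2 * p v3 z ^ 2) + ∑ z, w z * (p v2 z ^ 2 * p v4 z ^ 2) +
          ∑ z, w z * (p v3 z ^ 2 * p v4 z ^ 2)) := by
      simp only [← Finset.sum_add_distrib]
      have : (3 / 2 : ℝ) = ∑ z, w z * (3 / 2) := by rw [← Finset.sum_mul, hw1, one_mul]
      conv_rhs => rw [this]
      rw [← Finset.sum_add_distrib]
      apply Finset.sum_congr rfl
      intro z _; ring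
    rw [e] at this
    simp only [mul_add, Finset.sum_add_distrib, hdz] at this
    rw [← ha, ← hb] at this
    have q1 := hcS v1 v2 h12
    have q2 := hcS v1 v3 h13
    have q3 := hcS v1 v4 h14
    have q4 := hcS v2 v3 h23
    have q5 := hcS v2 v4 h24
    have q6 := hcS v3 v4 h34
    linarith
  obtain ⟨v5, ⟨hv5, h15, h25, h35, h45⟩, hm5⟩ :=
    exists_argmax d (fun z => 0 < w z ∧ S v1 z ∧ S v2 z ∧ S v3 z ∧ S v4 z) hex5
  have hd5 := dlow v5 hv5
  obtain ⟨δ, hδ⟩ : ∃ δ, δ = d v5 := ⟨_, rfl⟩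
  have hδ3 : δ ≤ d v3 := by rw [hδ]; exact hm3 v5 ⟨hv5, h15, h25⟩
  have hδ4 : δ ≤ d v4 := by rw [hδ]; exact hm4 v5 ⟨hv5, h15, h25, h35⟩
  have hδb : δ ≤ b := by rw [hδ, hb]; exact hm2 v5 ⟨hv5, h15⟩
  -- classification
  obtain ⟨Fu, hFu⟩ : ∃ Fu : I → Prop, Fu = fun z => S v1 z ∧ S v2 z ∧ S v3 z ∧ S v4 z ∧ S v5 z :=
    ⟨_, rfl⟩
  obtain ⟨f, hf⟩ : ∃ f : ℝ, f = ∑ z, w z * (if S v1 z then 0 else 1) := ⟨_, rfl⟩
  obtain ⟨ω, hω⟩ : ∃ ω : ℝ, ω = ∑ z, w z * (if S v1 z ∧ ¬ Fu z then 1 else 0) := ⟨_, rfl⟩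
  have hfs : f = 1 - s1 := by
    have e : f + s1 = ∑ z, w z := by
      rw [hf, hs1, ← Finset.sum_add_distrib]
      apply Finset.sum_congr rfl
      intro z _; split_ifs <;> ring
    rw [hw1] at e
    linarith
  have hf0 : 0 ≤ f := by
    rw [hf]; apply Finset.sum_nonneg; intro z _
    split_ifs
    · simp
    · simpa using hw z
  have hω0 : 0 ≤ ω := by
    rw [hω]; apply Finset.sum_nonneg; intro z _
    split_ifs
    · simpa using hw z
    · simp
  have hfω : f + ω ≤ 1 := by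
    refine le_trans ?_ hw1.le
    rw [hf, hω, ← Finset.sum_add_distrib]
    apply Finset.sum_le_sum; intro z _
    by_cases h1 : S v1 z
    · by_cases h2 : Fu z
      · simp [h1, h2, hw z]
      · simp [h1, h2]
    · simp [h1]
  -- (G)
  have hG : D ≤ δ + (a - δ) * f + (b - δ) * ω := by
    have := Dle (fun z => δ + (a - δ) * (if S v1 z then 0 else 1) +
        (b - δ) * (if S v1 z ∧ ¬ Fu z then 1 else 0)) (fun z hz => by
      by_cases h1 : S v1 z
      · by_cases h2 : Fu z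
        · simp only [h1, h2, if_true, not_true, and_false, if_false]
          rw [hFu] at h2
          have := hm5 z ⟨hz, h2.1, h2.2.1, h2.2.2.1, h2.2.2.2.1⟩
          rw [← hδ] at this
          linarith
        · simp only [h1, h2, if_true, not_false_iff, and_true]
          have := hm2 z ⟨hz, h1⟩
          rw [← hb] at this
          linarith
      · simp only [h1, if_false, false_and]
        have := hm1 z hz
        rw [← ha] at this
        linarith)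
    have e : ∑ z, w z * (δ + (a - δ) * (if S v1 z then 0 else 1) +
        (b - δ) * (if S v1 z ∧ ¬ Fu z then 1 else 0)) = δ + (a - δ) * f + (b - δ) * ω := by
      have e0 : ∑ z, w z * δ = δ := by rw [← Finset.sum_mul, hw1, one_mul]
      have e1 : ∑ z, w z * (δ + (a - δ) * (if S v1 z then 0 else 1) +
        (b - δ) * (if S v1 z ∧ ¬ Fu z then 1 else 0)) =
        ∑ z, w z * δ + (a - δ) * f + (b - δ) * ω := by
        rw [hf, hω, Finset.mul_sum, Finset.mul_sum, ← Finset.sum_add_distrib,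
          ← Finset.sum_add_distrib]
        apply Finset.sum_congr rfl
        intro z _; ring
      rw [e1, e0]
    rw [e] at this
    exact this
  -- sums of the pair products
  have hF5 : ∑ z, w z * (p v1 z ^ 2 * (p v2 z ^ 2 + p v3 z ^ 2 + p v4 z ^ 2 + p v5 z ^ 2)
      + p v2 z ^ 2 * p v3 z ^ 2 + p v2 z ^ 2 * p v4 z ^ 2 + p v2 z ^ 2 * p v5 z ^ 2
      + p v3 z ^ 2 * p v4 z ^ 2 + p v3 z ^ 2 * p v5 z ^ 2 + p v4 z ^ 2 * p v5 z ^ 2) ≤ 10 * c := by
    have q1 := hcS v1 v2 h12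
    have q2 := hcS v1 v3 h13
    have q3 := hcS v1 v4 h14
    have q4 := hcS v1 v5 h15
    have q5 := hcS v2 v3 h23
    have q6 := hcS v2 v4 h24
    have q7 := hcS v2 v5 h25
    have q8 := hcS v3 v4 h34
    have q9 := hcS v3 v5 h35
    have q10 := hcS v4 v5 h45
    have e : ∑ z, w z * (p v1 z ^ 2 * (p v2 z ^ 2 + p v3 z ^ 2 + p v4 z ^ 2 + p v5 z ^ 2)
      + p v2 z ^ 2 * p v3 z ^ 2 + p v2 z ^ 2 * p v4 z ^ 2 + p v2 z ^ 2 * p v5 z ^ 2
      + p v3 z ^ 2 * p v4 z ^ 2 + p v3 z ^ 2 * p v5 z ^ 2 + p v4 z ^ 2 * p v5 z ^ 2) =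
      ∑ z, w z * (p v1 z ^ 2 * p v2 z ^ 2) + ∑ z, w z * (p v1 z ^ 2 * p v3 z ^ 2) +
      ∑ z, w z * (p v1 z ^ 2 * p v4 z ^ 2) + ∑ z, w z * (p v1 z ^ 2 * p v5 z ^ 2) +
      ∑ z, w z * (p v2 z ^ 2 * p v3 z ^ 2) + ∑ z, w z * (p v2 z ^ 2 * p v4 z ^ 2) +
      ∑ z, w z * (p v2 z ^ 2 * p v5 z ^ 2) + ∑ z, w z * (p v3 z ^ 2 * p v4 z ^ 2) +
      ∑ z, w z * (p v3 z ^ 2 * p v5 z ^ 2) + ∑ z, w z * (p v4 z ^ 2 * p v5 z ^ 2) := by
      simp only [← Finset.sum_add_distrib]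
      apply Finset.sum_congr rfl
      intro z _; ring
    rw [e]; linarith
  -- pointwise: if some coordinate vanishes we gain 11/50
  have gain : ∀ z, ¬ Fu z → p v1 z + p v2 z + p v3 z + p v4 z + p v5 z ≤
      (p v1 z ^ 2 * (p v2 z ^ 2 + p v3 z ^ 2 + p v4 z ^ 2 + p v5 z ^ 2)
      + p v2 z ^ 2 * p v3 z ^ 2 + p v2 z ^ 2 * p v4 z ^ 2 + p v2 z ^ 2 * p v5 z ^ 2
      + p v3 z ^ 2 * p v4 z ^ 2 + p v3 z ^ 2 * p v5 z ^ 2 + p v4 z ^ 2 * p v5 z ^ 2)
      + (15 / 8 - 11 / 50) := by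
    intro z hz
    rw [hFu] at hz
    by_cases h1 : S v1 z
    · by_cases h2 : S v2 z
      · by_cases h3 : S v3 z
        · by_cases h4 : S v4 z
          · have h5 : ¬ S v5 z := fun h5 => hz ⟨h1, h2, h3, h4, h5⟩
            rw [hpS v5 z h5]
            have := A5b.pt4 _ _ _ _ (hp v1 z) (hp v2 z) (hp v3 z) (hp v4 z)
            nlinarith
          · rw [hpS v4 z h4]
            have := A5b.pt4 _ _ _ _ (hp v1 z) (hp v2 z) (hp v3 z) (hp v5 z)
            nlinarith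
        · rw [hpS v3 z h3]
          have := A5b.pt4 _ _ _ _ (hp v1 z) (hp v2 z) (hp v4 z) (hp v5 z)
          nlinarith
      · rw [hpS v2 z h2]
        have := A5b.pt4 _ _ _ _ (hp v1 z) (hp v3 z) (hp v4 z) (hp v5 z)
        nlinarith
    · rw [hpS v1 z h1]
      have := A5b.pt4 _ _ _ _ (hp v2 z) (hp v3 z) (hp v4 z) (hp v5 z)
      nlinarith
  have hsum5 : ∑ z, w z * (p v1 z + p v2 z + p v3 z + p v4 z + p v5 z) =
      a + b + d v3 + d v4 + δ := by
    simp only [mul_add, Finset.sum_add_distrib, hdz]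
    rw [← ha, ← hb, ← hδ]
  -- (S0)
  have hS0 : a + b + d v3 + d v4 + δ ≤ 10 * c + 15 / 8 - 11 / 50 * (f + ω) := by
    rw [← hsum5]
    have := wsum_le w hw (fun z => p v1 z + p v2 z + p v3 z + p v4 z + p v5 z)
      (fun z => (p v1 z ^ 2 * (p v2 z ^ 2 + p v3 z ^ 2 + p v4 z ^ 2 + p v5 z ^ 2)
      + p v2 z ^ 2 * p v3 z ^ 2 + p v2 z ^ 2 * p v4 z ^ 2 + p v2 z ^ 2 * p v5 z ^ 2
      + p v3 z ^ 2 * p v4 z ^ 2 + p v3 z ^ 2 * p v5 z ^ 2 + p v4 z ^ 2 * p v5 z ^ 2)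
      + 15 / 8 - 11 / 50 * ((if S v1 z then 0 else 1) + (if S v1 z ∧ ¬ Fu z then 1 else 0)))
      (fun z hz => by
        by_cases h2 : Fu z
        · have h1 : S v1 z := by rw [hFu] at h2; exact h2.1
          simp only [h1, h2, if_true, not_true, and_false, if_false]
          have := A5d.pt5' _ _ _ _ _ (hp v1 z) (hp v2 z) (hp v3 z) (hp v4 z) (hp v5 z)
          linarith
        · have hg := gain z h2
          by_cases h1 : S v1 z
          · simp only [h1, h2, if_true, not_false_iff, and_true]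
            linarith
          · simp only [h1, if_false, false_and]
            linarith)
    refine this.trans ?_
    have e : ∑ z, w z * ((p v1 z ^ 2 * (p v2 z ^ 2 + p v3 z ^ 2 + p v4 z ^ 2 + p v5 z ^ 2)
      + p v2 z ^ 2 * p v3 z ^ 2 + p v2 z ^ 2 * p v4 z ^ 2 + p v2 z ^ 2 * p v5 z ^ 2
      + p v3 z ^ 2 * p v4 z ^ 2 + p v3 z ^ 2 * p v5 z ^ 2 + p v4 z ^ 2 * p v5 z ^ 2)
      + 15 / 8 - 11 / 50 * ((if S v1 z then 0 else 1) + (if S v1 z ∧ ¬ Fu z then 1 else 0))) =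
      ∑ z, w z * (p v1 z ^ 2 * (p v2 z ^ 2 + p v3 z ^ 2 + p v4 z ^ 2 + p v5 z ^ 2)
      + p v2 z ^ 2 * p v3 z ^ 2 + p v2 z ^ 2 * p v4 z ^ 2 + p v2 z ^ 2 * p v5 z ^ 2
      + p v3 z ^ 2 * p v4 z ^ 2 + p v3 z ^ 2 * p v5 z ^ 2 + p v4 z ^ 2 * p v5 z ^ 2)
      + ∑ z, w z * (15 / 8) - 11 / 50 * (f + ω) := by
      rw [hf, hω, mul_add, Finset.mul_sum, Finset.mul_sum, ← Finset.sum_add_distrib,
        ← Finset.sum_add_distrib, ← Finset.sum_sub_distrib]
      apply Finset.sum_congr rfl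
      intro z _; ring
    rw [e, ← Finset.sum_mul, hw1]
    linarith
  -- (S1)
  have hS1 : a + b + d v3 + d v4 + δ ≤ 10 * c + 15 / 8 - 11 / 50 * f - 133 / 800 * ω
      - 1 / 8 * (a - 57 / 100 * (1 - f)) := by
    rw [← hsum5]
    have := wsum_le w hw (fun z => p v1 z + p v2 z + p v3 z + p v4 z + p v5 z)
      (fun z => (p v1 z ^ 2 * (p v2 z ^ 2 + p v3 z ^ 2 + p v4 z ^ 2 + p v5 z ^ 2)
      + p v2 z ^ 2 * p v3 z ^ 2 + p v2 z ^ 2 * p v4 z ^ 2 + p v2 z ^ 2 * p v5 z ^ 2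
      + p v3 z ^ 2 * p v4 z ^ 2 + p v3 z ^ 2 * p v5 z ^ 2 + p v4 z ^ 2 * p v5 z ^ 2)
      + 15 / 8 - 11 / 50 * (if S v1 z then 0 else 1)
      - 133 / 800 * (if S v1 z ∧ ¬ Fu z then 1 else 0)
      - 1 / 8 * (p v1 z - 57 / 100 * (1 - (if S v1 z then 0 else 1))))
      (fun z hz => by
        by_cases h2 : Fu z
        · have h1 : S v1 z := by rw [hFu] at h2; exact h2.1
          simp only [h1, h2, if_true, not_true, and_false, if_false]
          have := A5c.pt5 _ _ _ _ _ (hp v1 z) (hp v2 z) (hp v3 z) (hp v4 z) (hp v5 z)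
          linarith
        · have hg := gain z h2
          by_cases h1 : S v1 z
          · simp only [h1, h2, if_true, not_false_iff, and_true]
            have := hp1 v1 z
            linarith
          · simp only [h1, if_false, false_and]
            have := hpS v1 z h1
            rw [this] at hg ⊢
            linarith)
    refine this.trans ?_
    have e : ∑ z, w z * ((p v1 z ^ 2 * (p v2 z ^ 2 + p v3 z ^ 2 + p v4 z ^ 2 + p v5 z ^ 2)
      + p v2 z ^ 2 * p v3 z ^ 2 + p v2 z ^ 2 * p v4 z ^ 2 + p v2 z ^ 2 * p v5 z ^ 2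
      + p v3 z ^ 2 * p v4 z ^ 2 + p v3 z ^ 2 * p v5 z ^ 2 + p v4 z ^ 2 * p v5 z ^ 2)
      + 15 / 8 - 11 / 50 * (if S v1 z then 0 else 1)
      - 133 / 800 * (if S v1 z ∧ ¬ Fu z then 1 else 0)
      - 1 / 8 * (p v1 z - 57 / 100 * (1 - (if S v1 z then 0 else 1)))) =
      ∑ z, w z * (p v1 z ^ 2 * (p v2 z ^ 2 + p v3 z ^ 2 + p v4 z ^ 2 + p v5 z ^ 2)
      + p v2 z ^ 2 * p v3 z ^ 2 + p v2 z ^ 2 * p v4 z ^ 2 + p v2 z ^ 2 * p v5 z ^ 2
      + p v3 z ^ 2 * p v4 z ^ 2 + p v3 z ^ 2 * p v5 z ^ 2 + p v4 z ^ 2 * p v5 z ^ 2)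
      + ∑ z, w z * (15 / 8) - 11 / 50 * f - 133 / 800 * ω
      - 1 / 8 * (a - (57 / 100 * ∑ z, w z * 1 - 57 / 100 * f)) := by
      rw [hf, hω, ha, ← hdz v1, Finset.mul_sum, Finset.mul_sum, Finset.mul_sum, Finset.mul_sum,
        ← Finset.sum_sub_distrib, ← Finset.sum_sub_distrib, Finset.mul_sum,
        ← Finset.sum_add_distrib, ← Finset.sum_sub_distrib, ← Finset.sum_sub_distrib,
        ← Finset.sum_sub_distrib]
      apply Finset.sum_congr rfl
      intro z _; ring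
    rw [e, ← Finset.sum_mul, ← Finset.sum_mul, hw1]
    linarith
  -- (Q)
  obtain ⟨U, hU⟩ : ∃ U : ℝ, U = ∑ z, w z * p v1 z ^ 2 := ⟨_, rfl⟩
  have hCS : a ^ 2 ≤ (1 - f) * U := by
    have h1 : a = ∑ z, (Real.sqrt (w z * (if S v1 z then 1 else 0))) *
        (Real.sqrt (w z) * p v1 z) := by
      rw [ha, ← hdz v1]
      apply Finset.sum_congr rfl
      intro z _
      by_cases h1 : S v1 z
      · simp only [h1, if_true, mul_one]
        rw [← mul_assoc, Real.mul_self_sqrt (hw z)]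
      · simp [h1, hpS v1 z h1]
    have h2 := Finset.sum_mul_sq_le_sq_mul_sq Finset.univ
      (fun z => Real.sqrt (w z * (if S v1 z then 1 else 0))) (fun z => Real.sqrt (w z) * p v1 z)
    rw [← h1] at h2
    have e1 : ∑ z, (Real.sqrt (w z * (if S v1 z then 1 else 0))) ^ 2 = 1 - f := by
      rw [hfs, hs1, sub_sub_cancel]
      apply Finset.sum_congr rfl
      intro z _
      rw [Real.sq_sqrt]
      split_ifs
      · simpa using hw z
      · simp
    have e2 : ∑ z, (Real.sqrt (w z) * p v1 z) ^ 2 = U := by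
      rw [hU]
      apply Finset.sum_congr rfl
      intro z _
      rw [mul_pow, Real.sq_sqrt (hw z)]
    rw [e1, e2] at h2
    exact h2
  have hQ0 : δ * U - 3 * (b - δ) * ω ≤ 6 * δ - 5 * D + (a - δ) / 8 := by
    have hq := hP2 v1 v5 hv1 hv5
    rw [← hδ, ← ha] at hq
    have h1 : δ * U - 3 * (b - δ) * ω ≤ ∑ z, w z * ((4 * δ - 3 * d z) * p v1 z ^ 2) := by
      have e : δ * U - 3 * (b - δ) * ω = ∑ z, w z * (δ * p v1 z ^ 2 -
          3 * (b - δ) * (if S v1 z ∧ ¬ Fu z then 1 else 0)) := by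
        rw [hU, hω, Finset.mul_sum, Finset.mul_sum, ← Finset.sum_sub_distrib]
        apply Finset.sum_congr rfl
        intro z _; ring
      rw [e]
      apply wsum_le w hw
      intro z hz
      by_cases h2 : Fu z
      · have h1 : S v1 z := by rw [hFu] at h2; exact h2.1
        simp only [h1, h2, not_true, and_false, if_false]
        rw [hFu] at h2
        have := hm5 z ⟨hz, h2.1, h2.2.1, h2.2.2.1, h2.2.2.2.1⟩
        rw [← hδ] at this
        exact q_full δ (d z) (p v1 z) b this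
      · by_cases h1 : S v1 z
        · simp only [h1, h2, not_false_iff, and_true, if_true]
          have := hm2 z ⟨hz, h1⟩
          rw [← hb] at this
          exact q_part δ (d z) (p v1 z) b this hδb (hp0 v1 z) (hp1 v1 z)
        · simp only [h1, false_and, if_false]
          rw [hpS v1 z h1]; simp
    have h2 := q_rhs δ a c D (hδb.trans hab) hc
    linarith
  have hδhalf : δ < 1 / 2 := by
    have : 5 * δ ≤ a + b + d v3 + d v4 + δ := by linarith
    nlinarith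
  have haf : a ≤ 1 - f := by rw [hfs]; linarith
  refine A7.final_infeasible f ω (1 / 2 - δ) (a - δ) (b - δ) hf0 hω0 hfω (by linarith)
    (by rw [hδ]; linarith) (by linarith) (by linarith) (by linarith) (by linarith)
    (by linarith) (by linarith) ?_
  have h1f : 0 ≤ 1 - f := by linarith
  have hk : 0 ≤ 1 / 4 - (1 / 2 - δ) / 2 := by linarith
  have e2 : (δ * U - 3 * (b - δ) * ω) / 2 ≤ 1 / 4 - 3 * (1 / 2 - δ) + (a - δ) / 16 := by
    linarith
  exact q_fin δ a b f ω U h1f hk hCS e2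

/-- the main density inequality -/
theorem world_ineq {I : Type*} [Fintype I] (S : I → I → Prop) (c : ℝ) (w : I → ℝ)
    (p : I → I → ℝ) (hsym : ∀ i j, S i j → S j i) (hc : c < 1 / 16)
    (h : Feas S c w p) : Dens w p ≤ 1 / 2 := by
  have h' : Feas S (max c (1 / 32)) w p := by
    obtain ⟨h1, h2, h3, h4, h5, h6⟩ := h
    exact ⟨h1, h2, h3, h4, h5, fun a b hab => (h6 a b hab).trans (le_max_left _ _)⟩
  obtain ⟨w', p', hf', hm'⟩ := A1.exists_extremal S (max c (1 / 32)) w p h'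
  exact (hm' w p h').trans (no_big S hsym (max c (1 / 32)) (by positivity)
    (max_lt hc (by norm_num)) w' p' hf' hm')

end K22T.A6
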