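import Pool.Agent.K22T.Defs
set_option autoImplicit false
open Finset BigOperators

namespace K22T.B0




theorem sw_sum2 {I : Type*} [Fintype I] (q : I → I → ℝ) (hq : ∀ i j, q i j = q j i) (f : I → ℝ) :
    ∑ i, ∑ j, q i j * (f i + f j) = 2 * ∑ i, ∑ j, q i j * f i := by
  have h1 : ∑ i, ∑ j, q i j * f j = ∑ i, ∑ j, q i j * f i := by
    rw [Finset.sum_comm]
    exact Finset.sum_congr rfl fun i _ => Finset.sum_congr rfl fun j _ => by rw [hq]
  have h2 : ∑ i, ∑ j, q i j * (f i + f j) = ∑ i, ∑ j, q i j * f i + ∑ i, ∑ j, q i j * f j := by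
    rw [← Finset.sum_add_distrib]
    refine Finset.sum_congr rfl fun i _ => ?_
    rw [← Finset.sum_add_distrib]
    exact Finset.sum_congr rfl fun j _ => by ring
  rw [h2, h1]; ring

theorem sw_sum3 {I : Type*} [Fintype I] (g : I → I → I → ℝ) (h1 : ∀ i j m, g i j m = g j i m)
    (h2 : ∀ i j m, g i j m = g i m j) (d : I → ℝ) :
    ∑ i, ∑ j, ∑ m, g i j m * (d i + d j + d m) = 3 * ∑ i, ∑ j, ∑ m, g i j m * d i := by
  have e1 : ∑ i, ∑ j, ∑ m, g i j m * d j = ∑ i, ∑ j, ∑ m, g i j m * d i := by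
    rw [Finset.sum_comm]
    exact Finset.sum_congr rfl fun i _ => Finset.sum_congr rfl fun j _ =>
      Finset.sum_congr rfl fun m _ => by rw [h1]
  have e2 : ∑ i, ∑ j, ∑ m, g i j m * d m = ∑ i, ∑ j, ∑ m, g i j m * d j := by
    refine Finset.sum_congr rfl fun i _ => ?_
    rw [Finset.sum_comm]
    exact Finset.sum_congr rfl fun j _ =>
      Finset.sum_congr rfl fun m _ => by rw [h2]
  have e3 : ∑ i, ∑ j, ∑ m, g i j m * (d i + d j + d m) =
      ∑ i, ∑ j, ∑ m, g i j m * d i + ∑ i, ∑ j, ∑ m, g i j m * d j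
        + ∑ i, ∑ j, ∑ m, g i j m * d m := by
    simp only [← Finset.sum_add_distrib]
    exact Finset.sum_congr rfl fun i _ => Finset.sum_congr rfl fun j _ =>
      Finset.sum_congr rfl fun m _ => by ring
  rw [e3, e2, e1]; ring

theorem sw_sum3' {I : Type*} [Fintype I] (g : I → I → I → ℝ) (h1 : ∀ i j m, g i j m = g j i m)
    (h2 : ∀ i j m, g i j m = g i m j) (t : I → I → ℝ) :
    ∑ i, ∑ j, ∑ m, g i j m * (1 + t i j + t j m + t i m) =
      ∑ i, ∑ j, ∑ m, g i j m + 3 * ∑ i, ∑ j, ∑ m, g i j m * t i j := by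
  have e2 : ∑ i, ∑ j, ∑ m, g i j m * t i m = ∑ i, ∑ j, ∑ m, g i j m * t i j := by
    refine Finset.sum_congr rfl fun i _ => ?_
    rw [Finset.sum_comm]
    exact Finset.sum_congr rfl fun j _ =>
      Finset.sum_congr rfl fun m _ => by rw [h2]
  have e1 : ∑ i, ∑ j, ∑ m, g i j m * t j m = ∑ i, ∑ j, ∑ m, g i j m * t i m := by
    rw [Finset.sum_comm]
    exact Finset.sum_congr rfl fun i _ => Finset.sum_congr rfl fun j _ =>
      Finset.sum_congr rfl fun m _ => by rw [h1]
  have e3 : ∑ i, ∑ j, ∑ m, g i j m * (1 + t i j + t j m + t i m) =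
      ∑ i, ∑ j, ∑ m, g i j m + ∑ i, ∑ j, ∑ m, g i j m * t i j + ∑ i, ∑ j, ∑ m, g i j m * t j m
        + ∑ i, ∑ j, ∑ m, g i j m * t i m := by
    simp only [← Finset.sum_add_distrib]
    exact Finset.sum_congr rfl fun i _ => Finset.sum_congr rfl fun j _ =>
      Finset.sum_congr rfl fun m _ => by ring
  rw [e3, e1, e2]; ring

/-- the triangle count is controlled -/
theorem sw_tri {I : Type*} [Fintype I] (S : I → I → Prop) (c : ℝ) (hc0 : 0 < c)
    (w : I → ℝ) (p : I → I → ℝ) (h : Feas S c w p) :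
    (1 / 3 - 3 * c) * (∑ i, ∑ j, ∑ m, w i * w j * w m * (p i j * p j m * p i m)) ≤
      c * (Dens w p * (1 - 2 * Dens w p)) +
        8 * ∑ i, ∑ j, w i * w j * (p i j - p i j ^ 2) := by
  obtain ⟨hw, hw1, hp, hsym, hS, hcS⟩ := h
  have hp0 := fun i j => (hp i j).1
  have hp1 := fun i j => (hp i j).2
  set d : I → ℝ := fun i => ∑ j, w j * p i j with hd
  set t : I → I → ℝ := fun i j => ∑ m, w m * (p i m * p j m) with ht
  set r : I → ℝ := fun i => ∑ j, w j * (p i j - p i j ^ 2) with hr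
  set q : I → I → ℝ := fun i j => w i * w j * p i j with hq
  set g : I → I → I → ℝ := fun i j m => w i * w j * w m * (p i j * p j m * p i m) with hg
  have hq0 : ∀ i j, 0 ≤ q i j := fun i j => mul_nonneg (mul_nonneg (hw i) (hw j)) (hp0 i j)
  have hg0 : ∀ i j m, 0 ≤ g i j m := fun i j m =>
    mul_nonneg (mul_nonneg (mul_nonneg (hw i) (hw j)) (hw m))
      (mul_nonneg (mul_nonneg (hp0 i j) (hp0 j m)) (hp0 i m))
  have hqs : ∀ i j, q i j = q j i := fun i j => by
    show w i * w j * p i j = w j * w i * p j i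
    rw [hsym i j]; ring
  have hg1 : ∀ i j m, g i j m = g j i m := fun i j m => by
    show w i * w j * w m * (p i j * p j m * p i m) = w j * w i * w m * (p j i * p i m * p j m)
    rw [hsym i j]; ring
  have hg2 : ∀ i j m, g i j m = g i m j := fun i j m => by
    show w i * w j * w m * (p i j * p j m * p i m) = w i * w m * w j * (p i m * p m j * p i j)
    rw [hsym m j]; ring
  have ht0 : ∀ i j, 0 ≤ t i j := fun i j => Finset.sum_nonneg fun m _ =>
    mul_nonneg (hw m) (mul_nonneg (hp0 i m) (hp0 j m))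
  have hr0 : ∀ i, 0 ≤ r i := fun i => Finset.sum_nonneg fun m _ =>
    mul_nonneg (hw m) (by nlinarith [hp0 i m, hp1 i m])
  have hd0 : ∀ i, 0 ≤ d i := fun i => Finset.sum_nonneg fun m _ => mul_nonneg (hw m) (hp0 i m)
  have hd1 : ∀ i, d i ≤ 1 := fun i => by
    rw [← hw1]
    exact Finset.sum_le_sum fun m _ => by nlinarith [hw m, hp1 i m]
  have ht1 : ∀ i j, t i j ≤ 1 := fun i j => by
    rw [← hw1]
    refine Finset.sum_le_sum fun m _ => ?_
    have : p i m * p j m ≤ 1 := mul_le_one₀ (hp1 i m) (hp0 j m) (hp1 j m)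
    nlinarith [hw m]
  -- (0)
  have h0 : ∀ i j, S i j → t i j ≤ c + r i + r j := by
    intro i j hij
    refine le_trans ?_ (add_le_add_left (add_le_add_left (hcS i j hij) _) _)
    show ∑ m, w m * (p i m * p j m) ≤ ∑ m, w m * (p i m ^ 2 * p j m ^ 2) +
      ∑ m, w m * (p i m - p i m ^ 2) + ∑ m, w m * (p j m - p j m ^ 2)
    rw [← Finset.sum_add_distrib, ← Finset.sum_add_distrib]
    refine Finset.sum_le_sum fun m _ => ?_
    have hx0 := hp0 i m
    have hx1 := hp1 i m
    have hy0 := hp0 j m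
    have hy1 := hp1 j m
    generalize p i m = x at *
    generalize p j m = y at *
    have key : x * y ≤ x ^ 2 * y ^ 2 + (x - x ^ 2) + (y - y ^ 2) := by
      have a1 : 0 ≤ (1 - x) * (1 - y) := mul_nonneg (by linarith) (by linarith)
      have a2 : 0 ≤ x * (1 - x) * (1 - y) := mul_nonneg (mul_nonneg hx0 (by linarith)) (by linarith)
      have a3 : 0 ≤ y * (1 - y) * (1 - x) := mul_nonneg (mul_nonneg hy0 (by linarith)) (by linarith)
      have a4 : 0 ≤ x * y * ((1 - x) * (1 - y)) := mul_nonneg (mul_nonneg hx0 hy0) a1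
      nlinarith
    have hwm := hw m
    nlinarith [mul_le_mul_of_nonneg_left key hwm]
  -- (1)
  have h1 : ∀ i j m, d i + d j + d m ≤ 1 + t i j + t j m + t i m := by
    intro i j m
    show ∑ k, w k * p i k + ∑ k, w k * p j k + ∑ k, w k * p m k ≤
      1 + ∑ k, w k * (p i k * p j k) + ∑ k, w k * (p j k * p m k) + ∑ k, w k * (p i k * p m k)
    rw [← hw1]
    simp only [← Finset.sum_add_distrib]
    refine Finset.sum_le_sum fun k _ => ?_
    have hx0 := hp0 i k
    have hx1 := hp1 i k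
    have hy0 := hp0 j k
    have hy1 := hp1 j k
    have hz0 := hp0 m k
    have hz1 := hp1 m k
    generalize p i k = x at *
    generalize p j k = y at *
    generalize p m k = z at *
    have key : x + y + z ≤ 1 + x * y + y * z + x * z := by
      have a1 : 0 ≤ (1 - x) * (1 - y) * (1 - z) :=
        mul_nonneg (mul_nonneg (by linarith) (by linarith)) (by linarith)
      have a2 : 0 ≤ x * y * z := mul_nonneg (mul_nonneg hx0 hy0) hz0
      nlinarith
    nlinarith [mul_le_mul_of_nonneg_left key (hw k)]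
  -- (2)
  have h2 : ∀ i j, d i + d j ≤ 1 + t i j := by
    intro i j
    show ∑ k, w k * p i k + ∑ k, w k * p j k ≤ 1 + ∑ k, w k * (p i k * p j k)
    rw [← hw1]
    simp only [← Finset.sum_add_distrib]
    refine Finset.sum_le_sum fun k _ => ?_
    have hx1 := hp1 i k
    have hy1 := hp1 j k
    have key : 0 ≤ w k * ((1 - p i k) * (1 - p j k)) :=
      mul_nonneg (hw k) (mul_nonneg (by linarith) (by linarith))
    nlinarith
  -- termwise inequalities
  have hA : ∀ i j, c * (q i j * (d i + d j)) - (q i j * t i j) * (d i + d j) ≤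
      c * q i j + 2 * (q i j * (r i + r j)) - q i j * t i j + c * (q i j * t i j) := by
    intro i j
    by_cases hij : S i j
    · have b1 := h0 i j hij
      have b2 := h2 i j
      have b3 := ht1 i j
      have b4 := ht0 i j
      have b5 := hr0 i
      have b6 := hr0 j
      have b7 := hd0 i
      have b8 := hd0 j
      have b9 := hq0 i j
      have key : c * (d i + d j) - t i j * (d i + d j) ≤
          c + 2 * (r i + r j) - t i j + c * t i j := by
        have u1 : 0 ≤ (c + r i + r j - t i j) * (1 + t i j - (d i + d j)) :=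
          mul_nonneg (by linarith) (by linarith)
        have u2 : 0 ≤ (r i + r j) * (d i + d j) := mul_nonneg (by linarith) (by linarith)
        have u3 : 0 ≤ (r i + r j) * (1 - t i j) := mul_nonneg (by linarith) (by linarith)
        nlinarith [sq_nonneg (t i j)]
      nlinarith [mul_le_mul_of_nonneg_left key b9]
    · have : q i j = 0 := by
        show w i * w j * p i j = 0
        rw [hS i j hij, mul_zero]
      rw [this]; simp
  have hB : ∀ i j, q i j * t i j ^ 2 ≤ c * (q i j * t i j) + q i j * (r i + r j) := by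
    intro i j
    by_cases hij : S i j
    · have b1 := h0 i j hij
      have b3 := ht1 i j
      have b4 := ht0 i j
      have b5 := hr0 i
      have b6 := hr0 j
      have b9 := hq0 i j
      have key : t i j ^ 2 ≤ c * t i j + (r i + r j) := by
        have u1 : 0 ≤ (c + r i + r j - t i j) * t i j := mul_nonneg (by linarith) b4
        have u3 : 0 ≤ (r i + r j) * (1 - t i j) := mul_nonneg (by linarith) (by linarith)
        nlinarith
      nlinarith [mul_le_mul_of_nonneg_left key b9]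
    · have : q i j = 0 := by
        show w i * w j * p i j = 0
        rw [hS i j hij, mul_zero]
      rw [this]; simp
  -- sums
  set D := Dens w p with hD
  set T := ∑ i, ∑ j, ∑ m, g i j m with hT
  set E := ∑ i, ∑ j, w i * w j * (p i j - p i j ^ 2) with hE
  have hDq : ∑ i, ∑ j, q i j = D := rfl
  have hDd : ∑ i, w i * d i = D := by
    rw [hD]; unfold Dens
    refine Finset.sum_congr rfl fun i _ => ?_
    rw [hd, Finset.mul_sum]
    exact Finset.sum_congr rfl fun j _ => by ring
  have hEr : ∑ i, w i * r i = E := by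
    rw [hE]
    refine Finset.sum_congr rfl fun i _ => ?_
    rw [hr, Finset.mul_sum]
    exact Finset.sum_congr rfl fun j _ => by ring
  have hrow : ∀ (f : I → ℝ), ∑ i, ∑ j, q i j * f i = ∑ i, w i * d i * f i := by
    intro f
    refine Finset.sum_congr rfl fun i _ => ?_
    rw [hd, Finset.mul_sum, Finset.sum_mul]
    exact Finset.sum_congr rfl fun j _ => by rw [hq]; ring
  have hqt : ∀ i j, q i j * t i j = ∑ m, g i j m := by
    intro i j
    rw [ht, Finset.mul_sum]
    exact Finset.sum_congr rfl fun m _ => by rw [hq, hg]; ring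
  have hTq : ∑ i, ∑ j, q i j * t i j = T := by
    rw [hT]
    exact Finset.sum_congr rfl fun i _ => Finset.sum_congr rfl fun j _ => hqt i j
  set X := ∑ i, ∑ j, (q i j * t i j) * d i with hX
  set Y := ∑ i, ∑ j, q i j * t i j ^ 2 with hY
  have hts : ∀ i j, t i j = t j i := fun i j => by
    show ∑ m, w m * (p i m * p j m) = ∑ m, w m * (p j m * p i m)
    exact Finset.sum_congr rfl fun m _ => by ring
  have s2 : ∑ i, ∑ j, q i j * (d i + d j) = 2 * ∑ i, w i * d i ^ 2 := by
    rw [sw_sum2 q hqs d, hrow d]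
    congr 1
    exact Finset.sum_congr rfl fun i _ => by ring
  have s3 : ∑ i, ∑ j, (q i j * t i j) * (d i + d j) = 2 * X :=
    sw_sum2 (fun i j => q i j * t i j) (fun i j => by
      show q i j * t i j = q j i * t j i
      rw [hqs, hts]) d
  have s5 : ∑ i, ∑ j, q i j * (r i + r j) ≤ 2 * E := by
    rw [sw_sum2 q hqs r, hrow r, ← hEr]
    refine mul_le_mul_of_nonneg_left (Finset.sum_le_sum fun i _ => ?_) (by norm_num)
    have := mul_nonneg (hw i) (hr0 i)
    nlinarith [hd1 i]
  have s6 : 3 * X ≤ T + 3 * Y := by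
    have e1 : X = ∑ i, ∑ j, ∑ m, g i j m * d i := by
      rw [hX]
      refine Finset.sum_congr rfl fun i _ => Finset.sum_congr rfl fun j _ => ?_
      rw [hqt, Finset.sum_mul]
    have e2 : Y = ∑ i, ∑ j, ∑ m, g i j m * t i j := by
      rw [hY]
      refine Finset.sum_congr rfl fun i _ => Finset.sum_congr rfl fun j _ => ?_
      rw [pow_two, ← mul_assoc, hqt, Finset.sum_mul]
    rw [e1, e2, hT, ← sw_sum3 g hg1 hg2 d, ← sw_sum3' g hg1 hg2 t]
    exact Finset.sum_le_sum fun i _ => Finset.sum_le_sum fun j _ => Finset.sum_le_sum fun m _ =>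
      mul_le_mul_of_nonneg_left (h1 i j m) (hg0 i j m)
  have s7 : D ^ 2 ≤ ∑ i, w i * d i ^ 2 := by
    have e1 : 0 ≤ ∑ i, w i * (d i - D) ^ 2 := Finset.sum_nonneg fun i _ =>
      mul_nonneg (hw i) (sq_nonneg _)
    have e2 : ∑ i, w i * (d i - D) ^ 2 = ∑ i, w i * d i ^ 2 - 2 * D * ∑ i, w i * d i
        + D ^ 2 * ∑ i, w i := by
      rw [Finset.mul_sum, Finset.mul_sum, ← Finset.sum_sub_distrib, ← Finset.sum_add_distrib]
      exact Finset.sum_congr rfl fun i _ => by ring
    rw [e2, hDd, hw1] at e1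
    nlinarith
  have s8 : Y ≤ c * T + 2 * E := by
    refine le_trans ?_ (add_le_add_right s5 (c * T))
    rw [← hTq, hY, Finset.mul_sum, ← Finset.sum_add_distrib]
    refine Finset.sum_le_sum fun i _ => ?_
    rw [Finset.mul_sum, ← Finset.sum_add_distrib]
    exact Finset.sum_le_sum fun j _ => hB i j
  have s9 : c * (2 * ∑ i, w i * d i ^ 2) - 2 * X ≤ c * D + 2 * (2 * E) - T + c * T := by
    have e1 : c * (∑ i, ∑ j, q i j * (d i + d j)) - ∑ i, ∑ j, (q i j * t i j) * (d i + d j) ≤
        c * (∑ i, ∑ j, q i j) + 2 * (∑ i, ∑ j, q i j * (r i + r j)) - ∑ i, ∑ j, q i j * t i j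
          + c * ∑ i, ∑ j, q i j * t i j := by
      simp only [Finset.mul_sum, ← Finset.sum_add_distrib, ← Finset.sum_sub_distrib]
      exact Finset.sum_le_sum fun i _ => Finset.sum_le_sum fun j _ => hA i j
    rw [s2, s3, hDq, hTq] at e1
    linarith
  have s10 := mul_le_mul_of_nonneg_left s7 hc0.le
  nlinarith

/-- stability: density nearly 1/2 forces densities close to 0/1 and few triangles.
`WI` is the main inequality (proved elsewhere). -/
theorem stab_world
    (WI : ∀ (I : Type) [Fintype I] (S : I → I → Prop) (c : ℝ) (w : I → ℝ) (p : I → I → ℝ),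
      (∀ i j, S i j → S j i) → (∀ i, ¬ S i i) → c < 1 / 16 → Feas S c w p → Dens w p ≤ 1 / 2)
    (c : ℝ) (hc0 : 0 < c) (hc : c < 1 / 16) (ε : ℝ) (hε : 0 < ε) :
    ∃ γ > 0, ∀ (I : Type) [Fintype I] (S : I → I → Prop) (w : I → ℝ) (p : I → I → ℝ),
      (∀ i j, S i j → S j i) → (∀ i, ¬ S i i) → Feas S c w p → 1 / 2 - γ ≤ Dens w p →
      ∑ i, ∑ j, w i * w j * (p i j - p i j ^ 2) ≤ ε ∧
      ∑ i, ∑ j, ∑ m, w i * w j * w m * (p i j * p j m * p i m) ≤ ε := by
  set η : ℝ := (1 - 16 * c) / 16 with hη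
  have hη0 : 0 < η := by rw [hη]; linarith
  have hη1 : η ≤ 1 := by rw [hη]; linarith
  have hc1 : (1 + η) ^ 4 * c < 1 / 16 := by
    have h1 : (1 + η) ^ 4 ≤ 1 + 15 * η := by
      have e1 : 0 ≤ η * (1 - η) := mul_nonneg hη0.le (by linarith)
      have e2 : 0 ≤ η * (1 - η) * (1 + η) := mul_nonneg e1 (by linarith)
      have e3 : 0 ≤ η * (1 - η) * (1 + η + η ^ 2) := mul_nonneg e1 (by positivity)
      nlinarith
    have h2 : (1 + η) ^ 4 * c ≤ (1 + 15 * η) * c := mul_le_mul_of_nonneg_right h1 hc0.le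
    have h3 : (1 + 15 * η) * c < 1 / 16 := by
      rw [hη]
      nlinarith
    exact h2.trans_lt h3
  refine ⟨ε * η / 72, by positivity, ?_⟩
  intro I _ S w p hSs hSi h hD
  have hF := h
  obtain ⟨hw, hw1, hp, hsym, hS, hcS⟩ := h
  have hp0 := fun i j => (hp i j).1
  have hp1 := fun i j => (hp i j).2
  have hDle : Dens w p ≤ 1 / 2 := WI I S c w p hSs hSi hc hF
  have hD1 : Dens w (fun i j => min 1 ((1 + η) * p i j)) ≤ 1 / 2 := by
    refine WI I S ((1 + η) ^ 4 * c) w _ hSs hSi hc1 ⟨hw, hw1, ?_, ?_, ?_, ?_⟩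
    · intro i j
      have := hp0 i j
      exact ⟨le_min zero_le_one (by positivity), min_le_left _ _⟩
    · intro i j
      show min 1 ((1 + η) * p i j) = min 1 ((1 + η) * p j i)
      rw [hsym i j]
    · intro i j hij
      show min 1 ((1 + η) * p i j) = 0
      rw [hS i j hij, mul_zero]; exact min_eq_right zero_le_one
    · intro a b hab
      have h1 := mul_le_mul_of_nonneg_left (hcS a b hab) (show (0 : ℝ) ≤ (1 + η) ^ 4 by positivity)
      refine le_trans ?_ h1
      rw [Finset.mul_sum]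
      refine Finset.sum_le_sum fun m _ => ?_
      have x0 := hp0 a m
      have y0 := hp0 b m
      have u1 : min 1 ((1 + η) * p a m) ^ 2 ≤ ((1 + η) * p a m) ^ 2 :=
        pow_le_pow_left₀ (le_min zero_le_one (by positivity)) (min_le_right _ _) 2
      have u2 : min 1 ((1 + η) * p b m) ^ 2 ≤ ((1 + η) * p b m) ^ 2 :=
        pow_le_pow_left₀ (le_min zero_le_one (by positivity)) (min_le_right _ _) 2
      have u3 : min 1 ((1 + η) * p a m) ^ 2 * min 1 ((1 + η) * p b m) ^ 2 ≤
          ((1 + η) * p a m) ^ 2 * ((1 + η) * p b m) ^ 2 :=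
        mul_le_mul u1 u2 (sq_nonneg _) (sq_nonneg _)
      calc w m * (min 1 ((1 + η) * p a m) ^ 2 * min 1 ((1 + η) * p b m) ^ 2)
          ≤ w m * (((1 + η) * p a m) ^ 2 * ((1 + η) * p b m) ^ 2) :=
            mul_le_mul_of_nonneg_left u3 (hw m)
        _ = (1 + η) ^ 4 * (w m * (p a m ^ 2 * p b m ^ 2)) := by ring
  have hE : η * ∑ i, ∑ j, w i * w j * (p i j - p i j ^ 2) ≤
      Dens w (fun i j => min 1 ((1 + η) * p i j)) - Dens w p := by
    unfold Dens
    simp only [Finset.mul_sum, ← Finset.sum_sub_distrib]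
    refine Finset.sum_le_sum fun i _ => Finset.sum_le_sum fun j _ => ?_
    have hww : 0 ≤ w i * w j := mul_nonneg (hw i) (hw j)
    have x0 := hp0 i j
    have x1 := hp1 i j
    have key : η * (p i j - p i j ^ 2) ≤ min 1 ((1 + η) * p i j) - p i j := by
      rw [le_sub_iff_add_le]
      apply le_min
      · have : 0 ≤ (1 - η * p i j) * (1 - p i j) := mul_nonneg (by nlinarith) (by linarith)
        nlinarith
      · nlinarith [mul_nonneg hη0.le (sq_nonneg (p i j))]
    nlinarith [mul_le_mul_of_nonneg_left key hww]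
  have hE2 : ∑ i, ∑ j, w i * w j * (p i j - p i j ^ 2) ≤ ε / 72 := by
    have h1 : η * ∑ i, ∑ j, w i * w j * (p i j - p i j ^ 2) ≤ η * (ε / 72) := by
      have : η * (ε / 72) = ε * η / 72 := by ring
      rw [this]; linarith
    exact le_of_mul_le_mul_left h1 hη0
  refine ⟨by linarith, ?_⟩
  have htri := sw_tri S c hc0 w p hF
  set T := ∑ i, ∑ j, ∑ m, w i * w j * w m * (p i j * p j m * p i m) with hT
  have hT0 : 0 ≤ T := Finset.sum_nonneg fun i _ => Finset.sum_nonneg fun j _ =>
    Finset.sum_nonneg fun m _ => mul_nonneg (mul_nonneg (mul_nonneg (hw i) (hw j)) (hw m))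
      (mul_nonneg (mul_nonneg (hp0 i j) (hp0 j m)) (hp0 i m))
  have h3 : Dens w p * (1 - 2 * Dens w p) ≤ 1 * (2 * (ε * η / 72)) := by
    apply mul_le_mul _ _ _ _
    · linarith
    · linarith
    · linarith
    · norm_num
  have h4 : c * (Dens w p * (1 - 2 * Dens w p)) ≤ 1 / 16 * (1 * (2 * (ε * η / 72))) := by
    refine mul_le_mul hc.le h3 ?_ (by norm_num)
    have hDn : 0 ≤ Dens w p := Finset.sum_nonneg fun i _ => Finset.sum_nonneg fun j _ =>
      mul_nonneg (mul_nonneg (hw i) (hw j)) (hp0 i j)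
    exact mul_nonneg hDn (by linarith)
  have h5 : 1 / 8 * T ≤ (1 / 3 - 3 * c) * T := mul_le_mul_of_nonneg_right (by linarith) hT0
  have h6 : ε * η ≤ ε := by nlinarith
  linarith

end K22T.B0
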