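import Pool.Agent.K22T.E7
set_option autoImplicit false

namespace K22T.Fin
open SimpleGraph

/-- `K(2,2,t)` -/
def K22 (t : ℕ) : SimpleGraph ((i : Fin 3) × Fin (![2, 2, t] i)) :=
  completeMultipartiteGraph fun i : Fin 3 => Fin (![2, 2, t] i)

/-- the placement of `K(2,2,t)` -/
def place {V : Type} {t : ℕ} (a a' b b' : V) (e : Fin t → V) :
    ((i : Fin 3) × Fin (![2, 2, t] i)) → V
  | ⟨0, k⟩ => (![a, a'] : Fin 2 → V) k
  | ⟨1, k⟩ => (![b, b'] : Fin 2 → V) k
  | ⟨2, k⟩ => e k

theorem contains_of_book {V : Type} [Fintype V] (G : SimpleGraph V) (a a' b b' : V) (haa : a ≠ a')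
    (hbb : b ≠ b') (h1 : G.Adj a b) (h2 : G.Adj a b') (h3 : G.Adj a' b) (h4 : G.Adj a' b') :
    K22 (({z | G.Adj a z ∧ G.Adj a' z ∧ G.Adj b z ∧ G.Adj b' z} : Set V).ncard) ⊑ G := by
  classical
  set Z : Set V := {z | G.Adj a z ∧ G.Adj a' z ∧ G.Adj b z ∧ G.Adj b' z} with hZ
  have hfin : Z.Finite := Set.toFinite Z
  have hcard : Nat.card Z = Z.ncard := rfl
  let e0 : Fin Z.ncard ≃ Z := (Finite.equivFinOfCardEq hcard).symm
  let e : Fin Z.ncard → V := fun k => (e0 k : V)
  have he : ∀ k, G.Adj a (e k) ∧ G.Adj a' (e k) ∧ G.Adj b (e k) ∧ G.Adj b' (e k) :=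
    fun k => (e0 k).2
  have einj : Function.Injective e := fun x y h => e0.injective (Subtype.ext h)
  have hadj : ∀ x y : ((i : Fin 3) × Fin (![2, 2, Z.ncard] i)), x.1 ≠ y.1 →
      G.Adj (place a a' b b' e x) (place a a' b b' e y) := by
    rintro ⟨i, k⟩ ⟨j, l⟩ hij
    fin_cases i <;> fin_cases j
    all_goals first | exact absurd rfl hij | skip
    · change G.Adj ((![a, a'] : Fin 2 → V) k) ((![b, b'] : Fin 2 → V) l)
      change Fin 2 at k l
      fin_cases k <;> fin_cases l <;> simp [h1, h2, h3, h4]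
    · change G.Adj ((![a, a'] : Fin 2 → V) k) (e l)
      change Fin 2 at k
      fin_cases k <;> simp [he l]
    · change G.Adj ((![b, b'] : Fin 2 → V) k) ((![a, a'] : Fin 2 → V) l)
      change Fin 2 at k l
      fin_cases k <;> fin_cases l <;> simp [h1.symm, h2.symm, h3.symm, h4.symm]
    · change G.Adj ((![b, b'] : Fin 2 → V) k) (e l)
      change Fin 2 at k
      fin_cases k <;> simp [he l]
    · change G.Adj (e k) ((![a, a'] : Fin 2 → V) l)
      change Fin 2 at l
      fin_cases l <;> simp [(he k).1.symm, (he k).2.1.symm]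
    · change G.Adj (e k) ((![b, b'] : Fin 2 → V) l)
      change Fin 2 at l
      fin_cases l <;> simp [(he k).2.2.1.symm, (he k).2.2.2.symm]
  refine ⟨⟨⟨place a a' b b' e, ?_⟩, ?_⟩⟩
  · intro x y hxy
    exact hadj x y hxy
  · intro x y hxy
    by_cases h : x.1 = y.1
    · obtain ⟨i, k⟩ := x
      obtain ⟨j, l⟩ := y
      simp only at h
      subst h
      congr 1
      fin_cases i
      · change (![a, a'] : Fin 2 → V) k = (![a, a'] : Fin 2 → V) l at hxy
        change Fin 2 at k l
        fin_cases k <;> fin_cases l <;> simp_all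
      · change (![b, b'] : Fin 2 → V) k = (![b, b'] : Fin 2 → V) l at hxy
        change Fin 2 at k l
        fin_cases k <;> fin_cases l <;> simp_all
      · exact einj hxy
    · exfalso
      have := hadj x y h
      have hxy' : place a a' b b' e x = place a a' b b' e y := hxy
      rw [hxy'] at this
      exact G.irrefl this

theorem exists_K22 {V : Type} [Fintype V] (G : SimpleGraph V) (c : ℝ) (h : ¬ NoBook G c) :
    ∃ t : ℕ, c * Fintype.card V ≤ t ∧ K22 t ⊑ G := by
  unfold NoBook at h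
  push Not at h
  obtain ⟨a, a', b, b', haa, hbb, h1, h2, h3, h4, h5⟩ := h
  exact ⟨_, h5, contains_of_book G a a' b b' haa hbb h1 h2 h3 h4⟩

/-- `C4Free` in terms of containment of the cycle graph -/
theorem c4free_iff {V : Type*} (G : SimpleGraph V) (A : Set V) :
    C4Free G A ↔ ¬ (cycleGraph 4 ⊑ G.induce A) := by
  constructor
  · rintro h ⟨f⟩
    have i : ∀ x y : Fin 4, (cycleGraph 4).Adj x y → G.Adj (f x : V) (f y : V) := by
      intro x y hxy
      exact f.toHom.map_adj hxy
    have inj : ∀ x y : Fin 4, x ≠ y → (f x : V) ≠ (f y : V) := by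
      intro x y hxy he
      exact hxy (f.injective (Subtype.ext he))
    refine h (f 0) (f 0).2 (f 1) (f 1).2 (f 2) (f 2).2 (f 3) (f 3).2 (inj 0 2 (by decide))
      (inj 1 3 (by decide)) (i 0 1 ?_) (i 1 2 ?_) (i 2 3 ?_) (i 3 0 ?_) <;>
    · rw [cycleGraph_adj]; decide
  · intro h a ha b hb a' ha' b' hb' haa hbb h1 h2 h3 h4
    apply h
    have hab : a ≠ b := G.ne_of_adj h1
    have hba' : b ≠ a' := G.ne_of_adj h2
    have hab' : a' ≠ b' := G.ne_of_adj h3
    have hb'a : b' ≠ a := G.ne_of_adj h4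
    let g : Fin 4 → A := ![⟨a, ha⟩, ⟨b, hb⟩, ⟨a', ha'⟩, ⟨b', hb'⟩]
    refine ⟨⟨⟨g, ?_⟩, ?_⟩⟩
    · intro x y hxy
      rw [cycleGraph_adj] at hxy
      change G.Adj (g x : V) (g y : V)
      fin_cases x <;> fin_cases y <;> first | (exfalso; revert hxy; decide) | (simp [g]; first | exact h1 | exact h1.symm | exact h2 | exact h2.symm | exact h3 | exact h3.symm | exact h4 | exact h4.symm)
    · intro x y hxy
      change g x = g y at hxy
      fin_cases x <;> fin_cases y <;> first | rfl | (exfalso; simp [g, Subtype.ext_iff] at hxy; first | exact hab hxy | exact hab hxy.symm | exact hba' hxy | exact hba' hxy.symm | exact hab' hxy | exact hab' hxy.symm | exact hb'a hxy | exact hb'a hxy.symm | exact haa hxy | exact haa hxy.symm | exact hbb hxy | exact hbb hxy.symm)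

end K22T.Fin
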