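import Mathlib
set_option autoImplicit false
open Finset BigOperators

/-!
Definitions for MP_9ec287_co (complete tripartite graphs `K(2,2,t)` one edge above `qbar n`).
-/

namespace K22T

/-! ### weighted densities (worlds) -/

/-- feasible weighted densities for a fixed support relation `S` -/
def Feas {I : Type*} [Fintype I] (S : I → I → Prop) (c : ℝ) (w : I → ℝ) (p : I → I → ℝ) : Prop :=
  (∀ i, 0 ≤ w i) ∧ (∑ i, w i = 1) ∧ (∀ i j, 0 ≤ p i j ∧ p i j ≤ 1) ∧ (∀ i j, p i j = p j i) ∧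
  (∀ i j, ¬ S i j → p i j = 0) ∧
  (∀ a b, S a b → ∑ m, w m * (p a m ^ 2 * p b m ^ 2) ≤ c)

/-- total density -/
noncomputable def Dens {I : Type*} [Fintype I] (w : I → ℝ) (p : I → I → ℝ) : ℝ :=
  ∑ i, ∑ j, w i * w j * p i j

/-! ### graphs -/

/-- every nondegenerate four-cycle `a b a' b'` has fewer than `c * |V|` common neighbours -/
def NoBook {V : Type*} [Fintype V] (G : SimpleGraph V) (c : ℝ) : Prop :=
  ∀ a a' b b' : V, a ≠ a' → b ≠ b' → G.Adj a b → G.Adj a b' → G.Adj a' b → G.Adj a' b' →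
    (({z | G.Adj a z ∧ G.Adj a' z ∧ G.Adj b z ∧ G.Adj b' z} : Set V).ncard : ℝ)
      < c * Fintype.card V

/-- number of (ordered) triangles -/
def tri {V : Type*} [Fintype V] [DecidableEq V] (G : SimpleGraph V) [DecidableRel G.Adj] : ℕ :=
  ∑ u, ∑ x ∈ G.neighborFinset u, (G.neighborFinset u ∩ G.neighborFinset x).card

/-- number of neighbours of `v` in `X` -/
def dg {V : Type*} [Fintype V] [DecidableEq V] (G : SimpleGraph V) [DecidableRel G.Adj]
    (X : Finset V) (v : V) : ℕ := (G.neighborFinset v ∩ X).card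

/-- `X` is one side of an almost complete, almost balanced maximum cut -/
def GoodCut {V : Type*} [Fintype V] [DecidableEq V] (G : SimpleGraph V) [DecidableRel G.Adj]
    (γ : ℝ) (X : Finset V) : Prop :=
  (∀ v ∈ X, dg G X v ≤ dg G Xᶜ v) ∧ (∀ v ∈ Xᶜ, dg G Xᶜ v ≤ dg G X v) ∧
  ((X.card : ℝ) ≤ (1 / 2 + γ) * Fintype.card V) ∧
  ((Xᶜ.card : ℝ) ≤ (1 / 2 + γ) * Fintype.card V) ∧
  (∑ v ∈ X, ((Xᶜ.card : ℝ) - dg G Xᶜ v) ≤ γ * (Fintype.card V : ℝ) ^ 2)

/-- no four-cycle inside the set `A` -/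
def C4Free {V : Type*} (G : SimpleGraph V) (A : Set V) : Prop :=
  ∀ a ∈ A, ∀ b ∈ A, ∀ a' ∈ A, ∀ b' ∈ A, a ≠ a' → b ≠ b' →
    G.Adj a b → G.Adj b a' → G.Adj a' b' → G.Adj b' a → False

/-- the family `Q(n)` -/
def InQ {V : Type*} (G : SimpleGraph V) : Prop :=
  ∃ A : Set V, (∀ a ∈ A, ∀ b ∈ Aᶜ, G.Adj a b) ∧ C4Free G A ∧ C4Free G Aᶜ

/-- `qbar n`: maximum number of edges of a graph in `Q(n)` -/
noncomputable def qbar (n : ℕ) : ℕ :=
  sSup {m : ℕ | ∃ G : SimpleGraph (Fin n), InQ G ∧ G.edgeSet.ncard = m}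

end K22T
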