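import Pool.Agent.K22T.Defs
set_option autoImplicit false
open Finset BigOperators

namespace K22T.E0





section gc
variable {V : Type*} [Fintype V] [DecidableEq V] (G : SimpleGraph V) [DecidableRel G.Adj]

/-- twice the number of edges inside `A` -/
def gcE (A : Finset V) : ℕ := ∑ x ∈ A, dg G A x

theorem gc_dg_eq (B : Finset V) (x : V) : dg G B x = ∑ y ∈ B, if G.Adj x y then 1 else 0 := by
  unfold dg
  rw [← Finset.card_filter]
  congr 1
  ext y
  simp only [Finset.mem_inter, SimpleGraph.mem_neighborFinset, Finset.mem_filter]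
  exact ⟨fun h => ⟨h.2, h.1⟩, fun h => ⟨h.2, h.1⟩⟩

theorem gc_swap (A B : Finset V) : ∑ x ∈ A, dg G B x = ∑ y ∈ B, dg G A y := by
  simp only [gc_dg_eq]
  rw [Finset.sum_comm]
  simp only [G.adj_comm]

theorem gc_insert (A : Finset V) (v : V) (hv : v ∉ A) :
    gcE G (insert v A) = gcE G A + 2 * dg G A v := by
  unfold gcE
  rw [Finset.sum_insert hv]
  have h1 : dg G (insert v A) v = dg G A v := by
    rw [gc_dg_eq, gc_dg_eq, Finset.sum_insert hv]
    simp
  have h2 : ∑ x ∈ A, dg G (insert v A) x = ∑ x ∈ A, dg G A x + dg G A v := by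
    have h3 : ∀ x, dg G (insert v A) x = dg G A x + if G.Adj v x then 1 else 0 := by
      intro x
      rw [gc_dg_eq, gc_dg_eq, Finset.sum_insert hv, add_comm]
      simp only [G.adj_comm]
    simp only [h3]
    rw [Finset.sum_add_distrib, ← gc_dg_eq]
  rw [h1, h2]; ring

theorem gc_deg (X : Finset V) (v : V) : G.degree v = dg G X v + dg G Xᶜ v := by
  unfold dg
  rw [← G.card_neighborFinset_eq_degree, ← Finset.card_union_of_disjoint]
  · congr 1
    rw [← Finset.inter_union_distrib_left, Finset.union_compl, Finset.inter_univ]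
  · exact Finset.disjoint_of_subset_left Finset.inter_subset_right
      (Finset.disjoint_of_subset_right Finset.inter_subset_right disjoint_compl_right)

theorem gc_total (X : Finset V) :
    ∑ v, G.degree v = gcE G X + gcE G Xᶜ + 2 * ∑ x ∈ X, dg G Xᶜ x := by
  have h1 : ∑ v, G.degree v = ∑ v ∈ X, G.degree v + ∑ v ∈ Xᶜ, G.degree v :=
    (Finset.sum_add_sum_compl X _).symm
  have h2 : ∑ v ∈ X, G.degree v = gcE G X + ∑ x ∈ X, dg G Xᶜ x := by
    unfold gcE
    rw [← Finset.sum_add_distrib]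
    exact Finset.sum_congr rfl fun v _ => gc_deg G X v
  have h3 : ∑ v ∈ Xᶜ, G.degree v = gcE G Xᶜ + ∑ x ∈ Xᶜ, dg G X x := by
    unfold gcE
    rw [← Finset.sum_add_distrib]
    exact Finset.sum_congr rfl fun v _ => by rw [gc_deg G X v, add_comm]
  have h4 := gc_swap G Xᶜ X
  rw [h1, h2, h3, h4]; ring

theorem gc_min (X : Finset V) (hX : ∀ Y : Finset V, gcE G X + gcE G Xᶜ ≤ gcE G Y + gcE G Yᶜ) :
    ∀ v ∈ X, dg G X v ≤ dg G Xᶜ v := by
  intro v hv
  have h1 := gc_insert G (X.erase v) v (Finset.notMem_erase v X)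
  rw [Finset.insert_erase hv] at h1
  have h2 := gc_insert G Xᶜ v (by simpa using hv)
  have h3 : (X.erase v)ᶜ = insert v Xᶜ := by rw [Finset.compl_erase]
  have h4 := hX (X.erase v)
  rw [h3, h2, h1] at h4
  have h5 : dg G X v = dg G (X.erase v) v := by
    conv_lhs => rw [← Finset.insert_erase hv]
    rw [gc_dg_eq, gc_dg_eq, Finset.sum_insert (Finset.notMem_erase v X)]
    simp
  rw [h5]
  omega

/-- twice the number of edges in the neighbourhood -/
def gcT (u : V) : ℕ := ∑ x ∈ G.neighborFinset u, (G.neighborFinset u ∩ G.neighborFinset x).card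

theorem gc_EN (u : V) : gcE G (G.neighborFinset u) = gcT G u := by
  unfold gcE gcT dg
  exact Finset.sum_congr rfl fun x _ => by rw [Finset.inter_comm]

theorem gc_EY (u v : V) : gcE G (G.neighborFinset u)ᶜ ≤ gcT G v +
    2 * (Fintype.card V * ((G.neighborFinset u)ᶜ \ G.neighborFinset v).card) := by
  set Y := (G.neighborFinset u)ᶜ with hY
  set Z := Y \ G.neighborFinset v with hZ
  have h1 : ∀ y, dg G Y y ≤ (G.neighborFinset v ∩ G.neighborFinset y).card + Z.card := by
    intro y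
    unfold dg
    have : G.neighborFinset y ∩ Y ⊆ (G.neighborFinset v ∩ G.neighborFinset y) ∪ Z := by
      intro z hz
      rw [Finset.mem_inter] at hz
      rw [Finset.mem_union, Finset.mem_inter, hZ, Finset.mem_sdiff]
      by_cases h : z ∈ G.neighborFinset v
      · exact Or.inl ⟨h, hz.1⟩
      · exact Or.inr ⟨hz.2, h⟩
    exact (Finset.card_le_card this).trans (Finset.card_union_le _ _)
  have h2 : gcE G Y = ∑ y ∈ Y ∩ G.neighborFinset v, dg G Y y + ∑ y ∈ Z, dg G Y y := by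
    unfold gcE
    rw [hZ]
    exact (Finset.sum_inter_add_sum_sdiff _ _ _).symm
  have h3 : ∑ y ∈ Y ∩ G.neighborFinset v, dg G Y y ≤
      ∑ y ∈ G.neighborFinset v, ((G.neighborFinset v ∩ G.neighborFinset y).card + Z.card) :=
    (Finset.sum_le_sum fun y _ => h1 y).trans
      (Finset.sum_le_sum_of_subset Finset.inter_subset_right)
  have h4 : ∑ y ∈ G.neighborFinset v, ((G.neighborFinset v ∩ G.neighborFinset y).card + Z.card) ≤
      gcT G v + Fintype.card V * Z.card := by
    rw [Finset.sum_add_distrib, Finset.sum_const, smul_eq_mul]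
    unfold gcT
    gcongr
    exact Finset.card_le_univ _
  have h5 : ∑ y ∈ Z, dg G Y y ≤ Z.card * Fintype.card V := by
    rw [← smul_eq_mul, ← Finset.sum_const]
    refine Finset.sum_le_sum fun y _ => ?_
    exact Finset.card_le_univ _
  rw [h2]
  nlinarith

end gc

theorem exists_goodCut (γ₁ : ℝ) (hγ₁ : 0 < γ₁) :
    ∃ γ > (0 : ℝ), ∀ (V : Type) [Fintype V] [DecidableEq V] [Nonempty V]
      (G : SimpleGraph V) [DecidableRel G.Adj],
      (∀ v, (1 / 2 - γ) * Fintype.card V ≤ G.degree v) →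
      (tri G : ℝ) ≤ γ * (Fintype.card V : ℝ) ^ 3 →
      ∃ X : Finset V, GoodCut G γ₁ X := by
  refine ⟨min (1 / 4 : ℝ) (min (γ₁ / 16) (γ₁ ^ 2 / 16)), by positivity, ?_⟩
  set γ : ℝ := min (1 / 4 : ℝ) (min (γ₁ / 16) (γ₁ ^ 2 / 16)) with hγ
  have hγ0 : 0 < γ := by positivity
  have hγ4 : γ ≤ 1 / 4 := min_le_left _ _
  have hγa : γ ≤ γ₁ / 16 := (min_le_right _ _).trans (min_le_left _ _)
  have hγb : γ ≤ γ₁ ^ 2 / 16 := (min_le_right _ _).trans (min_le_right _ _)
  intro V _ _ _ G _ hdeg htri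
  set n : ℝ := (Fintype.card V : ℝ) with hn
  have hn0 : 0 < n := by
    rw [hn]; exact_mod_cast Fintype.card_pos
  have htri' : ∑ u, (gcT G u : ℝ) ≤ γ * n ^ 3 := by
    have : (tri G : ℝ) = ∑ u, (gcT G u : ℝ) := by
      unfold tri gcT
      push_cast
      rfl
    rwa [this] at htri
  -- step 1
  obtain ⟨u, -, hu⟩ : ∃ u ∈ (Finset.univ : Finset V), (gcT G u : ℝ) ≤ γ * n ^ 2 := by
    apply Finset.exists_le_of_sum_le Finset.univ_nonempty
    rw [Finset.sum_const, nsmul_eq_mul, Finset.card_univ, ← hn]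
    refine htri'.trans (le_of_eq (by ring))
  have hNu : n / 4 ≤ ((G.neighborFinset u).card : ℝ) := by
    rw [G.card_neighborFinset_eq_degree]
    refine le_trans ?_ (hdeg u)
    nlinarith
  -- step 2
  obtain ⟨v, -, hv⟩ : ∃ v ∈ G.neighborFinset u,
      ((G.neighborFinset u ∩ G.neighborFinset v).card : ℝ) * n + (gcT G v : ℝ) ≤
        8 * γ * n ^ 2 := by
    apply Finset.exists_le_of_sum_le
    · rw [← Finset.card_pos]
      have : (0 : ℝ) < ((G.neighborFinset u).card : ℝ) := by linarith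
      exact_mod_cast this
    · rw [Finset.sum_const, nsmul_eq_mul, Finset.sum_add_distrib, ← Finset.sum_mul]
      have h1 : ∑ x ∈ G.neighborFinset u, ((G.neighborFinset u ∩ G.neighborFinset x).card : ℝ) =
          gcT G u := by unfold gcT; push_cast; rfl
      have h2 : ∑ x ∈ G.neighborFinset u, (gcT G x : ℝ) ≤ ∑ x, (gcT G x : ℝ) :=
        Finset.sum_le_sum_of_subset_of_nonneg (Finset.subset_univ _)
          (fun _ _ _ => Nat.cast_nonneg _)
      rw [h1]
      have h3 : (gcT G u : ℝ) * n ≤ γ * n ^ 2 * n := mul_le_mul_of_nonneg_right hu hn0.le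
      have h4 : n / 4 * (8 * γ * n ^ 2) ≤ ((G.neighborFinset u).card : ℝ) * (8 * γ * n ^ 2) :=
        mul_le_mul_of_nonneg_right hNu (by positivity)
      nlinarith
  have hTv : (gcT G v : ℝ) ≤ 8 * γ * n ^ 2 := by
    have : 0 ≤ ((G.neighborFinset u ∩ G.neighborFinset v).card : ℝ) * n := by positivity
    linarith
  have hUV : ((G.neighborFinset u ∩ G.neighborFinset v).card : ℝ) ≤ 8 * γ * n := by
    have h1 : (0 : ℝ) ≤ (gcT G v : ℝ) := Nat.cast_nonneg _
    have h2 : ((G.neighborFinset u ∩ G.neighborFinset v).card : ℝ) * n ≤ (8 * γ * n) * n := by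
      nlinarith
    exact le_of_mul_le_mul_right h2 hn0
  -- step 3
  set X0 := G.neighborFinset u with hX0
  set Z := X0ᶜ \ G.neighborFinset v with hZ
  have hZc : (Z.card : ℝ) ≤ 10 * γ * n := by
    have h1 : Z.card + (X0ᶜ ∩ G.neighborFinset v).card = X0ᶜ.card :=
      Finset.card_sdiff_add_card_inter _ _
    have h2 : X0.card + X0ᶜ.card = Fintype.card V := Finset.card_add_card_compl X0
    have h3 : (G.neighborFinset v \ X0).card + (G.neighborFinset v ∩ X0).card =
        (G.neighborFinset v).card := Finset.card_sdiff_add_card_inter _ _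
    have h4 : X0ᶜ ∩ G.neighborFinset v = G.neighborFinset v \ X0 := by
      ext z
      simp only [Finset.mem_inter, Finset.mem_compl, Finset.mem_sdiff]
      exact ⟨fun h => ⟨h.2, h.1⟩, fun h => ⟨h.2, h.1⟩⟩
    rw [h4] at h1
    rw [Finset.inter_comm] at h3
    have h1' : (Z.card : ℝ) + ((G.neighborFinset v \ X0).card : ℝ) = (X0ᶜ.card : ℝ) := by
      exact_mod_cast h1
    have h2' : (X0.card : ℝ) + (X0ᶜ.card : ℝ) = n := by rw [hn]; exact_mod_cast h2
    have h3' : ((G.neighborFinset v \ X0).card : ℝ) + ((X0 ∩ G.neighborFinset v).card : ℝ) =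
        (G.degree v : ℝ) := by
      rw [← G.card_neighborFinset_eq_degree]; exact_mod_cast h3
    have h5 : (X0.card : ℝ) = G.degree u := by rw [hX0, G.card_neighborFinset_eq_degree]
    have h6 := hdeg u
    have h7 := hdeg v
    linarith
  have hf0 : ((gcE G X0 + gcE G X0ᶜ : ℕ) : ℝ) ≤ 29 * γ * n ^ 2 := by
    have h1 : gcE G X0 = gcT G u := gc_EN G u
    have h2 := gc_EY G u v
    have h2' : (gcE G X0ᶜ : ℝ) ≤ gcT G v + 2 * (n * Z.card) := by
      rw [hn]; exact_mod_cast h2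
    have h3 : n * Z.card ≤ n * (10 * γ * n) := mul_le_mul_of_nonneg_left hZc hn0.le
    push_cast
    rw [h1]
    nlinarith
  -- step 4
  obtain ⟨X, -, hX⟩ := Finset.exists_min_image (Finset.univ : Finset (Finset V))
    (fun Y => gcE G Y + gcE G Yᶜ) Finset.univ_nonempty
  have hX' : ∀ Y : Finset V, gcE G X + gcE G Xᶜ ≤ gcE G Y + gcE G Yᶜ := fun Y =>
    hX Y (Finset.mem_univ Y)
  have hfX : ((gcE G X + gcE G Xᶜ : ℕ) : ℝ) ≤ 29 * γ * n ^ 2 :=
    le_trans (by exact_mod_cast hX' X0) hf0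
  have hmin1 := gc_min G X hX'
  have hmin2 := gc_min G Xᶜ (by
    intro Y
    rw [compl_compl, add_comm]
    exact hX' Y)
  rw [compl_compl] at hmin2
  -- step 5
  set M : ℝ := ∑ x ∈ X, (dg G Xᶜ x : ℝ) with hM
  have htot := gc_total G X
  have htot' : ∑ v, (G.degree v : ℝ) = ((gcE G X + gcE G Xᶜ : ℕ) : ℝ) + 2 * M := by
    rw [hM]
    exact_mod_cast htot
  have hdegsum : (1 / 2 - γ) * n * n ≤ ∑ v, (G.degree v : ℝ) := by
    have h1 : ∑ _v : V, (1 / 2 - γ) * n ≤ ∑ v, (G.degree v : ℝ) :=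
      Finset.sum_le_sum fun v _ => hdeg v
    rw [Finset.sum_const, nsmul_eq_mul, Finset.card_univ, ← hn] at h1
    linarith
  have hMge : (1 / 4 - 15 * γ) * n ^ 2 ≤ M := by nlinarith
  set a : ℝ := (X.card : ℝ) with ha
  set b : ℝ := (Xᶜ.card : ℝ) with hb
  have hab : a + b = n := by
    rw [ha, hb, hn]; exact_mod_cast Finset.card_add_card_compl X
  have hMle : M ≤ a * b := by
    have h1 : M ≤ ∑ _x ∈ X, b := by
      refine Finset.sum_le_sum fun x _ => ?_
      rw [hb]
      have : dg G Xᶜ x ≤ Xᶜ.card := Finset.card_le_card Finset.inter_subset_right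
      exact_mod_cast this
    rwa [Finset.sum_const, nsmul_eq_mul] at h1
  have hsq : (a - b) ^ 2 ≤ (2 * γ₁ * n) ^ 2 := by
    have h1 : (a - b) ^ 2 = n ^ 2 - 4 * (a * b) := by rw [← hab]; ring
    have h2 : 60 * γ * n ^ 2 ≤ 4 * γ₁ ^ 2 * n ^ 2 := by
      apply mul_le_mul_of_nonneg_right _ (by positivity)
      nlinarith [sq_nonneg γ₁]
    nlinarith
  have habs := abs_le_of_sq_le_sq' hsq (by positivity)
  refine ⟨X, hmin1, hmin2, ?_, ?_, ?_⟩
  · show a ≤ (1 / 2 + γ₁) * n
    nlinarith [habs.1, habs.2]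
  · show b ≤ (1 / 2 + γ₁) * n
    nlinarith [habs.1, habs.2]
  · have h1 : ∑ v ∈ X, (b - dg G Xᶜ v) = a * b - M := by
      rw [Finset.sum_sub_distrib, Finset.sum_const, nsmul_eq_mul]
    show ∑ v ∈ X, (b - dg G Xᶜ v) ≤ γ₁ * n ^ 2
    rw [h1]
    have h2 : a * b ≤ n ^ 2 / 4 := by nlinarith [sq_nonneg (a - b)]
    have h3 : 15 * γ * n ^ 2 ≤ γ₁ * n ^ 2 :=
      mul_le_mul_of_nonneg_right (by linarith) (by positivity)
    nlinarith

end K22T.E0
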