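import Pool.Agent.K22T.Defs
set_option autoImplicit false
open Finset BigOperators

namespace K22T.E1




/-- double counting with Cauchy-Schwarz -/
theorem dc {α β : Type*} [DecidableEq β] (E : Finset α) (Z : Finset β) (S : α → Finset β)
    (hS : ∀ v ∈ E, S v ⊆ Z) :
    (∑ v ∈ E, ((S v).card : ℝ)) ^ 2 ≤
      (Z.card : ℝ) * ∑ v ∈ E, ∑ w ∈ E, ((S v ∩ S w).card : ℝ) := by
  classical
  have h1 : ∀ v ∈ E, ((S v).card : ℝ) = ∑ z ∈ Z, (if z ∈ S v then (1:ℝ) else 0) := by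
    intro v hv
    rw [Finset.sum_ite_mem, Finset.inter_eq_right.2 (hS v hv)]
    simp
  have h2 : ∀ v ∈ E, ∀ w ∈ E, ((S v ∩ S w).card : ℝ) =
      ∑ z ∈ Z, (if z ∈ S v then (1:ℝ) else 0) * (if z ∈ S w then (1:ℝ) else 0) := by
    intro v hv w hw
    have h3 : ∀ z ∈ Z, (if z ∈ S v then (1:ℝ) else 0) * (if z ∈ S w then (1:ℝ) else 0) =
        (if z ∈ S v ∩ S w then (1:ℝ) else 0) := by
      intro z _
      by_cases hz : z ∈ S v <;> by_cases hz' : z ∈ S w <;> simp [hz, hz']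
    rw [Finset.sum_congr rfl h3, Finset.sum_ite_mem,
      Finset.inter_eq_right.2 (Finset.inter_subset_left.trans (hS v hv))]
    simp
  rw [Finset.sum_congr rfl h1, Finset.sum_comm]
  refine le_trans (sq_sum_le_card_mul_sum_sq) ?_
  refine mul_le_mul_of_nonneg_left (le_of_eq ?_) (Nat.cast_nonneg _)
  rw [Finset.sum_congr rfl (fun v hv => Finset.sum_congr rfl (fun w hw => h2 v hv w hw))]
  rw [Finset.sum_congr rfl (fun v _ => Finset.sum_comm), Finset.sum_comm]
  refine Finset.sum_congr rfl (fun z _ => ?_)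
  rw [sq, Finset.sum_mul_sum]

/-- few vertices of `Q` miss many vertices of `P` -/
theorem bad_le {V : Type*} [Fintype V] [DecidableEq V] (G : SimpleGraph V) [DecidableRel G.Adj]
    (P Q : Finset V) (ξ γ N : ℝ) (hξ : 0 < ξ) (hN : 0 < N) (hγ : γ ≤ ξ ^ 2)
    (h : ∑ y ∈ Q, ((P \ G.neighborFinset y).card : ℝ) ≤ γ * N ^ 2) :
    ((Q.filter (fun y => ξ * N < ((P \ G.neighborFinset y).card : ℝ))).card : ℝ) ≤ ξ * N := by
  classical
  set W := Q.filter (fun y => ξ * N < ((P \ G.neighborFinset y).card : ℝ)) with hW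
  have h1 : (W.card : ℝ) * (ξ * N) ≤ ∑ y ∈ W, ((P \ G.neighborFinset y).card : ℝ) := by
    rw [← nsmul_eq_mul]
    refine Finset.card_nsmul_le_sum _ _ _ (fun y hy => ?_)
    exact (Finset.mem_filter.1 hy).2.le
  have h2 : ∑ y ∈ W, ((P \ G.neighborFinset y).card : ℝ) ≤
      ∑ y ∈ Q, ((P \ G.neighborFinset y).card : ℝ) :=
    Finset.sum_le_sum_of_subset_of_nonneg (Finset.filter_subset _ _)
      (fun _ _ _ => Nat.cast_nonneg _)
  have h3 : (W.card : ℝ) * (ξ * N) ≤ (ξ * N) * (ξ * N) := by nlinarith [sq_nonneg N]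
  exact le_of_mul_le_mul_right h3 (mul_pos hξ hN)

theorem swap_nonadj {V : Type*} [Fintype V] [DecidableEq V] (G : SimpleGraph V)
    [DecidableRel G.Adj] (P Q : Finset V) :
    ∑ y ∈ Q, ((P \ G.neighborFinset y).card : ℝ) =
      ∑ x ∈ P, ((Q \ G.neighborFinset x).card : ℝ) := by
  have h : ∀ (P : Finset V) (y : V), ((P \ G.neighborFinset y).card : ℝ) =
      ∑ x ∈ P, (if G.Adj y x then (0:ℝ) else 1) := by
    intro P y
    have : P \ G.neighborFinset y = P.filter (fun x => ¬ G.Adj y x) := by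
      ext x; simp
    rw [this, Finset.card_filter]
    push_cast
    refine Finset.sum_congr rfl (fun x _ => ?_)
    by_cases hx : G.Adj y x <;> simp [hx]
  rw [Finset.sum_congr rfl (fun y _ => h P y), Finset.sum_congr rfl (fun x _ => h Q x),
    Finset.sum_comm]
  refine Finset.sum_congr rfl (fun x _ => Finset.sum_congr rfl (fun y _ => ?_))
  simp only [G.adj_comm]

theorem pair_small {V : Type*} [Fintype V] [DecidableEq V] (G : SimpleGraph V)
    [DecidableRel G.Adj] (c ξ : ℝ) (hb : NoBook G c) (P Q : Finset V)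
    (hbad : ((Q.filter (fun y => ξ * Fintype.card V <
      ((P \ G.neighborFinset y).card : ℝ))).card : ℝ) ≤ ξ * Fintype.card V)
    (v w : V) (hvw : v ≠ w)
    (hB : ξ * Fintype.card V + 2 ≤
      (((G.neighborFinset v ∩ Q) ∩ (G.neighborFinset w ∩ Q)).card : ℝ)) :
    (((G.neighborFinset v ∩ P) ∩ (G.neighborFinset w ∩ P)).card : ℝ)
      < (c + 2 * ξ) * Fintype.card V := by
  classical
  set Bd := Q.filter (fun y => ξ * Fintype.card V < ((P \ G.neighborFinset y).card : ℝ)) with hBd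
  set W := (G.neighborFinset v ∩ Q) ∩ (G.neighborFinset w ∩ Q) with hW
  have h1 : (W.card : ℝ) ≤ (W \ Bd).card + Bd.card := by
    have := Finset.card_le_card_sdiff_add_card (s := W) (t := Bd)
    exact_mod_cast this
  have h2 : 1 < (W \ Bd).card := by
    have : (1:ℝ) < (W \ Bd).card := by linarith
    exact_mod_cast this
  obtain ⟨y, hy, y1, hy1, hne⟩ := Finset.one_lt_card.1 h2
  have mem : ∀ y ∈ W \ Bd, G.Adj v y ∧ G.Adj w y ∧
      ((P \ G.neighborFinset y).card : ℝ) ≤ ξ * Fintype.card V := by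
    intro y hy
    rw [Finset.mem_sdiff] at hy
    obtain ⟨hyW, hyB⟩ := hy
    rw [hW] at hyW
    simp only [Finset.mem_inter, SimpleGraph.mem_neighborFinset] at hyW
    refine ⟨hyW.1.1, hyW.2.1, ?_⟩
    by_contra hcon
    push Not at hcon
    exact hyB (Finset.mem_filter.2 ⟨hyW.1.2, hcon⟩)
  obtain ⟨a1, a2, a3⟩ := mem y hy
  obtain ⟨b1, b2, b3⟩ := mem y1 hy1
  have h3 := hb v w y y1 hvw hne a1 b1 a2 b2
  set C : Set V := {z | G.Adj v z ∧ G.Adj w z ∧ G.Adj y z ∧ G.Adj y1 z} with hC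
  have hCf : C.ncard = (Finset.univ.filter (fun z => G.Adj v z ∧ G.Adj w z ∧ G.Adj y z ∧ G.Adj y1 z)).card := by
    rw [← Set.ncard_coe_finset]
    congr 1
    ext z
    simp [hC]
  have h4 : (G.neighborFinset v ∩ P) ∩ (G.neighborFinset w ∩ P) ⊆
      (Finset.univ.filter (fun z => G.Adj v z ∧ G.Adj w z ∧ G.Adj y z ∧ G.Adj y1 z)) ∪
        ((P \ G.neighborFinset y) ∪ (P \ G.neighborFinset y1)) := by
    intro z hz
    simp only [Finset.mem_inter, SimpleGraph.mem_neighborFinset] at hz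
    simp only [Finset.mem_union, Finset.mem_filter, Finset.mem_univ, true_and, Finset.mem_sdiff,
      SimpleGraph.mem_neighborFinset]
    obtain ⟨⟨hz1, hzP⟩, hz2, -⟩ := hz
    by_cases h5 : G.Adj y z
    · by_cases h6 : G.Adj y1 z
      · exact Or.inl ⟨hz1, hz2, h5, h6⟩
      · exact Or.inr (Or.inr ⟨hzP, h6⟩)
    · exact Or.inr (Or.inl ⟨hzP, h5⟩)
  have h5 := (Finset.card_le_card h4).trans ((Finset.card_union_le _ _).trans
    (Nat.add_le_add_left (Finset.card_union_le _ _) _))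
  rw [← hCf] at h5
  have h6 : ((((G.neighborFinset v ∩ P) ∩ (G.neighborFinset w ∩ P)).card : ℕ) : ℝ) ≤
      (C.ncard : ℝ) + ((P \ G.neighborFinset y).card + (P \ G.neighborFinset y1).card) := by
    exact_mod_cast h5
  linarith

theorem dg_eq {V : Type*} [Fintype V] [DecidableEq V] (G : SimpleGraph V) [DecidableRel G.Adj]
    (X : Finset V) (v : V) :
    ((X \ G.neighborFinset v).card : ℝ) = (X.card : ℝ) - dg G X v := by
  have h := Finset.card_sdiff_add_card_inter X (G.neighborFinset v)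
  unfold dg
  rw [Finset.inter_comm (G.neighborFinset v) X]
  have h' : ((X \ G.neighborFinset v).card : ℝ) + (X ∩ G.neighborFinset v).card = X.card := by
    exact_mod_cast h
  linarith

/-- only boundedly many vertices of `X` have linear degree inside `X` -/
theorem few_exceptional (c : ℝ) (hc0 : 0 < c) (hc : c < 1 / 16) :
    ∃ γ > (0 : ℝ), ∃ n₀ : ℕ, ∀ (V : Type) [Fintype V] [DecidableEq V]
      (G : SimpleGraph V) [DecidableRel G.Adj] (X : Finset V), n₀ ≤ Fintype.card V →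
      (∀ v, (1 / 2 - γ) * Fintype.card V ≤ G.degree v) → NoBook G c → GoodCut G γ X →
      (X.filter (fun v => (Fintype.card V : ℝ) / 16 ≤ dg G X v)).card ≤ 10 ^ 4 := by
  obtain ⟨ξ, hξ0, hξ1, hξ2⟩ : ∃ ξ : ℝ, 0 < ξ ∧ ξ ≤ (1 / 16 - c) / 8 ∧ ξ ≤ 1 / 10 ^ 5 := by
    refine ⟨min ((1 / 16 - c) / 8) (1 / 10 ^ 5), lt_min (by linarith) (by norm_num),
      min_le_left _ _, min_le_right _ _⟩
  refine ⟨ξ ^ 2, by positivity, ⌈2 / ξ⌉₊ + 1, ?_⟩
  intro V _ _ G _ X hn hdeg hbook hcut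
  obtain ⟨hc1, hc2, hX, hY, hne⟩ := hcut
  set γ : ℝ := ξ ^ 2 with hγ
  set n : ℝ := (Fintype.card V : ℝ) with hnd
  have hγ0 : 0 < γ := by positivity
  have hγ1 : γ ≤ 1 / 10 ^ 10 := by
    rw [hγ]; nlinarith
  have hn1 : 2 / ξ ≤ n := by
    have h1 : (⌈2 / ξ⌉₊ : ℝ) + 1 ≤ n := by rw [hnd]; exact_mod_cast hn
    have h2 := Nat.le_ceil (2 / ξ)
    linarith
  have hn0 : 0 < n := lt_of_lt_of_le (by positivity) hn1
  have hξn : 2 ≤ ξ * n := by
    rw [div_le_iff₀ hξ0] at hn1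
    linarith
  by_contra hcon
  push Not at hcon
  obtain ⟨E, hE, hEc⟩ := Finset.exists_subset_card_eq (Nat.succ_le_of_lt hcon)
  -- the bad vertices
  have hbadX : ((X.filter (fun y => ξ * n < (((Xᶜ : Finset V) \ G.neighborFinset y).card : ℝ))).card
      : ℝ) ≤ ξ * n := by
    refine bad_le G Xᶜ X ξ γ n hξ0 hn0 le_rfl ?_
    rw [Finset.sum_congr rfl (fun y _ => dg_eq G Xᶜ y)]
    exact hne
  have hbadY : (((Xᶜ : Finset V).filter (fun y => ξ * n < ((X \ G.neighborFinset y).card : ℝ))).card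
      : ℝ) ≤ ξ * n := by
    refine bad_le G X Xᶜ ξ γ n hξ0 hn0 le_rfl ?_
    rw [swap_nonadj, Finset.sum_congr rfl (fun y _ => dg_eq G Xᶜ y)]
    exact hne
  set A : V → V → ℝ := fun v w =>
    (((G.neighborFinset v ∩ X) ∩ (G.neighborFinset w ∩ X)).card : ℝ) with hA
  set B : V → V → ℝ := fun v w =>
    (((G.neighborFinset v ∩ Xᶜ) ∩ (G.neighborFinset w ∩ Xᶜ)).card : ℝ) with hB
  have hA0 : ∀ v w, 0 ≤ A v w := fun v w => Nat.cast_nonneg _
  have hB0 : ∀ v w, 0 ≤ B v w := fun v w => Nat.cast_nonneg _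
  have hAX : ∀ v w, A v w ≤ (1 / 2 + γ) * n := by
    intro v w
    refine le_trans ?_ hX
    have : ((G.neighborFinset v ∩ X) ∩ (G.neighborFinset w ∩ X)).card ≤ X.card :=
      Finset.card_le_card (Finset.inter_subset_left.trans Finset.inter_subset_right)
    show (((G.neighborFinset v ∩ X) ∩ (G.neighborFinset w ∩ X)).card : ℝ) ≤ (X.card : ℝ)
    exact_mod_cast this
  have hBY : ∀ v w, B v w ≤ (1 / 2 + γ) * n := by
    intro v w
    refine le_trans ?_ hY
    have : ((G.neighborFinset v ∩ Xᶜ) ∩ (G.neighborFinset w ∩ Xᶜ)).card ≤ (Xᶜ : Finset V).card :=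
      Finset.card_le_card (Finset.inter_subset_left.trans Finset.inter_subset_right)
    show (((G.neighborFinset v ∩ Xᶜ) ∩ (G.neighborFinset w ∩ Xᶜ)).card : ℝ) ≤
      ((Xᶜ : Finset V).card : ℝ)
    exact_mod_cast this
  have hXY : (X.card : ℝ) + (Xᶜ : Finset V).card = n := by
    have := Finset.card_add_card_compl X
    rw [hnd]
    exact_mod_cast this
  -- upper bound for pairs
  have hup : ∀ v w, v ≠ w → n * (A v w + B v w) + 96 * (A v w * B v w) ≤
      (1 / 2 + γ + 194 * ξ) * n ^ 2 := by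
    intro v w hvw
    have e1 : ξ * n + 2 ≤ B v w → A v w < (c + 2 * ξ) * n := fun h =>
      pair_small G c ξ hbook X Xᶜ hbadY v w hvw h
    have e2 : ξ * n + 2 ≤ A v w → B v w < (c + 2 * ξ) * n := fun h =>
      pair_small G c ξ hbook Xᶜ X hbadX v w hvw h
    have hcn : (c + 2 * ξ) * n ≤ n / 16 := by
      have : c + 2 * ξ ≤ 1 / 16 := by linarith
      nlinarith
    have a0 := hA0 v w
    have b0 := hB0 v w
    have a1 := hAX v w
    have b1 := hBY v w
    have hγn : (1 / 2 + γ) * n ≤ n := by nlinarith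
    by_cases hA2 : A v w < 2 * ξ * n
    · have h1 : A v w * B v w ≤ (2 * ξ * n) * n :=
        mul_le_mul hA2.le (b1.trans hγn) b0 (by positivity)
      have h2 : n * (A v w + B v w) ≤ n * (2 * ξ * n + (1 / 2 + γ) * n) :=
        mul_le_mul_of_nonneg_left (by linarith) hn0.le
      nlinarith
    · by_cases hB2 : B v w < 2 * ξ * n
      · have h1 : A v w * B v w ≤ n * (2 * ξ * n) :=
          mul_le_mul (a1.trans hγn) hB2.le b0 hn0.le
        have h2 : n * (A v w + B v w) ≤ n * (2 * ξ * n + (1 / 2 + γ) * n) :=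
          mul_le_mul_of_nonneg_left (by linarith) hn0.le
        nlinarith
      · push Not at hA2 hB2
        have h1 := e1 (by linarith)
        have h2 := e2 (by linarith)
        have h3 : A v w ≤ n / 16 := by linarith
        have h4 : B v w ≤ n / 16 := by linarith
        have h5 : A v w * B v w ≤ (n / 16) * (n / 16) :=
          mul_le_mul h3 h4 b0 (by positivity)
        have h6 : n * (A v w + B v w) ≤ n * (n / 16 + n / 16) :=
          mul_le_mul_of_nonneg_left (by linarith) hn0.le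
        have h7 : 0 ≤ (γ + 194 * ξ) * n ^ 2 := by positivity
        nlinarith
  have hdiag : ∀ v, n * (A v v + B v v) + 96 * (A v v * B v v) ≤ 98 * n ^ 2 := by
    intro v
    have a0 := hA0 v v
    have b0 := hB0 v v
    have hγn : (1 / 2 + γ) * n ≤ n := by nlinarith
    have a1 := (hAX v v).trans hγn
    have b1 := (hBY v v).trans hγn
    have h1 : A v v * B v v ≤ n * n := mul_le_mul a1 b1 b0 hn0.le
    have h2 : n * (A v v + B v v) ≤ n * (n + n) :=
      mul_le_mul_of_nonneg_left (by linarith) hn0.le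
    nlinarith
  -- degrees
  have hxy : ∀ v ∈ E, n / 16 ≤ (dg G X v : ℝ) ∧ (dg G X v : ℝ) ≤ dg G Xᶜ v ∧
      (1 / 2 - γ) * n ≤ (dg G X v : ℝ) + dg G Xᶜ v := by
    intro v hv
    have hv' := Finset.mem_filter.1 (hE hv)
    refine ⟨hv'.2, by exact_mod_cast hc1 v hv'.1, ?_⟩
    refine (hdeg v).trans (le_of_eq ?_)
    have h1 : G.degree v = dg G X v + dg G Xᶜ v := by
      unfold dg
      rw [← G.card_neighborFinset_eq_degree, ← Finset.card_union_of_disjoint,
        ← Finset.inter_union_distrib_left, Finset.union_compl, Finset.inter_univ]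
      exact (disjoint_compl_right (a := X)).mono Finset.inter_subset_right
        Finset.inter_subset_right
    rw [h1]
    push_cast
    ring
  set K : ℝ := 10001 with hK
  have hEK : (E.card : ℝ) = K := by
    rw [hEc, hK]; norm_num
  have hSsum : K * ((1 / 2 - γ) * n) ≤ ∑ v ∈ E, (dg G X v : ℝ) + ∑ v ∈ E, (dg G Xᶜ v : ℝ) := by
    rw [← Finset.sum_add_distrib, ← hEK, ← nsmul_eq_mul]
    exact Finset.card_nsmul_le_sum _ _ _ (fun v hv => (hxy v hv).2.2)
  have hPsum : K * ((7 / 256 - γ / 16) * n ^ 2) ≤ ∑ v ∈ E, ((dg G X v : ℝ) * dg G Xᶜ v) := by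
    rw [← hEK, ← nsmul_eq_mul]
    refine Finset.card_nsmul_le_sum _ _ _ (fun v hv => ?_)
    obtain ⟨h1, h2, h3⟩ := hxy v hv
    have h4 : 0 ≤ ((dg G X v : ℝ) - n / 16) * ((dg G Xᶜ v : ℝ) - n / 16) :=
      mul_nonneg (by linarith) (by linarith)
    nlinarith
  have dX := dc E X (fun v => G.neighborFinset v ∩ X) (fun v _ => Finset.inter_subset_right)
  have dY := dc E Xᶜ (fun v => G.neighborFinset v ∩ Xᶜ) (fun v _ => Finset.inter_subset_right)
  have dXY := dc E (X ×ˢ Xᶜ)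
    (fun v => (G.neighborFinset v ∩ X) ×ˢ (G.neighborFinset v ∩ Xᶜ))
    (fun v _ => Finset.product_subset_product Finset.inter_subset_right Finset.inter_subset_right)
  have hprod : ∀ v w, ((((G.neighborFinset v ∩ X) ×ˢ (G.neighborFinset v ∩ Xᶜ)) ∩
      ((G.neighborFinset w ∩ X) ×ˢ (G.neighborFinset w ∩ Xᶜ))).card : ℝ) = A v w * B v w := by
    intro v w
    rw [Finset.product_inter_product, Finset.card_product]
    push_cast
    rfl
  simp only [hprod, Finset.card_product, Nat.cast_mul] at dXY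
  set SA : ℝ := ∑ v ∈ E, ∑ w ∈ E, A v w with hSA
  set SB : ℝ := ∑ v ∈ E, ∑ w ∈ E, B v w with hSB
  set SC : ℝ := ∑ v ∈ E, ∑ w ∈ E, A v w * B v w with hSC
  set sx : ℝ := ∑ v ∈ E, (dg G X v : ℝ) with hsx
  set sy : ℝ := ∑ v ∈ E, (dg G Xᶜ v : ℝ) with hsy
  set sp : ℝ := ∑ v ∈ E, ((dg G X v : ℝ) * dg G Xᶜ v) with hsp
  have dX' : sx ^ 2 ≤ (X.card : ℝ) * SA := dX
  have dY' : sy ^ 2 ≤ ((Xᶜ : Finset V).card : ℝ) * SB := dY
  have dXY' : sp ^ 2 ≤ (X.card : ℝ) * ((Xᶜ : Finset V).card : ℝ) * SC := dXY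
  have hSA0 : 0 ≤ SA := Finset.sum_nonneg (fun v _ => Finset.sum_nonneg (fun w _ => hA0 v w))
  have hSB0 : 0 ≤ SB := Finset.sum_nonneg (fun v _ => Finset.sum_nonneg (fun w _ => hB0 v w))
  have hSC0 : 0 ≤ SC := Finset.sum_nonneg (fun v _ => Finset.sum_nonneg
    (fun w _ => mul_nonneg (hA0 v w) (hB0 v w)))
  -- total upper bound
  have htot : n * (SA + SB) + 96 * SC ≤ K ^ 2 * ((1 / 2 + γ + 194 * ξ) * n ^ 2) +
      K * (98 * n ^ 2) := by
    have e1 : n * (SA + SB) + 96 * SC =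
        ∑ v ∈ E, ∑ w ∈ E, (n * (A v w + B v w) + 96 * (A v w * B v w)) := by
      simp only [Finset.sum_add_distrib, ← Finset.mul_sum, hSA, hSB, hSC]
    rw [e1]
    have e2 : ∀ v ∈ E, ∑ w ∈ E, (n * (A v w + B v w) + 96 * (A v w * B v w)) ≤
        K * ((1 / 2 + γ + 194 * ξ) * n ^ 2) + 98 * n ^ 2 := by
      intro v hv
      have e3 : ∀ w ∈ E, n * (A v w + B v w) + 96 * (A v w * B v w) ≤
          (1 / 2 + γ + 194 * ξ) * n ^ 2 + (if w = v then 98 * n ^ 2 else 0) := by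
        intro w _
        by_cases hw : w = v
        · subst hw
          rw [if_pos rfl]
          have := hdiag w
          have h7 : 0 ≤ (1 / 2 + γ + 194 * ξ) * n ^ 2 := by positivity
          linarith
        · rw [if_neg hw, add_zero]
          exact hup v w (Ne.symm hw)
      refine (Finset.sum_le_sum e3).trans (le_of_eq ?_)
      rw [Finset.sum_add_distrib, Finset.sum_ite_eq' E v, if_pos hv, Finset.sum_const,
        nsmul_eq_mul, hEK]
    refine (Finset.sum_le_sum e2).trans (le_of_eq ?_)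
    rw [Finset.sum_const, nsmul_eq_mul, hEK]
    ring
  -- total lower bounds
  have hK0 : 0 < K := by norm_num [hK]
  have l1 : K ^ 2 * ((1 / 2 - γ) ^ 2 * n) ≤ (1 + 2 * γ) * (SA + SB) := by
    have h1 : sx ^ 2 ≤ ((1 / 2 + γ) * n) * SA := dX'.trans (mul_le_mul_of_nonneg_right hX hSA0)
    have h2 : sy ^ 2 ≤ ((1 / 2 + γ) * n) * SB := dY'.trans (mul_le_mul_of_nonneg_right hY hSB0)
    have h3 : (K * ((1 / 2 - γ) * n)) ^ 2 ≤ (sx + sy) ^ 2 := by
      apply pow_le_pow_left₀ _ hSsum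
      have : 0 ≤ 1 / 2 - γ := by linarith
      positivity
    have h4 : (sx + sy) ^ 2 ≤ 2 * (sx ^ 2 + sy ^ 2) := by nlinarith [sq_nonneg (sx - sy)]
    have h5 : n * (K ^ 2 * ((1 / 2 - γ) ^ 2 * n)) ≤ n * ((1 + 2 * γ) * (SA + SB)) := by
      nlinarith
    exact le_of_mul_le_mul_left h5 hn0
  have l2 : 4 * (K ^ 2 * ((7 / 256 - γ / 16) ^ 2 * n ^ 2)) ≤ SC := by
    have h1 : (X.card : ℝ) * ((Xᶜ : Finset V).card : ℝ) ≤ n ^ 2 / 4 := by
      rw [← hXY]
      nlinarith [sq_nonneg ((X.card : ℝ) - (Xᶜ : Finset V).card)]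
    have h2 : sp ^ 2 ≤ n ^ 2 / 4 * SC := dXY'.trans (mul_le_mul_of_nonneg_right h1 hSC0)
    have h3 : (K * ((7 / 256 - γ / 16) * n ^ 2)) ^ 2 ≤ sp ^ 2 := by
      apply pow_le_pow_left₀ _ hPsum
      have : 0 ≤ 7 / 256 - γ / 16 := by linarith
      positivity
    have h4 : n ^ 2 / 4 * (4 * (K ^ 2 * ((7 / 256 - γ / 16) ^ 2 * n ^ 2))) ≤ n ^ 2 / 4 * SC := by
      nlinarith
    exact le_of_mul_le_mul_left h4 (by positivity)
  -- contradiction
  have m1 : K ^ 2 * (249 / 1000 * n) ≤ SA + SB := by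
    have h1 : (249 / 1000 : ℝ) * (1 + 2 * γ) ≤ (1 / 2 - γ) ^ 2 := by nlinarith
    have h2 : (1 + 2 * γ) * (K ^ 2 * (249 / 1000 * n)) ≤ (1 + 2 * γ) * (SA + SB) := by
      refine le_trans (le_of_eq ?_) ((mul_le_mul_of_nonneg_left h1
        (show 0 ≤ K ^ 2 * n by positivity)).trans ((le_of_eq ?_).trans l1)) <;> ring
    exact le_of_mul_le_mul_left h2 (by positivity)
  have m2 : K ^ 2 * (298 / 100000 * n ^ 2) ≤ SC := by
    refine le_trans ?_ l2
    have h1 : (298 / 100000 : ℝ) ≤ 4 * (7 / 256 - γ / 16) ^ 2 := by nlinarith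
    refine (le_of_eq ?_).trans ((mul_le_mul_of_nonneg_left h1
      (show 0 ≤ K ^ 2 * n ^ 2 by positivity)).trans (le_of_eq ?_)) <;> ring
  have m3 : K ^ 2 * ((249 / 1000 + 96 * (298 / 100000)) * n ^ 2) ≤ n * (SA + SB) + 96 * SC := by
    have := mul_le_mul_of_nonneg_left m1 hn0.le
    nlinarith
  have m4 := m3.trans htot
  have m5 : (1 / 2 + γ + 194 * ξ) ≤ 503 / 1000 := by linarith
  have m6 : K ^ 2 * ((249 / 1000 + 96 * (298 / 100000)) * n ^ 2) ≤
      K ^ 2 * (503 / 1000 * n ^ 2) + K * (98 * n ^ 2) := by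
    refine m4.trans (add_le_add_left (mul_le_mul_of_nonneg_left
      (mul_le_mul_of_nonneg_right m5 (by positivity)) (by positivity)) _)
  have m7 : 0 < n ^ 2 := by positivity
  rw [hK] at m6
  nlinarith

end K22T.E1
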