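import Pool.Agent.K22T.Defs
set_option autoImplicit false
open Finset BigOperators

namespace K22T.E2






theorem inter_card {V : Type*} [DecidableEq V] (A B Y : Finset V) (hA : A ⊆ Y) (hB : B ⊆ Y) :
    (A.card : ℝ) + B.card - Y.card ≤ (A ∩ B).card := by
  have h1 := Finset.card_union_add_card_inter A B
  have h2 : (A ∪ B).card ≤ Y.card := Finset.card_le_card (Finset.union_subset hA hB)
  have h3 : A.card + B.card ≤ (A ∩ B).card + Y.card := by omega
  have h4 : (A.card : ℝ) + B.card ≤ (A ∩ B).card + Y.card := by exact_mod_cast h3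
  linarith

theorem deg_split {V : Type*} [Fintype V] [DecidableEq V] (G : SimpleGraph V) [DecidableRel G.Adj]
    (X : Finset V) (v : V) : G.degree v = dg G X v + dg G Xᶜ v := by
  unfold dg
  rw [← SimpleGraph.card_neighborFinset_eq_degree, ← Finset.sdiff_eq_inter_compl, add_comm,
    Finset.card_sdiff_add_card_inter]

/-- Part 1: no exceptional vertices -/
theorem core_noexc (c : ℝ) (hc0 : 0 < c) (hc : c < 1 / 16) :
    ∃ γ : ℝ, γ > 0 ∧ ∃ n₀ : ℕ, ∀ (V : Type) [Fintype V] [DecidableEq V]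
      (G : SimpleGraph V) [DecidableRel G.Adj] (X : Finset V), n₀ ≤ Fintype.card V →
      (∀ v, (1 / 2 - γ) * (Fintype.card V : ℝ) ≤ (G.degree v : ℝ)) → NoBook G c → GoodCut G γ X →
      C4Free G {v | v ∈ X ∧ (dg G X v : ℝ) < (Fintype.card V : ℝ) / 16} := by
  refine ⟨1 / 100, by norm_num, 1, ?_⟩
  intro V _ _ G _ X hn hdeg hNB hGC a ha b hb a' ha' b' hb' haa hbb e1 e2 e3 e4
  have hn1 : (1 : ℝ) ≤ Fintype.card V := by exact_mod_cast hn
  have hY := hGC.2.2.2.1
  have hN := hNB a a' b b' haa hbb e1 e4.symm e2.symm e3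
  have key : ∀ v, v ∈ {v | v ∈ X ∧ (dg G X v : ℝ) < (Fintype.card V : ℝ) / 16} →
      (1 / 2 - 1 / 100) * (Fintype.card V : ℝ) - (Fintype.card V : ℝ) / 16 ≤
        ((G.neighborFinset v ∩ Xᶜ).card : ℝ) := by
    intro v hv
    have h1 := hdeg v
    have h2 : (dg G X v : ℝ) < (Fintype.card V : ℝ) / 16 := hv.2
    have h3 : (G.degree v : ℝ) = dg G X v + dg G Xᶜ v := by exact_mod_cast deg_split G X v
    have h4 : (dg G Xᶜ v : ℝ) = ((G.neighborFinset v ∩ Xᶜ).card : ℝ) := rfl
    linarith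
  set A := G.neighborFinset a ∩ Xᶜ with hA
  set A' := G.neighborFinset a' ∩ Xᶜ with hA'
  set B := G.neighborFinset b ∩ Xᶜ with hB
  set B' := G.neighborFinset b' ∩ Xᶜ with hB'
  have i1 := inter_card A A' Xᶜ Finset.inter_subset_right Finset.inter_subset_right
  have i2 := inter_card B B' Xᶜ Finset.inter_subset_right Finset.inter_subset_right
  have i3 := inter_card (A ∩ A') (B ∩ B') Xᶜ
    (Finset.inter_subset_left.trans Finset.inter_subset_right)
    (Finset.inter_subset_left.trans Finset.inter_subset_right)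
  have k1 := key a ha
  have k2 := key a' ha'
  have k3 := key b hb
  have k4 := key b' hb'
  have hsub : (((A ∩ A') ∩ (B ∩ B') : Finset V) : Set V) ⊆
      {z | G.Adj a z ∧ G.Adj a' z ∧ G.Adj b z ∧ G.Adj b' z} := by
    intro z hz
    simp only [Finset.coe_inter, Set.mem_inter_iff, Finset.mem_coe, hA, hA', hB, hB',
      Finset.mem_inter, SimpleGraph.mem_neighborFinset] at hz
    exact ⟨hz.1.1.1, hz.1.2.1, hz.2.1.1, hz.2.2.1⟩
  have hcard : (((A ∩ A') ∩ (B ∩ B')).card : ℝ) ≤
      (({z | G.Adj a z ∧ G.Adj a' z ∧ G.Adj b z ∧ G.Adj b' z} : Set V).ncard : ℝ) := by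
    have := Set.ncard_le_ncard hsub (Set.toFinite _)
    rw [Set.ncard_coe_finset] at this
    exact_mod_cast this
  have hc2 : c * (Fintype.card V : ℝ) ≤ 1 / 16 * (Fintype.card V : ℝ) := by
    nlinarith
  nlinarith

end K22T.E2
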