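import Pool.Agent.K22T.Defs
set_option autoImplicit false
open Finset BigOperators

namespace K22T.E3






theorem e3_union {V ι : Type*} [DecidableEq V] [DecidableEq ι] (N : ι → Finset V) (S : Finset ι)
    (h : ∀ i ∈ S, ∀ j ∈ S, i ≠ j → (N i ∩ N j).card ≤ 1) :
    ∑ i ∈ S, (N i).card ≤ (S.biUnion N).card + S.card ^ 2 := by
  classical
  induction S using Finset.induction_on with
  | empty => simp
  | insert i S hi ih =>
    have ih' := ih (fun a ha b hb hab =>
      h a (mem_insert_of_mem ha) b (mem_insert_of_mem hb) hab)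
    rw [sum_insert hi, card_insert_of_notMem hi, biUnion_insert]
    have h1 : (N i ∩ S.biUnion N).card ≤ S.card := by
      rw [Finset.inter_biUnion]
      calc (S.biUnion fun j => N i ∩ N j).card ≤ ∑ j ∈ S, (N i ∩ N j).card := card_biUnion_le
        _ ≤ ∑ j ∈ S, 1 := sum_le_sum (fun j hj => h i (mem_insert_self _ _) j
            (mem_insert_of_mem hj) (by rintro rfl; exact hi hj))
        _ = S.card := by simp
    have h2 := card_union_add_card_inter (N i) (S.biUnion N)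
    nlinarith

theorem e3_dg_add {V : Type*} [Fintype V] [DecidableEq V] (G : SimpleGraph V) [DecidableRel G.Adj]
    (X : Finset V) (v : V) : dg G X v + dg G Xᶜ v = G.degree v := by
  unfold dg
  rw [← SimpleGraph.card_neighborFinset_eq_degree]
  have h := Finset.card_inter_add_card_sdiff (G.neighborFinset v) X
  have h2 : G.neighborFinset v \ X = G.neighborFinset v ∩ Xᶜ := by
    ext z; simp
  rw [h2] at h
  exact h

/-- Part 2: an exceptional vertex in `X` or in `Xᶜ` costs superlinearly many edges inside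
`Y := Xᶜ`. Here `v` is any vertex with at least `|V|/16` neighbours in `X` and in `Xᶜ`. -/
theorem core_exc (c : ℝ) (hc0 : 0 < c) (hc : c < 1 / 16) (K : ℕ)
    (superlin : ∀ L : ℕ, ∃ m₀ : ℕ, ∀ (W : Type) [Fintype W], m₀ ≤ Fintype.card W →
      ∃ H : SimpleGraph W, C4Free H Set.univ ∧ L * Fintype.card W ≤ H.edgeSet.ncard) :
    ∃ γ > (0 : ℝ), ∃ n₀ : ℕ, ∀ (V : Type) [Fintype V] [DecidableEq V]
      (G : SimpleGraph V) [DecidableRel G.Adj] (X : Finset V) (v : V), n₀ ≤ Fintype.card V →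
      (∀ v, (1 / 2 - γ) * Fintype.card V ≤ G.degree v) → NoBook G c → GoodCut G γ X →
      C4Free G {u | u ∈ Xᶜ ∧ (dg G Xᶜ u : ℝ) < (Fintype.card V : ℝ) / 16} →
      (Xᶜ.filter (fun u => (Fintype.card V : ℝ) / 16 ≤ dg G Xᶜ u)).card ≤ K →
      (Fintype.card V : ℝ) / 16 ≤ dg G X v → (Fintype.card V : ℝ) / 16 ≤ dg G Xᶜ v →
      ∃ H : SimpleGraph V, C4Free H (X : Set V)ᶜ ∧
        (∀ a b, H.Adj a b → a ∈ Xᶜ ∧ b ∈ Xᶜ) ∧
        ({e ∈ G.edgeSet | ∀ a ∈ e, a ∈ Xᶜ} : Set (Sym2 V)).ncard + K * Fintype.card V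
          ≤ H.edgeSet.ncard := by
  obtain ⟨ξ, hξdef⟩ : ∃ ξ : ℝ, ξ = (1 / 16 - c) / 8 := ⟨_, rfl⟩
  have hξ : 0 < ξ := by rw [hξdef]; linarith
  obtain ⟨k1, hk1⟩ := exists_nat_ge (8 / ξ)
  have hk1' : 8 ≤ (k1 : ℝ) * ξ := by
    rw [div_le_iff₀ hξ] at hk1
    exact hk1
  obtain ⟨m₀, hm₀⟩ := superlin (32 * (2 * K + k1 + 1))
  obtain ⟨n1, hn1⟩ := exists_nat_ge ((4 * K : ℝ) / ξ)
  have hn1' : (4 * K : ℝ) ≤ n1 * ξ := by
    rw [div_le_iff₀ hξ] at hn1
    exact hn1
  refine ⟨ξ / 4, by positivity, n1 + k1 ^ 2 + 1 + 32 * (K + k1) + 32 * m₀, ?_⟩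
  intro V _ _ G _ X v hn hdeg hbook hcut hC4 hexc hvX hvY
  classical
  obtain ⟨n, hnn⟩ : ∃ n : ℕ, n = Fintype.card V := ⟨_, rfl⟩
  rw [← hnn] at hn hdeg hexc hvX hvY hC4 ⊢
  obtain ⟨-, -, hXc, hYc, -⟩ := hcut
  rw [← hnn] at hXc hYc
  have hnpos : 0 < n := by omega
  have hnr : (0 : ℝ) < n := by exact_mod_cast hnpos
  have hn1n : (n1 : ℝ) ≤ n := by
    have : n1 ≤ n := by omega
    exact_mod_cast this
  have hKn : (4 * K : ℝ) ≤ n * ξ := hn1'.trans (by
    exact mul_le_mul_of_nonneg_right hn1n hξ.le)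
  let Y : Finset V := Xᶜ
  let Y1 : Finset V := Y.filter (fun u => (dg G Y u : ℝ) < (n : ℝ) / 16)
  let E : Finset V := Y.filter (fun u => (n : ℝ) / 16 ≤ dg G Y u)
  let At : Finset V := Y1.filter (fun u => (dg G X u : ℝ) < X.card - ξ * n)
  let Y2 : Finset V := Y1 \ At
  let Z : Finset V := Y2 ∩ G.neighborFinset v
  have hEc : E.card ≤ K := hexc
  have hY1mem : ∀ u, u ∈ Y1 ↔ u ∈ Y ∧ (dg G Y u : ℝ) < (n : ℝ) / 16 := by
    intro u; simp [Y1]
  have hEmem : ∀ u, u ∈ E ↔ u ∈ Y ∧ (n : ℝ) / 16 ≤ (dg G Y u : ℝ) := by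
    intro u; simp [E]
  have hAtmem : ∀ u, u ∈ At ↔ u ∈ Y1 ∧ (dg G X u : ℝ) < X.card - ξ * n := by
    intro u; simp [At]
  have hY2mem : ∀ u, u ∈ Y2 ↔ u ∈ Y1 ∧ ¬ (u ∈ At) := by
    intro u; simp [Y2]
  have hZmem : ∀ u, u ∈ Z ↔ u ∈ Y2 ∧ G.Adj v u := by
    intro u; simp [Z]
  have hYsplit : ∀ u ∈ Y, u ∈ Y1 ∨ u ∈ E := by
    intro u hu
    rw [hY1mem, hEmem]
    rcases lt_or_ge (dg G Y u : ℝ) ((n : ℝ) / 16) with h | h
    · exact Or.inl ⟨hu, h⟩
    · exact Or.inr ⟨hu, h⟩
  have hC4' : ∀ a ∈ Y1, ∀ b ∈ Y1, ∀ a' ∈ Y1, ∀ b' ∈ Y1, a ≠ a' → b ≠ b' →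
      G.Adj a b → G.Adj b a' → G.Adj a' b' → G.Adj b' a → False := by
    intro a ha b hb a' ha' b' hb'
    exact hC4 a ((hY1mem a).1 ha) b ((hY1mem b).1 hb) a' ((hY1mem a').1 ha') b'
      ((hY1mem b').1 hb')
  -- the atypical vertices
  have hAtdeg : ∀ u ∈ At, ξ / 4 * n ≤ ((G.neighborFinset u ∩ Y1).card : ℝ) := by
    intro u hu
    have h1 := ((hAtmem u).1 hu).2
    have h2 : (dg G X u : ℝ) + dg G Y u = G.degree u := by
      exact_mod_cast e3_dg_add G X u
    have h3 := hdeg u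
    have h4 : (dg G Y u : ℝ) ≤ (G.neighborFinset u ∩ Y1).card + K := by
      have h5 : (G.neighborFinset u ∩ Y) ⊆ (G.neighborFinset u ∩ Y1) ∪ E := by
        intro z hz
        rw [Finset.mem_inter] at hz
        rw [Finset.mem_union, Finset.mem_inter]
        rcases hYsplit z hz.2 with h | h
        · exact Or.inl ⟨hz.1, h⟩
        · exact Or.inr h
      have h6 : (G.neighborFinset u ∩ Y).card ≤ (G.neighborFinset u ∩ Y1).card + K :=
        (Finset.card_le_card h5).trans ((Finset.card_union_le _ _).trans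
          (Nat.add_le_add_left hEc _))
      exact_mod_cast h6
    nlinarith
  have hpair : ∀ u ∈ Y1, ∀ w ∈ Y1, u ≠ w →
      ((G.neighborFinset u ∩ Y1) ∩ (G.neighborFinset w ∩ Y1)).card ≤ 1 := by
    intro u hu w hw huw
    rw [Finset.card_le_one]
    intro b hb b' hb'
    by_contra hne
    simp only [Finset.mem_inter, SimpleGraph.mem_neighborFinset] at hb hb'
    exact hC4' u hu b hb.1.2 w hw b' hb'.1.2 huw hne hb.1.1 hb.2.1.symm hb'.2.1 hb'.1.1.symm
  have hAtc : At.card ≤ k1 := by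
    by_contra hcon
    push Not at hcon
    obtain ⟨S, hSsub, hScard⟩ := Finset.exists_subset_card_eq hcon.le
    have h1 := e3_union (fun u => G.neighborFinset u ∩ Y1) S (fun i hi j hj hij =>
      hpair i ((hAtmem i).1 (hSsub hi)).1 j ((hAtmem j).1 (hSsub hj)).1 hij)
    have h2 : (S.biUnion (fun u => G.neighborFinset u ∩ Y1)).card ≤ n := by
      rw [hnn]; exact Finset.card_le_univ _
    have h3 : (k1 : ℝ) * (ξ / 4 * n) ≤ ∑ i ∈ S, ((G.neighborFinset i ∩ Y1).card : ℝ) := by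
      have h4 : ∑ i ∈ S, (ξ / 4 * n) ≤ ∑ i ∈ S, ((G.neighborFinset i ∩ Y1).card : ℝ) :=
        Finset.sum_le_sum (fun i hi => hAtdeg i (hSsub hi))
      rw [Finset.sum_const, hScard, nsmul_eq_mul] at h4
      exact h4
    have h5 : ∑ i ∈ S, ((G.neighborFinset i ∩ Y1).card : ℝ) ≤ n + (k1 : ℝ) ^ 2 := by
      rw [hScard] at h1
      have h6 : ∑ i ∈ S, (G.neighborFinset i ∩ Y1).card ≤ n + k1 ^ 2 := by omega
      exact_mod_cast h6
    have h7 : (k1 : ℝ) ^ 2 < n := by
      have : k1 ^ 2 < n := by omega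
      exact_mod_cast this
    nlinarith
  have hY2X : ∀ u ∈ Y2, ((X \ G.neighborFinset u).card : ℝ) ≤ ξ * n := by
    intro u hu
    obtain ⟨h1, h2⟩ := (hY2mem u).1 hu
    have h3 : ¬ ((dg G X u : ℝ) < X.card - ξ * n) := fun h => h2 ((hAtmem u).2 ⟨h1, h⟩)
    push Not at h3
    have h4 := Finset.card_inter_add_card_sdiff X (G.neighborFinset u)
    have h5 : dg G X u = (X ∩ G.neighborFinset u).card := by
      unfold dg; rw [Finset.inter_comm]
    have h6 : ((X ∩ G.neighborFinset u).card : ℝ) + (X \ G.neighborFinset u).card = X.card := by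
      exact_mod_cast h4
    rw [h5] at h3
    linarith
  have hZc : n ≤ 32 * Z.card := by
    have h1 : (G.neighborFinset v ∩ Y) ⊆ Z ∪ (E ∪ At) := by
      intro z hz
      rw [Finset.mem_inter, SimpleGraph.mem_neighborFinset] at hz
      rw [Finset.mem_union, Finset.mem_union]
      rcases hYsplit z hz.2 with h | h
      · by_cases hA : z ∈ At
        · exact Or.inr (Or.inr hA)
        · exact Or.inl ((hZmem z).2 ⟨(hY2mem z).2 ⟨h, hA⟩, hz.1⟩)
      · exact Or.inr (Or.inl h)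
    have h2 : (G.neighborFinset v ∩ Y).card ≤ Z.card + (K + k1) :=
      (Finset.card_le_card h1).trans ((Finset.card_union_le _ _).trans
        (Nat.add_le_add_left ((Finset.card_union_le _ _).trans (Nat.add_le_add hEc hAtc)) _))
    have h3 : (n : ℝ) / 16 ≤ Z.card + (K + k1) := by
      refine hvY.trans ?_
      unfold dg
      exact_mod_cast h2
    have h4 : n ≤ 16 * (Z.card + (K + k1)) := by
      have h5 : (n : ℝ) ≤ 16 * (Z.card + (K + k1)) := by linarith
      exact_mod_cast h5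
    omega
  have hvY1 : v ∉ Y1 := by
    intro h
    have := ((hY1mem v).1 h).2
    linarith
  have hone : ∀ y ∈ Y2, (G.neighborFinset y ∩ Z).card ≤ 1 := by
    intro y hy
    rw [Finset.card_le_one]
    intro y1 hy1 y3 hy3
    by_contra hne
    simp only [Finset.mem_inter, SimpleGraph.mem_neighborFinset] at hy1 hy3
    have hz1 := (hZmem y1).1 hy1.2
    have hz3 := (hZmem y3).1 hy3.2
    have hvy : v ≠ y := by
      rintro rfl
      exact hvY1 ((hY2mem v).1 hy).1
    have h1 := hbook v y y1 y3 hvy hne hz1.2 hz3.2 hy1.1 hy3.1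
    rw [← hnn] at h1
    let T : Finset V := (X ∩ G.neighborFinset v).filter
      (fun z => G.Adj y z ∧ G.Adj y1 z ∧ G.Adj y3 z)
    have h2 : T.card ≤ ({z | G.Adj v z ∧ G.Adj y z ∧ G.Adj y1 z ∧ G.Adj y3 z} : Set V).ncard := by
      rw [← Set.ncard_coe_finset]
      apply Set.ncard_le_ncard _ (Set.toFinite _)
      intro z hz
      simp only [T, Finset.coe_filter, Finset.mem_inter, SimpleGraph.mem_neighborFinset,
        Set.mem_ofPred_eq] at hz ⊢
      exact ⟨hz.1.2, hz.2⟩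
    have h3 : (G.neighborFinset v ∩ X) ⊆ T ∪ ((X \ G.neighborFinset y) ∪
        ((X \ G.neighborFinset y1) ∪ (X \ G.neighborFinset y3))) := by
      intro z hz
      simp only [Finset.mem_inter, SimpleGraph.mem_neighborFinset] at hz
      simp only [T, Finset.mem_union, Finset.mem_filter, Finset.mem_inter, Finset.mem_sdiff,
        SimpleGraph.mem_neighborFinset]
      tauto
    have h4 : (G.neighborFinset v ∩ X).card ≤ T.card + ((X \ G.neighborFinset y).card +
        ((X \ G.neighborFinset y1).card + (X \ G.neighborFinset y3).card)) :=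
      (Finset.card_le_card h3).trans ((Finset.card_union_le _ _).trans
        (Nat.add_le_add_left ((Finset.card_union_le _ _).trans (Nat.add_le_add_left
          (Finset.card_union_le _ _) _)) _))
    have h5 : (dg G X v : ℝ) ≤ T.card + ((X \ G.neighborFinset y).card +
        ((X \ G.neighborFinset y1).card + (X \ G.neighborFinset y3).card)) := by
      unfold dg
      exact_mod_cast h4
    have h6 := hY2X y hy
    have h7 := hY2X y1 hz1.1
    have h8 := hY2X y3 hz3.1
    have h9 : (T.card : ℝ) ≤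
        (({z | G.Adj v z ∧ G.Adj y z ∧ G.Adj y1 z ∧ G.Adj y3 z} : Set V).ncard : ℝ) := by
      exact_mod_cast h2
    have h10 : c = 1 / 16 - 8 * ξ := by rw [hξdef]; ring
    rw [h10] at h1
    nlinarith
  -- the graph on Z
  obtain ⟨HZ, hHZ4, hHZe⟩ := hm₀ {x // x ∈ Z} (by
    rw [Fintype.card_coe]
    omega)
  rw [Fintype.card_coe] at hHZe
  let H : SimpleGraph V :=
    { Adj := fun a b => ((a ∈ Y2 ∧ a ∉ Z) ∧ (b ∈ Y2 ∧ b ∉ Z) ∧ G.Adj a b) ∨
        (∃ (ha : a ∈ Z) (hb : b ∈ Z), HZ.Adj ⟨a, ha⟩ ⟨b, hb⟩)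
      symm := by
        constructor
        intro a b h
        rcases h with ⟨h1, h2, h3⟩ | ⟨ha, hb, h⟩
        · exact Or.inl ⟨h2, h1, h3.symm⟩
        · exact Or.inr ⟨hb, ha, h.symm⟩
      loopless := by
        constructor
        intro a h
        rcases h with ⟨-, -, h3⟩ | ⟨ha, hb, h⟩
        · exact G.loopless.irrefl a h3
        · exact HZ.loopless.irrefl _ h }
  have hHadj : ∀ a b, H.Adj a b ↔ (((a ∈ Y2 ∧ a ∉ Z) ∧ (b ∈ Y2 ∧ b ∉ Z) ∧ G.Adj a b) ∨
        (∃ (ha : a ∈ Z) (hb : b ∈ Z), HZ.Adj ⟨a, ha⟩ ⟨b, hb⟩)) := fun a b => Iff.rfl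
  have hY2Y : ∀ u ∈ Y2, u ∈ Y := fun u hu => ((hY1mem u).1 ((hY2mem u).1 hu).1).1
  have hZY2 : ∀ u ∈ Z, u ∈ Y2 := fun u hu => ((hZmem u).1 hu).1
  have hHin : ∀ a b, a ∈ Z → H.Adj a b → ∃ (ha : a ∈ Z) (hb : b ∈ Z), HZ.Adj ⟨a, ha⟩ ⟨b, hb⟩ := by
    intro a b ha h
    rcases (hHadj a b).1 h with ⟨h1, -, -⟩ | h
    · exact absurd ha h1.2
    · exact h
  have hHout : ∀ a b, a ∉ Z → H.Adj a b → (a ∈ Y2 ∧ (b ∈ Y2 ∧ b ∉ Z) ∧ G.Adj a b) := by
    intro a b ha h
    rcases (hHadj a b).1 h with ⟨h1, h2, h3⟩ | ⟨h, -, -⟩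
    · exact ⟨h1.1, h2, h3⟩
    · exact absurd h ha
  refine ⟨H, ?_, ?_, ?_⟩
  · intro a _ b _ a' _ b' _ haa hbb h1 h2 h3 h4
    by_cases haZ : a ∈ Z
    · obtain ⟨_, hbZ, g1⟩ := hHin a b haZ h1
      obtain ⟨_, ha'Z, g2⟩ := hHin b a' hbZ h2
      obtain ⟨_, hb'Z, g3⟩ := hHin a' b' ha'Z h3
      obtain ⟨_, _, g4⟩ := hHin b' a hb'Z h4
      exact hHZ4 ⟨a, haZ⟩ trivial ⟨b, hbZ⟩ trivial ⟨a', ha'Z⟩ trivial ⟨b', hb'Z⟩ trivial
        (by simpa using haa) (by simpa using hbb) g1 g2 g3 g4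
    · obtain ⟨haY, hb, g1⟩ := hHout a b haZ h1
      obtain ⟨_, ha', g2⟩ := hHout b a' hb.2 h2
      obtain ⟨_, hb', g3⟩ := hHout a' b' ha'.2 h3
      obtain ⟨_, _, g4⟩ := hHout b' a hb'.2 h4
      exact hC4' a ((hY2mem a).1 haY).1 b ((hY2mem b).1 hb.1).1 a' ((hY2mem a').1 ha'.1).1
        b' ((hY2mem b').1 hb'.1).1 haa hbb g1 g2 g3 g4
  · intro a b h
    rcases (hHadj a b).1 h with ⟨h1, h2, -⟩ | ⟨ha, hb, -⟩
    · exact ⟨hY2Y a h1.1, hY2Y b h2.1⟩
    · exact ⟨hY2Y a (hZY2 a ha), hY2Y b (hZY2 b hb)⟩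
  · let E1 : Set (Sym2 V) := {e ∈ G.edgeSet | ∀ a ∈ e, a ∈ Y2 ∧ a ∉ Z}
    let E2 : Set (Sym2 V) := (Sym2.map (Subtype.val : {x // x ∈ Z} → V)) '' HZ.edgeSet
    let B1 : Finset (Sym2 V) := ((Y \ Y2) ×ˢ (Finset.univ : Finset V)).image
      (fun p => s(p.1, p.2))
    let B2 : Finset (Sym2 V) := Y2.biUnion
      (fun y => (G.neighborFinset y ∩ Z).image (fun z => s(y, z)))
    have hB1 : B1.card ≤ (K + k1) * n := by
      refine (Finset.card_image_le).trans ?_
      rw [Finset.card_product, Finset.card_univ, ← hnn]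
      refine Nat.mul_le_mul_right _ ?_
      have h1 : Y \ Y2 ⊆ E ∪ At := by
        intro z hz
        rw [Finset.mem_sdiff] at hz
        rw [Finset.mem_union]
        rcases hYsplit z hz.1 with h | h
        · by_contra hcon
          push Not at hcon
          exact hz.2 ((hY2mem z).2 ⟨h, hcon.2⟩)
        · exact Or.inl h
      exact (Finset.card_le_card h1).trans ((Finset.card_union_le _ _).trans
        (Nat.add_le_add hEc hAtc))
    have hB2 : B2.card ≤ n := by
      refine (Finset.card_biUnion_le).trans ?_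
      calc ∑ y ∈ Y2, ((G.neighborFinset y ∩ Z).image (fun z => s(y, z))).card
          ≤ ∑ y ∈ Y2, 1 := Finset.sum_le_sum (fun y hy =>
            (Finset.card_image_le).trans (hone y hy))
        _ = Y2.card := by simp
        _ ≤ n := by rw [hnn]; exact Finset.card_le_univ _
    have hcover : ({e ∈ G.edgeSet | ∀ a ∈ e, a ∈ Xᶜ} : Set (Sym2 V)) ⊆
        (E1 ∪ (B1 : Set (Sym2 V))) ∪ (B2 : Set (Sym2 V)) := by
      intro e
      induction e using Sym2.ind with
      | _ a b =>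
        rintro ⟨hab, hY⟩
        rw [SimpleGraph.mem_edgeSet] at hab
        have haY : a ∈ Y := hY a (Sym2.mem_mk_left a b)
        have hbY : b ∈ Y := hY b (Sym2.mem_mk_right a b)
        by_cases ha2 : a ∈ Y2
        · by_cases hb2 : b ∈ Y2
          · by_cases hbZ : b ∈ Z
            · right
              simp only [B2, Finset.coe_biUnion, Set.mem_iUnion]
              refine ⟨a, ha2, ?_⟩
              simp only [Finset.coe_image, Set.mem_image]
              exact ⟨b, by simp [hab, hbZ], rfl⟩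
            · by_cases haZ : a ∈ Z
              · right
                simp only [B2, Finset.coe_biUnion, Set.mem_iUnion]
                refine ⟨b, hb2, ?_⟩
                simp only [Finset.coe_image, Set.mem_image]
                exact ⟨a, by simp [hab.symm, haZ], Sym2.eq_swap⟩
              · left; left
                refine ⟨hab, ?_⟩
                intro z hz
                rw [Sym2.mem_iff] at hz
                rcases hz with rfl | rfl
                · exact ⟨ha2, haZ⟩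
                · exact ⟨hb2, hbZ⟩
          · left; right
            simp only [B1, Finset.coe_image, Set.mem_image]
            exact ⟨(b, a), by simp [hbY, hb2], Sym2.eq_swap⟩
        · left; right
          simp only [B1, Finset.coe_image, Set.mem_image]
          exact ⟨(a, b), by simp [haY, ha2], rfl⟩
    have h1 : ({e ∈ G.edgeSet | ∀ a ∈ e, a ∈ Xᶜ} : Set (Sym2 V)).ncard ≤
        E1.ncard + (K + k1) * n + n := by
      refine (Set.ncard_le_ncard hcover (Set.toFinite _)).trans ?_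
      refine (Set.ncard_union_le _ _).trans ?_
      refine Nat.add_le_add ((Set.ncard_union_le _ _).trans ?_) ?_
      · rw [Set.ncard_coe_finset]
        exact Nat.add_le_add_left hB1 _
      · rw [Set.ncard_coe_finset]
        exact hB2
    have h2 : E1 ∪ E2 ⊆ H.edgeSet := by
      intro e he
      rcases he with he | ⟨f, hf, rfl⟩
      · revert he
        induction e using Sym2.ind with
        | _ a b =>
          rintro ⟨hab, hY⟩
          rw [SimpleGraph.mem_edgeSet] at hab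
          rw [SimpleGraph.mem_edgeSet, hHadj]
          exact Or.inl ⟨hY a (Sym2.mem_mk_left a b), hY b (Sym2.mem_mk_right a b), hab⟩
      · revert hf
        induction f using Sym2.ind with
        | _ a b =>
          intro hf
          rw [SimpleGraph.mem_edgeSet] at hf
          rw [Sym2.map_mk, SimpleGraph.mem_edgeSet, hHadj]
          exact Or.inr ⟨a.2, b.2, hf⟩
    have h3 : Disjoint E1 E2 := by
      rw [Set.disjoint_left]
      rintro e he ⟨f, hf, rfl⟩
      revert he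
      induction f using Sym2.ind with
      | _ a b =>
        intro he
        have := he.2 a.1 (by rw [Sym2.map_mk]; exact Sym2.mem_mk_left _ _)
        exact this.2 a.2
    have h4 : (E1 ∪ E2).ncard = E1.ncard + E2.ncard :=
      Set.ncard_union_eq h3 (Set.toFinite _) (Set.toFinite _)
    have h5 : E2.ncard = HZ.edgeSet.ncard :=
      Set.ncard_image_of_injective _ (Sym2.map.injective Subtype.val_injective)
    have h6 : (E1 ∪ E2).ncard ≤ H.edgeSet.ncard := Set.ncard_le_ncard h2 (Set.toFinite _)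
    have h7 : (2 * K + k1 + 1) * n ≤ 32 * (2 * K + k1 + 1) * Z.card := by
      calc (2 * K + k1 + 1) * n ≤ (2 * K + k1 + 1) * (32 * Z.card) :=
            Nat.mul_le_mul_left _ hZc
        _ = 32 * (2 * K + k1 + 1) * Z.card := by ring
    nlinarith

end K22T.E3
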