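import Pool.Agent.K22T.Defs
import Pool.Agent.K22T.E0
import Pool.Agent.K22T.E1
import Pool.Agent.K22T.E2
import Pool.Agent.K22T.E3
set_option autoImplicit false
open Finset BigOperators

namespace K22T.E4
open K22T.E0 K22T.E1 K22T.E2 K22T.E3











theorem eg_dg_symm {V : Type*} [Fintype V] [DecidableEq V] (G : SimpleGraph V)
    [DecidableRel G.Adj] (X Y : Finset V) : ∑ v ∈ X, dg G Y v = ∑ v ∈ Y, dg G X v := by
  have h : ∀ (A B : Finset V), ∑ v ∈ A, dg G B v =
      ((A ×ˢ B).filter (fun p => G.Adj p.1 p.2)).card := by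
    intro A B
    rw [Finset.card_filter, Finset.sum_product]
    refine Finset.sum_congr rfl fun v _ => ?_
    rw [← Finset.card_filter]
    unfold dg
    congr 1
    ext w
    simp only [Finset.mem_inter, SimpleGraph.mem_neighborFinset, Finset.mem_filter]
    tauto
  rw [h, h]
  refine Finset.card_bij (fun p _ => (p.2, p.1)) ?_ ?_ ?_
  · intro p hp
    simp only [Finset.mem_filter, Finset.mem_product] at hp ⊢
    exact ⟨⟨hp.1.2, hp.1.1⟩, hp.2.symm⟩
  · rintro ⟨a, b⟩ _ ⟨a', b'⟩ _ hh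
    simp only [Prod.mk.injEq] at hh ⊢
    exact ⟨hh.2, hh.1⟩
  · rintro ⟨a, b⟩ hp
    simp only [Finset.mem_filter, Finset.mem_product] at hp
    exact ⟨(b, a), by
      simp only [Finset.mem_filter, Finset.mem_product]
      exact ⟨⟨hp.1.2, hp.1.1⟩, hp.2.symm⟩, rfl⟩

theorem eg_compl {V : Type*} [Fintype V] [DecidableEq V] {G : SimpleGraph V}
    [DecidableRel G.Adj] {γ : ℝ} {X : Finset V} (h : GoodCut G γ X) : GoodCut G γ Xᶜ := by
  obtain ⟨h1, h2, h3, h4, h5⟩ := h
  refine ⟨?_, ?_, h4, ?_, ?_⟩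
  · rw [compl_compl]; exact h2
  · rw [compl_compl]; exact h1
  · rw [compl_compl]; exact h3
  · rw [compl_compl]
    refine le_of_eq_of_le ?_ h5
    rw [Finset.sum_sub_distrib, Finset.sum_sub_distrib, Finset.sum_const, Finset.sum_const,
      nsmul_eq_mul, nsmul_eq_mul, mul_comm (Xᶜ.card : ℝ)]
    have := eg_dg_symm G X Xᶜ
    have h6 : ∑ v ∈ X, (dg G Xᶜ v : ℝ) = ∑ v ∈ Xᶜ, (dg G X v : ℝ) := by exact_mod_cast this
    rw [h6]

theorem eg_mono {V : Type*} [Fintype V] [DecidableEq V] {G : SimpleGraph V}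
    [DecidableRel G.Adj] {γ γ' : ℝ} {X : Finset V} (h : GoodCut G γ X) (hg : γ ≤ γ') :
    GoodCut G γ' X := by
  obtain ⟨h1, h2, h3, h4, h5⟩ := h
  have hn : (0 : ℝ) ≤ Fintype.card V := by positivity
  refine ⟨h1, h2, h3.trans ?_, h4.trans ?_, h5.trans ?_⟩
  · exact mul_le_mul_of_nonneg_right (by linarith) hn
  · exact mul_le_mul_of_nonneg_right (by linarith) hn
  · exact mul_le_mul_of_nonneg_right hg (by positivity)

theorem eg_case1 {V : Type} [Fintype V] [DecidableEq V] (G : SimpleGraph V) (X : Finset V)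
    (h1 : C4Free G (X : Set V)) (h2 : C4Free G ((X : Set V)ᶜ)) :
    ∃ H : SimpleGraph V, InQ H ∧ G.edgeSet.ncard ≤ H.edgeSet.ncard := by
  let H : SimpleGraph V :=
    { Adj := fun a b => G.Adj a b ∨ (a ∈ X ∧ b ∉ X) ∨ (a ∉ X ∧ b ∈ X)
      symm := ⟨by
        intro a b h
        rcases h with h | h | h
        · exact Or.inl h.symm
        · exact Or.inr (Or.inr ⟨h.2, h.1⟩)
        · exact Or.inr (Or.inl ⟨h.2, h.1⟩)⟩
      loopless := ⟨by
        intro a h
        rcases h with h | h | h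
        · exact G.loopless.irrefl a h
        · exact h.2 h.1
        · exact h.1 h.2⟩ }
  refine ⟨H, ⟨(X : Set V), ?_, ?_, ?_⟩, ?_⟩
  · intro a ha b hb
    exact Or.inr (Or.inl ⟨ha, hb⟩)
  · have key : ∀ a b, a ∈ (X : Set V) → b ∈ (X : Set V) → H.Adj a b → G.Adj a b := by
      intro a b ha hb h
      rcases h with h | h | h
      · exact h
      · exact absurd hb h.2
      · exact absurd ha h.1
    intro a ha b hb a' ha' b' hb' e1 e2 f1 f2 f3 f4
    exact h1 a ha b hb a' ha' b' hb' e1 e2 (key _ _ ha hb f1) (key _ _ hb ha' f2)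
      (key _ _ ha' hb' f3) (key _ _ hb' ha f4)
  · have key : ∀ a b, a ∈ (X : Set V)ᶜ → b ∈ (X : Set V)ᶜ → H.Adj a b → G.Adj a b := by
      intro a b ha hb h
      rcases h with h | h | h
      · exact h
      · exact absurd h.1 ha
      · exact absurd h.2 hb
    intro a ha b hb a' ha' b' hb' e1 e2 f1 f2 f3 f4
    exact h2 a ha b hb a' ha' b' hb' e1 e2 (key _ _ ha hb f1) (key _ _ hb ha' f2)
      (key _ _ ha' hb' f3) (key _ _ hb' ha f4)
  · refine Set.ncard_le_ncard ?_ (Set.toFinite _)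
    apply SimpleGraph.edgeSet_mono
    intro a b h
    exact Or.inl h

theorem eg_case2 {V : Type} [Fintype V] [DecidableEq V] (G : SimpleGraph V) (X E : Finset V)
    (K : ℕ) (hE : E.card ≤ K) (h1 : C4Free G {v | v ∈ X ∧ v ∉ E})
    (H0 : SimpleGraph V) (hH1 : C4Free H0 (X : Set V)ᶜ)
    (hH2 : ∀ a b, H0.Adj a b → a ∈ Xᶜ ∧ b ∈ Xᶜ)
    (hH3 : ({e ∈ G.edgeSet | ∀ a ∈ e, a ∈ Xᶜ} : Set (Sym2 V)).ncard + K * Fintype.card V
          ≤ H0.edgeSet.ncard) :
    ∃ H : SimpleGraph V, InQ H ∧ G.edgeSet.ncard ≤ H.edgeSet.ncard := by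
  let H : SimpleGraph V :=
    { Adj := fun a b => (G.Adj a b ∧ (a ∈ X ∧ a ∉ E) ∧ (b ∈ X ∧ b ∉ E)) ∨ H0.Adj a b ∨
        (a ∈ X ∧ b ∉ X) ∨ (a ∉ X ∧ b ∈ X)
      symm := ⟨by
        intro a b h
        rcases h with h | h | h | h
        · exact Or.inl ⟨h.1.symm, h.2.2, h.2.1⟩
        · exact Or.inr (Or.inl h.symm)
        · exact Or.inr (Or.inr (Or.inr ⟨h.2, h.1⟩))
        · exact Or.inr (Or.inr (Or.inl ⟨h.2, h.1⟩))⟩
      loopless := ⟨by
        intro a h
        rcases h with h | h | h | h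
        · exact G.loopless.irrefl a h.1
        · exact H0.loopless.irrefl a h
        · exact h.2 h.1
        · exact h.1 h.2⟩ }
  refine ⟨H, ⟨(X : Set V), ?_, ?_, ?_⟩, ?_⟩
  · intro a ha b hb
    exact Or.inr (Or.inr (Or.inl ⟨ha, hb⟩))
  · have key : ∀ a b, a ∈ (X : Set V) → b ∈ (X : Set V) → H.Adj a b →
        (G.Adj a b ∧ (a ∈ X ∧ a ∉ E) ∧ (b ∈ X ∧ b ∉ E)) := by
      intro a b ha hb h
      rcases h with h | h | h | h
      · exact h
      · exact absurd ha (Finset.mem_compl.1 (hH2 a b h).1)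
      · exact absurd hb h.2
      · exact absurd ha h.1
    intro a ha b hb a' ha' b' hb' e1 e2 f1 f2 f3 f4
    have g1 := key _ _ ha hb f1
    have g2 := key _ _ hb ha' f2
    have g3 := key _ _ ha' hb' f3
    have g4 := key _ _ hb' ha f4
    exact h1 a g1.2.1 b g1.2.2 a' g3.2.1 b' g3.2.2 e1 e2 g1.1 g2.1 g3.1 g4.1
  · have key : ∀ a b, a ∈ (X : Set V)ᶜ → b ∈ (X : Set V)ᶜ → H.Adj a b → H0.Adj a b := by
      intro a b ha hb h
      rcases h with h | h | h | h
      · exact absurd h.2.1.1 ha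
      · exact h
      · exact absurd h.1 ha
      · exact absurd h.2 hb
    intro a ha b hb a' ha' b' hb' e1 e2 f1 f2 f3 f4
    exact hH1 a ha b hb a' ha' b' hb' e1 e2 (key _ _ ha hb f1) (key _ _ hb ha' f2)
      (key _ _ ha' hb' f3) (key _ _ hb' ha f4)
  · set C : Set (Sym2 V) := {e | e ∈ G.edgeSet ∧ (∃ a ∈ e, a ∈ X) ∧ (∃ a ∈ e, a ∉ X)} with hC
    set A1 : Set (Sym2 V) := {e | e ∈ G.edgeSet ∧ ∀ a ∈ e, a ∈ X ∧ a ∉ E} with hA1
    set A2 : Set (Sym2 V) := {e | e ∈ G.edgeSet ∧ ∃ a ∈ e, a ∈ E} with hA2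
    set B : Set (Sym2 V) := {e ∈ G.edgeSet | ∀ a ∈ e, a ∈ Xᶜ} with hB
    have hcov : G.edgeSet ⊆ ((C ∪ A1) ∪ A2) ∪ B := by
      intro e he
      by_cases hx : ∃ a ∈ e, a ∈ X
      · by_cases hy : ∃ a ∈ e, a ∉ X
        · exact Or.inl (Or.inl (Or.inl ⟨he, hx, hy⟩))
        · push Not at hy
          by_cases hz : ∃ a ∈ e, a ∈ E
          · exact Or.inl (Or.inr ⟨he, hz⟩)
          · push Not at hz
            exact Or.inl (Or.inl (Or.inr ⟨he, fun a ha => ⟨hy a ha, hz a ha⟩⟩))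
      · push Not at hx
        exact Or.inr ⟨he, fun a ha => Finset.mem_compl.2 (hx a ha)⟩
    have hsub : C ∪ A1 ∪ H0.edgeSet ⊆ H.edgeSet := by
      rintro e ((he | he) | he)
      · obtain ⟨he, ⟨a, ha, hax⟩, ⟨b, hb, hbx⟩⟩ := he
        have hab : a ≠ b := fun h => hbx (h ▸ hax)
        have : e = s(a, b) := (Sym2.mem_and_mem_iff hab).1 ⟨ha, hb⟩
        rw [this, SimpleGraph.mem_edgeSet]
        exact Or.inr (Or.inr (Or.inl ⟨hax, hbx⟩))
      · obtain ⟨he, h⟩ := he
        induction e using Sym2.ind with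
        | _ a b =>
          rw [SimpleGraph.mem_edgeSet] at he ⊢
          exact Or.inl ⟨he, h a (Sym2.mem_mk_left a b), h b (Sym2.mem_mk_right a b)⟩
      · induction e using Sym2.ind with
        | _ a b =>
          rw [SimpleGraph.mem_edgeSet] at he ⊢
          exact Or.inr (Or.inl he)
    have hd1 : Disjoint C A1 := by
      rw [Set.disjoint_left]
      rintro e ⟨_, _, ⟨a, ha, hax⟩⟩ ⟨_, h⟩
      exact hax (h a ha).1
    have hH0 : ∀ e ∈ H0.edgeSet, ∀ a ∈ e, a ∉ X := by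
      intro e he a ha
      induction e using Sym2.ind with
      | _ u v =>
        rw [SimpleGraph.mem_edgeSet] at he
        have := hH2 u v he
        rw [Finset.mem_compl, Finset.mem_compl] at this
        rcases Sym2.mem_iff.1 ha with rfl | rfl
        · exact this.1
        · exact this.2
    have hd2 : Disjoint (C ∪ A1) H0.edgeSet := by
      rw [Set.disjoint_left]
      rintro e (⟨_, ⟨a, ha, hax⟩, _⟩ | ⟨_, h⟩) he0
      · exact hH0 e he0 a ha hax
      · induction e using Sym2.ind with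
        | _ u v => exact hH0 _ he0 u (Sym2.mem_mk_left u v) (h u (Sym2.mem_mk_left u v)).1
    have hA2c : A2.ncard ≤ K * Fintype.card V := by
      have hs : A2 ⊆ (fun p : V × V => s(p.1, p.2)) '' ((E ×ˢ (Finset.univ : Finset V) : Finset (V × V)) : Set (V × V)) := by
        rintro e ⟨_, a, ha, haE⟩
        obtain ⟨b, rfl⟩ := Sym2.mem_iff_exists.1 ha
        exact ⟨(a, b), by simp [haE], rfl⟩
      calc A2.ncard ≤ _ := Set.ncard_le_ncard hs (Set.toFinite _)
        _ ≤ ((E ×ˢ (Finset.univ : Finset V) : Finset (V × V)) : Set (V × V)).ncard :=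
            Set.ncard_image_le (Set.toFinite _)
        _ = E.card * Fintype.card V := by
            rw [Set.ncard_coe_finset, Finset.card_product, Finset.card_univ]
        _ ≤ _ := Nat.mul_le_mul_right _ hE
    have t1 : G.edgeSet.ncard ≤ C.ncard + A1.ncard + A2.ncard + B.ncard := by
      calc G.edgeSet.ncard ≤ (((C ∪ A1) ∪ A2) ∪ B).ncard := Set.ncard_le_ncard hcov (Set.toFinite _)
        _ ≤ ((C ∪ A1) ∪ A2).ncard + B.ncard := Set.ncard_union_le _ _
        _ ≤ (C ∪ A1).ncard + A2.ncard + B.ncard := by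
            have := Set.ncard_union_le (C ∪ A1) A2
            omega
        _ ≤ _ := by
            have := Set.ncard_union_le C A1
            omega
    have t2 : C.ncard + A1.ncard + H0.edgeSet.ncard ≤ H.edgeSet.ncard := by
      rw [← Set.ncard_union_eq hd1 (Set.toFinite _) (Set.toFinite _),
        ← Set.ncard_union_eq hd2 (Set.toFinite _) (Set.toFinite _)]
      exact Set.ncard_le_ncard hsub (Set.toFinite _)
    omega

/-- THE TARGET of this job -/
theorem endgame (c : ℝ) (hc0 : 0 < c) (hc : c < 1 / 16)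
    (superlin : ∀ L : ℕ, ∃ m₀ : ℕ, ∀ (W : Type) [Fintype W], m₀ ≤ Fintype.card W →
      ∃ H : SimpleGraph W, C4Free H Set.univ ∧ L * Fintype.card W ≤ H.edgeSet.ncard) :
    ∃ γ > (0 : ℝ), ∃ n₀ : ℕ, ∀ (V : Type) [Fintype V] [DecidableEq V]
      (G : SimpleGraph V) [DecidableRel G.Adj], n₀ ≤ Fintype.card V →
      (∀ v, (1 / 2 - γ) * Fintype.card V ≤ G.degree v) →
      (tri G : ℝ) ≤ γ * (Fintype.card V : ℝ) ^ 3 → NoBook G c →
      ∃ H : SimpleGraph V, InQ H ∧ G.edgeSet.ncard ≤ H.edgeSet.ncard := by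
  obtain ⟨gf, hgf, nf, hf⟩ := few_exceptional c hc0 hc
  obtain ⟨gc, hgc, nc, hcore⟩ := core_noexc c hc0 hc
  obtain ⟨ge, hge, ne, hexc⟩ := core_exc c hc0 hc (10 ^ 4) superlin
  set γ₁ := min gf (min gc ge) with hγ₁
  have hγ₁0 : 0 < γ₁ := lt_min hgf (lt_min hgc hge)
  have l1 : γ₁ ≤ gf := min_le_left _ _
  have l2 : γ₁ ≤ gc := (min_le_right _ _).trans (min_le_left _ _)
  have l3 : γ₁ ≤ ge := (min_le_right _ _).trans (min_le_right _ _)
  obtain ⟨g0, hg0, hcut⟩ := exists_goodCut γ₁ hγ₁0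
  refine ⟨min g0 γ₁, lt_min hg0 hγ₁0, max 1 (max nf (max nc ne)), ?_⟩
  intro V _ _ G _ hn hdeg htri hNB
  have n1 : 1 ≤ Fintype.card V := le_trans (le_max_left _ _) hn
  have n2 : nf ≤ Fintype.card V := le_trans ((le_max_left _ _).trans (le_max_right _ _)) hn
  have n3 : nc ≤ Fintype.card V :=
    le_trans (((le_max_left _ _).trans (le_max_right _ _)).trans (le_max_right _ _)) hn
  have n4 : ne ≤ Fintype.card V :=
    le_trans (((le_max_right _ _).trans (le_max_right _ _)).trans (le_max_right _ _)) hn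
  have : Nonempty V := Fintype.card_pos_iff.1 (by omega)
  have hV0 : (0 : ℝ) ≤ Fintype.card V := by positivity
  have hdeg' : ∀ g : ℝ, min g0 γ₁ ≤ g → ∀ v, (1 / 2 - g) * Fintype.card V ≤ G.degree v := by
    intro g hg v
    refine le_trans ?_ (hdeg v)
    exact mul_le_mul_of_nonneg_right (by linarith) hV0
  have k1 : min g0 γ₁ ≤ g0 := min_le_left _ _
  have k2 : min g0 γ₁ ≤ γ₁ := min_le_right _ _
  obtain ⟨X, hX⟩ := hcut V G (hdeg' g0 k1)
    (htri.trans (mul_le_mul_of_nonneg_right k1 (by positivity)))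
  have hXc : GoodCut G γ₁ Xᶜ := eg_compl hX
  have fX := hf V G X n2 (hdeg' gf (k2.trans l1)) hNB (eg_mono hX l1)
  have fXc := hf V G Xᶜ n2 (hdeg' gf (k2.trans l1)) hNB (eg_mono hXc l1)
  have cX := hcore V G X n3 (hdeg' gc (k2.trans l2)) hNB (eg_mono hX l2)
  have cXc := hcore V G Xᶜ n3 (hdeg' gc (k2.trans l2)) hNB (eg_mono hXc l2)
  by_cases hex : ∃ v, (Fintype.card V : ℝ) / 16 ≤ dg G X v ∧ (Fintype.card V : ℝ) / 16 ≤ dg G Xᶜ v
  · obtain ⟨v, hv1, hv2⟩ := hex
    obtain ⟨H0, a1, a2, a3⟩ := hexc V G X v n4 (hdeg' ge (k2.trans l3)) hNB (eg_mono hX l3)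
      cXc fXc hv1 hv2
    refine eg_case2 G X (X.filter (fun v => (Fintype.card V : ℝ) / 16 ≤ dg G X v)) (10 ^ 4) fX ?_
      H0 a1 a2 a3
    have : {v | v ∈ X ∧ v ∉ X.filter (fun v => (Fintype.card V : ℝ) / 16 ≤ dg G X v)} =
        {v | v ∈ X ∧ (dg G X v : ℝ) < (Fintype.card V : ℝ) / 16} := by
      ext u
      simp only [Set.mem_ofPred_eq, Finset.mem_filter, not_and, not_le]
      constructor
      · rintro ⟨b1, b2⟩
        exact ⟨b1, b2 b1⟩
      · rintro ⟨b1, b2⟩
        exact ⟨b1, fun _ => b2⟩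
    rw [this]
    exact cX
  · push Not at hex
    obtain ⟨m1, m2, _⟩ := hX
    apply eg_case1 G X
    · have : (X : Set V) = {v | v ∈ X ∧ (dg G X v : ℝ) < (Fintype.card V : ℝ) / 16} := by
        ext u
        simp only [Set.mem_ofPred_eq, Finset.mem_coe]
        constructor
        · intro hu
          refine ⟨hu, ?_⟩
          by_contra hc'
          push Not at hc'
          have b1 := hex u hc'
          have b2 : (dg G X u : ℝ) ≤ dg G Xᶜ u := by exact_mod_cast m1 u hu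
          linarith
        · exact fun h => h.1
      rw [this]
      exact cX
    · have : ((X : Set V)ᶜ) = {v | v ∈ Xᶜ ∧ (dg G Xᶜ v : ℝ) < (Fintype.card V : ℝ) / 16} := by
        ext u
        simp only [Set.mem_ofPred_eq, Set.mem_compl_iff, Finset.mem_coe, Finset.mem_compl]
        constructor
        · intro hu
          refine ⟨hu, ?_⟩
          by_contra hc'
          push Not at hc'
          have b2 : (dg G Xᶜ u : ℝ) ≤ dg G X u := by exact_mod_cast m2 u (Finset.mem_compl.2 hu)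
          have b1 := hex u (hc'.trans b2)
          linarith
        · exact fun h => h.1
      rw [this]
      exact cXc

end K22T.E4
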