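import Pool.Agent.K22T.Defs
set_option autoImplicit false
open Finset BigOperators

namespace K22T.E5


/-- incidence of a point and a line -/
def inc {p : ℕ} (P l : ZMod p × ZMod p) : Prop := P.2 = l.1 * P.1 + l.2

lemma inc_unique {p : ℕ} [Fact p.Prime] {P P' l l' : ZMod p × ZMod p}
    (h1 : inc P l) (h2 : inc P' l) (h3 : inc P l') (h4 : inc P' l') : P = P' ∨ l = l' := by
  unfold inc at h1 h2 h3 h4
  obtain ⟨x, y⟩ := P
  obtain ⟨x', y'⟩ := P'
  obtain ⟨a, b⟩ := l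
  obtain ⟨c, d⟩ := l'
  simp only at h1 h2 h3 h4
  have h : (a - c) * (x - x') = 0 := by
    linear_combination h3 - h1 - h4 + h2
  rcases mul_eq_zero.1 h with h | h
  · right
    have hac : a = c := sub_eq_zero.1 h
    subst hac
    have : b = d := by linear_combination h3 - h1
    rw [this]
  · left
    have hx : x = x' := sub_eq_zero.1 h
    subst hx
    rw [h1, h2]

/-- adjacency of the disjoint union of incidence graphs -/
def adjT {k p : ℕ} (u v : Fin k × (ZMod p × ZMod p) × Bool) : Prop :=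
  u.1 = v.1 ∧ ((u.2.2 = false ∧ v.2.2 = true ∧ inc u.2.1 v.2.1) ∨
    (u.2.2 = true ∧ v.2.2 = false ∧ inc v.2.1 u.2.1))

lemma adjT_symm {k p : ℕ} {u v : Fin k × (ZMod p × ZMod p) × Bool} (h : adjT u v) :
    adjT v u := by
  obtain ⟨h1, h2⟩ := h
  refine ⟨h1.symm, ?_⟩
  rcases h2 with ⟨a, b, c⟩ | ⟨a, b, c⟩
  · exact Or.inr ⟨b, a, c⟩
  · exact Or.inl ⟨b, a, c⟩

lemma adjT_irrefl {k p : ℕ} (u : Fin k × (ZMod p × ZMod p) × Bool) : ¬ adjT u u := by
  rintro ⟨_, ⟨a, b, _⟩ | ⟨a, b, _⟩⟩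
  · rw [a] at b; cases b
  · rw [a] at b; cases b

/-- disjoint union of incidence graphs -/
def GT (k p : ℕ) : SimpleGraph (Fin k × (ZMod p × ZMod p) × Bool) where
  Adj := adjT
  symm := ⟨fun _ _ h => adjT_symm h⟩
  loopless := ⟨adjT_irrefl⟩

lemma GT_free (k p : ℕ) [Fact p.Prime] : C4Free (GT k p) Set.univ := by
  intro a _ b _ a' _ b' _ haa hbb h1 h2 h3 h4
  obtain ⟨i, P, s⟩ := a
  obtain ⟨j, l, t⟩ := b
  obtain ⟨i', P', s'⟩ := a'
  obtain ⟨j', l', t'⟩ := b'
  obtain ⟨e1, h1⟩ := h1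
  obtain ⟨e2, h2⟩ := h2
  obtain ⟨e3, h3⟩ := h3
  obtain ⟨e4, h4⟩ := h4
  simp only at e1 e2 e3 e4 h1 h2 h3 h4
  subst e1 e2 e3
  cases s <;> cases t <;> cases s' <;> cases t' <;> simp at h1 h2 h3 h4
  · rcases inc_unique h1 h2 h4 h3 with h | h
    · exact haa (by rw [h])
    · exact hbb (by rw [h])
  · rcases inc_unique h1 h4 h2 h3 with h | h
    · exact hbb (by rw [h])
    · exact haa (by rw [h])

/-- the edges -/
def edgeT {k p : ℕ} {W : Type} (f : Fin k × (ZMod p × ZMod p) × Bool → W)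
    (q : Fin k × ZMod p × ZMod p × ZMod p) : Sym2 W :=
  s(f (q.1, (q.2.1, q.2.2.1 * q.2.1 + q.2.2.2), false), f (q.1, (q.2.2.1, q.2.2.2), true))

lemma edgeT_inj {k p : ℕ} {W : Type} (f : Fin k × (ZMod p × ZMod p) × Bool → W)
    (hf : Function.Injective f) : Function.Injective (edgeT f) := by
  rintro ⟨i, x, a, b⟩ ⟨i', x', a', b'⟩ h
  unfold edgeT at h
  rw [Sym2.eq_iff] at h
  rcases h with ⟨h1, h2⟩ | ⟨h1, h2⟩
  · have e1 := hf h1
    have e2 := hf h2
    simp only [Prod.mk.injEq] at e1 e2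
    obtain ⟨rfl, ⟨rfl, _⟩, _⟩ := e1
    obtain ⟨_, ⟨rfl, rfl⟩, _⟩ := e2
    rfl
  · have e1 := hf h1
    simp only [Prod.mk.injEq] at e1
    exact absurd e1.2.2 (by decide)

/-- four-cycle-free graphs with superlinearly many edges -/
theorem superlin (L : ℕ) : ∃ m₀ : ℕ, ∀ (W : Type) [Fintype W], m₀ ≤ Fintype.card W →
      ∃ H : SimpleGraph W, C4Free H Set.univ ∧ L * Fintype.card W ≤ H.edgeSet.ncard := by
  obtain ⟨p, hpL, hp⟩ := Nat.exists_infinite_primes (4 * L + 5)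
  have : Fact p.Prime := ⟨hp⟩
  refine ⟨2 * p ^ 2, ?_⟩
  intro W _ hW
  set m := Fintype.card W with hm
  have hp0 : 0 < p := hp.pos
  have hpp : 0 < 2 * p ^ 2 := by positivity
  set k := m / (2 * p ^ 2) with hk
  have hk1 : 1 ≤ k := (Nat.one_le_div_iff hpp).2 hW
  have hcard : Fintype.card (Fin k × (ZMod p × ZMod p) × Bool) = k * (2 * p ^ 2) := by
    rw [Fintype.card_prod, Fintype.card_prod, Fintype.card_prod, Fintype.card_fin, ZMod.card,
      Fintype.card_bool]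
    ring
  have hle : Fintype.card (Fin k × (ZMod p × ZMod p) × Bool) ≤ Fintype.card W := by
    rw [hcard, ← hm]; exact Nat.div_mul_le_self _ _
  obtain ⟨f⟩ := Function.Embedding.nonempty_of_card_le hle
  refine ⟨(GT k p).map f, ?_, ?_⟩
  · intro a _ b _ a' _ b' _ haa hbb h1 h2 h3 h4
    rw [SimpleGraph.map_adj] at h1 h2 h3 h4
    obtain ⟨u1, v1, g1, rfl, rfl⟩ := h1
    obtain ⟨v2, w1, g2, e2, rfl⟩ := h2
    obtain ⟨w2, z1, g3, e3, rfl⟩ := h3
    obtain ⟨z2, u2, g4, e4, e5⟩ := h4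
    have e2' := f.injective e2
    have e3' := f.injective e3
    have e4' := f.injective e4
    have e5' := f.injective e5
    subst e2' e3' e4' e5'
    exact GT_free k p _ (Set.mem_univ _) _ (Set.mem_univ _) _ (Set.mem_univ _) _ (Set.mem_univ _)
      (fun h => haa (by rw [h])) (fun h => hbb (by rw [h])) g1 g2 g3 g4
  · have hsub : Set.range (edgeT (fun x => f x)) ⊆ ((GT k p).map f).edgeSet := by
      rintro _ ⟨⟨i, x, a, b⟩, rfl⟩
      unfold edgeT
      rw [SimpleGraph.mem_edgeSet, SimpleGraph.map_adj]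
      exact ⟨(i, (x, a * x + b), false), (i, (a, b), true),
        ⟨rfl, Or.inl ⟨rfl, rfl, rfl⟩⟩, rfl, rfl⟩
    have h1 : (Set.range (edgeT (fun x => f x))).ncard ≤ ((GT k p).map f).edgeSet.ncard :=
      Set.ncard_le_ncard hsub (Set.toFinite _)
    have h2 : (Set.range (edgeT (fun x => f x))).ncard = k * p ^ 3 := by
      rw [← Set.image_univ, Set.ncard_image_of_injective _ (edgeT_inj _ f.injective),
        Set.ncard_univ, Nat.card_eq_fintype_card, Fintype.card_prod, Fintype.card_prod,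
        Fintype.card_prod, Fintype.card_fin, ZMod.card]
      ring
    rw [h2] at h1
    refine le_trans ?_ h1
    have h3 : m < 2 * p ^ 2 * (k + 1) := by
      have := Nat.lt_mul_div_succ m hpp
      exact this
    have h4 : m ≤ 4 * p ^ 2 * k := by nlinarith
    calc L * m ≤ L * (4 * p ^ 2 * k) := Nat.mul_le_mul_left _ h4
      _ = (4 * L) * (p ^ 2 * k) := by ring
      _ ≤ p * (p ^ 2 * k) := Nat.mul_le_mul_right _ (by omega)
      _ = k * p ^ 3 := by ring

end K22T.E5
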