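import Pool.Agent.K22T.Defs
set_option autoImplicit false
open Finset BigOperators

namespace K22T.E6


/-- edges inside `s` -/
def ES {V : Type} (G : SimpleGraph V) (s : Finset V) : Set (Sym2 V) :=
  {e | e ∈ G.edgeSet ∧ ∀ x ∈ e, x ∈ s}

theorem ES_comap {V : Type} [Fintype V] (G : SimpleGraph V) (s : Finset V) :
    (G.comap (fun x : {x // x ∈ s} => (x : V))).edgeSet.ncard = (ES G s).ncard := by
  have h : ES G s = Sym2.map (fun x : {x // x ∈ s} => (x : V)) ''
      (G.comap (fun x : {x // x ∈ s} => (x : V))).edgeSet := by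
    ext e
    induction e using Sym2.ind with
    | _ a b =>
    constructor
    · rintro ⟨h1, h2⟩
      have ha := h2 a (Sym2.mem_mk_left a b)
      have hb := h2 b (Sym2.mem_mk_right a b)
      refine ⟨s(⟨a, ha⟩, ⟨b, hb⟩), ?_, by simp⟩
      rw [SimpleGraph.mem_edgeSet] at h1 ⊢
      exact h1
    · rintro ⟨e', he', heq⟩
      induction e' using Sym2.ind with
      | _ a' b' =>
      rw [SimpleGraph.mem_edgeSet] at he'
      have he'' : G.Adj a' b' := he'
      rw [← heq]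
      refine ⟨?_, ?_⟩
      · simpa [SimpleGraph.mem_edgeSet] using he''
      · intro x hx
        simp only [Sym2.map_mk, Sym2.mem_iff] at hx
        rcases hx with rfl | rfl
        · exact a'.2
        · exact b'.2
  rw [h, Set.ncard_image_of_injective _ (Sym2.map.injective Subtype.val_injective)]

theorem nbr_comap {V : Type} [Fintype V] (G : SimpleGraph V) (s : Finset V) (v : {x // x ∈ s}) :
    ((G.comap (fun x : {x // x ∈ s} => (x : V))).neighborSet v).ncard =
      ({w : V | w ∈ s ∧ G.Adj v w}).ncard := by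
  have h : {w : V | w ∈ s ∧ G.Adj v w} = Subtype.val ''
      ((G.comap (fun x : {x // x ∈ s} => (x : V))).neighborSet v) := by
    ext w
    constructor
    · rintro ⟨h1, h2⟩
      exact ⟨⟨w, h1⟩, h2, rfl⟩
    · rintro ⟨w', hw', rfl⟩
      exact ⟨w'.2, hw'⟩
  rw [h, Set.ncard_image_of_injective _ Subtype.val_injective]

theorem ES_erase {V : Type} [Fintype V] [DecidableEq V] (G : SimpleGraph V) (s : Finset V) (v : V) :
    (ES G s).ncard ≤ (ES G (s.erase v)).ncard + ({w : V | w ∈ s ∧ G.Adj v w}).ncard := by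
  have h : ES G s ⊆ ES G (s.erase v) ∪ (fun w => s(v, w)) '' {w : V | w ∈ s ∧ G.Adj v w} := by
    intro e
    induction e using Sym2.ind with
    | _ a b =>
    rintro ⟨h1, h2⟩
    have ha := h2 a (Sym2.mem_mk_left a b)
    have hb := h2 b (Sym2.mem_mk_right a b)
    rw [SimpleGraph.mem_edgeSet] at h1
    by_cases hav : a = v
    · right
      subst hav
      exact ⟨b, ⟨hb, h1⟩, rfl⟩
    · by_cases hbv : b = v
      · right
        subst hbv
        exact ⟨a, ⟨ha, h1.symm⟩, Sym2.eq_swap⟩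
      · left
        refine ⟨by rw [SimpleGraph.mem_edgeSet]; exact h1, ?_⟩
        intro x hx
        rw [Sym2.mem_iff] at hx
        rcases hx with rfl | rfl
        · exact Finset.mem_erase.2 ⟨hav, ha⟩
        · exact Finset.mem_erase.2 ⟨hbv, hb⟩
  calc (ES G s).ncard ≤ _ := Set.ncard_le_ncard h (Set.toFinite _)
    _ ≤ (ES G (s.erase v)).ncard + ((fun w => s(v, w)) '' {w : V | w ∈ s ∧ G.Adj v w}).ncard :=
        Set.ncard_union_le _ _
    _ ≤ _ := by
        gcongr
        exact Set.ncard_image_le (Set.toFinite _)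

theorem noBook_comap {V : Type} [Fintype V] (G : SimpleGraph V) (s : Finset V) {c c₂ : ℝ}
    (h : NoBook G c) (hc : c * Fintype.card V ≤ c₂ * s.card) :
    NoBook (G.comap (fun x : {x // x ∈ s} => (x : V))) c₂ := by
  intro a a' b b' haa hbb h1 h2 h3 h4
  have h5 := h a a' b b' (fun h => haa (Subtype.ext h)) (fun h => hbb (Subtype.ext h)) h1 h2 h3 h4
  have h6 : ({z | (G.comap (fun x : {x // x ∈ s} => (x : V))).Adj a z ∧
      (G.comap (fun x : {x // x ∈ s} => (x : V))).Adj a' z ∧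
      (G.comap (fun x : {x // x ∈ s} => (x : V))).Adj b z ∧
      (G.comap (fun x : {x // x ∈ s} => (x : V))).Adj b' z} : Set {x // x ∈ s}).ncard ≤
      ({z | G.Adj a z ∧ G.Adj a' z ∧ G.Adj b z ∧ G.Adj b' z} : Set V).ncard := by
    refine Set.ncard_le_ncard_of_injOn Subtype.val ?_ (Subtype.val_injective.injOn) (Set.toFinite _)
    intro z hz
    exact hz
  rw [Fintype.card_coe]
  calc _ ≤ ((({z | G.Adj a z ∧ G.Adj a' z ∧ G.Adj b z ∧ G.Adj b' z} : Set V).ncard : ℕ) : ℝ) := by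
        exact_mod_cast h6
    _ < c * Fintype.card V := h5
    _ ≤ _ := hc

/-- reduction to graphs of large minimum degree -/
theorem deletion (q : ℕ → ℕ) (hstep : ∀ m : ℕ, (q m : ℝ) + m / 2 ≤ q (m + 1))
    (hlow : ∀ m : ℕ, (m : ℝ) ^ 2 / 4 - 1 ≤ q m)
    (H1 : ∀ c : ℝ, 0 < c → c < 1 / 16 → ∀ ε > (0 : ℝ), ∃ n₀ : ℕ,
      ∀ (V : Type) [Fintype V] (G : SimpleGraph V), n₀ ≤ Fintype.card V → NoBook G c →
      (G.edgeSet.ncard : ℝ) ≤ (1 / 4 + ε) * (Fintype.card V : ℝ) ^ 2)
    (H2 : ∀ c : ℝ, 0 < c → c < 1 / 16 → ∃ γ > (0 : ℝ), ∃ n₀ : ℕ,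
      ∀ (V : Type) [Fintype V] (G : SimpleGraph V), n₀ ≤ Fintype.card V →
      (∀ v, (1 / 2 - γ) * Fintype.card V ≤ (G.neighborSet v).ncard) → NoBook G c →
      G.edgeSet.ncard ≤ q (Fintype.card V))
    (c : ℝ) (hc0 : 0 < c) (hc : c < 1 / 16) :
    ∃ n₀ : ℕ, ∀ (V : Type) [Fintype V] (G : SimpleGraph V), n₀ ≤ Fintype.card V →
      NoBook G c → G.edgeSet.ncard ≤ q (Fintype.card V) := by
  classical
  -- constants
  set c₂ : ℝ := (c + 1 / 16) / 2 with hc₂
  have hc₂0 : 0 < c₂ := by linarith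
  have hcc : c < c₂ := by linarith
  have hc₂1 : c₂ < 1 / 16 := by linarith
  set η : ℝ := min (1 / 2) (1 - c / c₂) with hη
  have hη0 : 0 < η := by
    refine lt_min (by norm_num) ?_
    have : c / c₂ < 1 := (div_lt_one hc₂0).2 hcc
    linarith
  have hη1 : η ≤ 1 / 2 := min_le_left _ _
  have hcη : c ≤ c₂ * (1 - η) := by
    have h1 : η ≤ 1 - c / c₂ := min_le_right _ _
    have h2 : c / c₂ ≤ 1 - η := by linarith
    calc c = c₂ * (c / c₂) := by field_simp
      _ ≤ _ := by gcongr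
  obtain ⟨γ, hγ, n₂, H2'⟩ := H2 c₂ hc₂0 hc₂1
  set κ : ℝ := γ / 4 with hκ
  have hκ0 : 0 < κ := by positivity
  obtain ⟨n₁, H1'⟩ := H1 c₂ hc₂0 hc₂1 (κ * η / 2) (by positivity)
  obtain ⟨N₁, hN₁⟩ := exists_nat_ge (2 / η)
  obtain ⟨N₂, hN₂⟩ := exists_nat_ge (1 / (2 * κ))
  refine ⟨2 * n₁ + 2 * n₂ + N₁ + N₂ + 1, ?_⟩
  intro V _ G hn hG
  by_contra hcon
  push Not at hcon
  set n : ℕ := Fintype.card V with hnV
  have hn1 : (1 : ℝ) ≤ n := by exact_mod_cast (by omega : 1 ≤ n)
  have hnN1 : 2 / η ≤ (n : ℝ) := hN₁.trans (by exact_mod_cast (by omega : N₁ ≤ n))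
  have hnN2 : 1 / (2 * κ) ≤ (n : ℝ) := hN₂.trans (by exact_mod_cast (by omega : N₂ ≤ n))
  set f : Finset V → ℝ := fun s => ((ES G s).ncard : ℝ) - q s.card - κ * n * (n - s.card) with hf
  set 𝒮 : Finset (Finset V) := Finset.univ.filter (fun s => (1 - η) * n ≤ s.card) with h𝒮
  have huniv : (Finset.univ : Finset V) ∈ 𝒮 := by
    rw [h𝒮, Finset.mem_filter]
    refine ⟨Finset.mem_univ _, ?_⟩
    rw [Finset.card_univ, ← hnV]
    nlinarith
  obtain ⟨s, hs, hmax⟩ := 𝒮.exists_max_image f ⟨_, huniv⟩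
  have hsn : (1 - η) * n ≤ s.card := (Finset.mem_filter.1 hs).2
  have hsle : (s.card : ℝ) ≤ n := by exact_mod_cast s.card_le_univ
  have hhalf : (n : ℝ) / 2 ≤ s.card := by nlinarith
  have hESuniv : ES G Finset.univ = G.edgeSet := by
    ext e; simp [ES]
  have hfu : 1 ≤ f Finset.univ := by
    rw [hf]
    simp only [hESuniv, Finset.card_univ, ← hnV, sub_self, mul_zero, sub_zero]
    have : (q n : ℝ) + 1 ≤ G.edgeSet.ncard := by exact_mod_cast hcon
    linarith
  have hfs : 1 ≤ f s := hfu.trans (hmax _ huniv)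
  have hfs' : (q s.card : ℝ) + 1 + κ * n * (n - s.card) ≤ (ES G s).ncard := by
    have : f s = ((ES G s).ncard : ℝ) - q s.card - κ * n * (n - s.card) := rfl
    linarith
  -- the induced graph
  set G' := G.comap (fun x : {x // x ∈ s} => (x : V)) with hG'
  have hNB : NoBook G' c₂ := by
    apply noBook_comap G s hG
    calc c * n ≤ c₂ * (1 - η) * n := by gcongr
      _ = c₂ * ((1 - η) * n) := by ring
      _ ≤ c₂ * s.card := by gcongr
  have hsn1 : n₁ ≤ s.card := by
    have : (n₁ : ℝ) ≤ s.card := by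
      have h1 : (2 * n₁ : ℝ) ≤ n := by exact_mod_cast (by omega : 2 * n₁ ≤ n)
      linarith
    exact_mod_cast this
  have hsn2 : n₂ ≤ s.card := by
    have : (n₂ : ℝ) ≤ s.card := by
      have h1 : (2 * n₂ : ℝ) ≤ n := by exact_mod_cast (by omega : 2 * n₂ ≤ n)
      linarith
    exact_mod_cast this
  have hE1 := H1' {x // x ∈ s} G' (by rw [Fintype.card_coe]; exact hsn1) hNB
  rw [hG', ES_comap, Fintype.card_coe] at hE1
  have hq := hlow s.card
  have hdef : κ * n * (n - s.card) ≤ κ * η / 2 * n ^ 2 := by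
    have h1 : (s.card : ℝ) ^ 2 ≤ n ^ 2 := by gcongr
    have h2 : κ * η / 2 * (s.card : ℝ) ^ 2 ≤ κ * η / 2 * n ^ 2 := by gcongr
    nlinarith
  have hdef2 : (n : ℝ) - s.card ≤ η / 2 * n := by
    have hp : 0 < κ * n := by positivity
    have h1 : κ * n * (n - s.card) ≤ κ * n * (η / 2 * n) := by
      calc _ ≤ _ := hdef
        _ = _ := by ring
    exact le_of_mul_le_mul_left h1 hp
  have hηn : 1 ≤ η / 2 * n := by
    rw [div_le_iff₀ hη0] at hnN1
    linarith
  have hκn : 1 / 2 ≤ κ * n := by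
    rw [div_le_iff₀ (by positivity)] at hnN2
    linarith
  -- degrees
  have hdeg : ∀ v : {x // x ∈ s}, (1 / 2 - γ) * Fintype.card {x // x ∈ s} ≤
      (G'.neighborSet v).ncard := by
    intro v
    rw [hG', nbr_comap, Fintype.card_coe]
    have hcard : (s.erase (v : V)).card = s.card - 1 := Finset.card_erase_of_mem v.2
    have hspos : 1 ≤ s.card := Finset.card_pos.2 ⟨v, v.2⟩
    have hcardR : ((s.erase (v : V)).card : ℝ) = s.card - 1 := by
      rw [hcard, Nat.cast_sub hspos]; simp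
    have hmem : s.erase (v : V) ∈ 𝒮 := by
      rw [h𝒮, Finset.mem_filter]
      refine ⟨Finset.mem_univ _, ?_⟩
      rw [hcardR]
      nlinarith
    have h1 := hmax _ hmem
    have h2 : f (s.erase (v : V)) = ((ES G (s.erase (v : V))).ncard : ℝ) - q (s.card - 1)
        - κ * n * (n - (s.card - 1)) := by
      simp only [hf, hcardR]
      rw [hcard]
    have h3 : f s = ((ES G s).ncard : ℝ) - q s.card - κ * n * (n - s.card) := rfl
    have h4 : ((ES G s).ncard : ℝ) ≤ (ES G (s.erase (v : V))).ncard +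
        ({w : V | w ∈ s ∧ G.Adj v w}).ncard := by exact_mod_cast ES_erase G s v
    have h5 := hstep (s.card - 1)
    rw [Nat.sub_add_cancel hspos, Nat.cast_sub hspos, Nat.cast_one] at h5
    have h6 : γ * s.card ≥ 2 * (κ * n) := by
      have e0 : γ = 4 * κ := by rw [hκ]; ring
      have e1 : 4 * κ * ((n : ℝ) / 2) ≤ 4 * κ * s.card :=
        mul_le_mul_of_nonneg_left hhalf (by positivity)
      rw [e0]
      calc 2 * (κ * n) = 4 * κ * ((n : ℝ) / 2) := by ring
        _ ≤ _ := e1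
    have e2 : κ * n * ((n : ℝ) - ((s.card : ℝ) - 1)) = κ * n * (n - s.card) + κ * n := by ring
    rw [h2, h3, e2] at h1
    have e3 : (1 / 2 - γ) * (s.card : ℝ) = s.card / 2 - γ * s.card := by ring
    rw [e3]
    linarith
  have hfin := H2' {x // x ∈ s} G' (by rw [Fintype.card_coe]; exact hsn2) hdeg hNB
  rw [hG', ES_comap, Fintype.card_coe] at hfin
  have hfin' : ((ES G s).ncard : ℝ) ≤ q s.card := by exact_mod_cast hfin
  have h7 : 0 ≤ κ * n * (n - s.card) := by
    have : 0 ≤ (n : ℝ) - s.card := by linarith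
    positivity
  linarith

end K22T.E6
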