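import Pool.Agent.K22T.Defs
set_option autoImplicit false
open Finset BigOperators

namespace K22T.E7




theorem InQ.symm_class {V : Type*} {G : SimpleGraph V} {A : Set V}
    (h : (∀ a ∈ A, ∀ b ∈ Aᶜ, G.Adj a b) ∧ C4Free G A ∧ C4Free G Aᶜ) :
    (∀ a ∈ Aᶜ, ∀ b ∈ Aᶜᶜ, G.Adj a b) ∧ C4Free G Aᶜ ∧ C4Free G Aᶜᶜ := by
  rw [compl_compl]
  exact ⟨fun a ha b hb => (h.1 b hb a ha).symm, h.2.2, h.2.1⟩

theorem qset_finite (n : ℕ) :
    {m : ℕ | ∃ G : SimpleGraph (Fin n), InQ G ∧ G.edgeSet.ncard = m}.Finite := by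
  have h : {m : ℕ | ∃ G : SimpleGraph (Fin n), InQ G ∧ G.edgeSet.ncard = m} ⊆
      Set.range (fun G : SimpleGraph (Fin n) => G.edgeSet.ncard) := by
    rintro m ⟨G, -, hG⟩
    exact ⟨G, hG⟩
  exact (Set.finite_range _).subset h

theorem qbar_mem (n : ℕ) : ∃ G : SimpleGraph (Fin n), InQ G ∧ G.edgeSet.ncard = qbar n := by
  have h := Nat.sSup_mem (s := {m : ℕ | ∃ G : SimpleGraph (Fin n), InQ G ∧ G.edgeSet.ncard = m})
    ⟨_, ⊥, ⟨Set.univ, fun a _ b hb => absurd (Set.mem_univ b) hb,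
      fun a _ b _ a' _ b' _ _ _ h => absurd h (by simp),
      fun a ha => absurd (Set.mem_univ a) ha⟩, rfl⟩ (qset_finite n).bddAbove
  exact h

theorem le_qbar {V : Type} [Fintype V] (G : SimpleGraph V) (hG : InQ G) :
    G.edgeSet.ncard ≤ qbar (Fintype.card V) := by
  obtain ⟨A, h1, h2, h3⟩ := hG
  have e := Fintype.equivFin V
  have hcard : (G.comap e.symm).edgeSet.ncard = G.edgeSet.ncard := by
    rw [← Nat.card_coe_set_eq, ← Nat.card_coe_set_eq]
    exact Nat.card_congr (SimpleGraph.Iso.comap e.symm G).mapEdgeSet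
  apply le_csSup (qset_finite _).bddAbove
  refine ⟨G.comap e.symm, ⟨e.symm ⁻¹' A, ?_, ?_, ?_⟩, hcard⟩
  · intro a ha b hb
    exact h1 _ ha _ hb
  · intro a ha b hb a' ha' b' hb' haa hbb c1 c2 c3 c4
    exact h2 _ ha _ hb _ ha' _ hb' (e.symm.injective.ne haa) (e.symm.injective.ne hbb) c1 c2 c3 c4
  · intro a ha b hb a' ha' b' hb' haa hbb c1 c2 c3 c4
    exact h3 _ ha _ hb _ ha' _ hb' (e.symm.injective.ne haa) (e.symm.injective.ne hbb) c1 c2 c3 c4

/-- add a vertex joined to all of `B` -/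
def addV {V : Type*} (G : SimpleGraph V) (B : Set V) : SimpleGraph (Option V) where
  Adj x y := (∃ a b, x = some a ∧ y = some b ∧ G.Adj a b) ∨ (x = none ∧ ∃ b ∈ B, y = some b) ∨
    (y = none ∧ ∃ b ∈ B, x = some b)
  symm := ⟨fun x y h => by
    rcases h with ⟨a, b, rfl, rfl, h⟩ | h | h
    · exact Or.inl ⟨b, a, rfl, rfl, h.symm⟩
    · exact Or.inr (Or.inr h)
    · exact Or.inr (Or.inl h)⟩
  loopless := ⟨fun x h => by
    rcases h with ⟨a, b, h1, h2, h⟩ | ⟨h1, b, _, h2⟩ | ⟨h1, b, _, h2⟩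
    · rw [h1] at h2
      cases h2
      exact G.loopless.irrefl _ h
    · rw [h1] at h2
      cases h2
    · rw [h1] at h2
      cases h2⟩

theorem addV_InQ {V : Type*} (G : SimpleGraph V) (B : Set V)
    (h : (∀ a ∈ B, ∀ b ∈ Bᶜ, G.Adj a b) ∧ C4Free G B ∧ C4Free G Bᶜ) : InQ (addV G B) := by
  obtain ⟨h1, h2, h3⟩ := h
  have hss : ∀ a b, (addV G B).Adj (some a) (some b) → G.Adj a b := by
    intro a b h
    rcases h with ⟨a', b', h1, h2, h⟩ | ⟨h1, _⟩ | ⟨h1, _⟩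
    · cases h1
      cases h2
      exact h
    · cases h1
    · cases h1
  have hnone : ∀ y, (addV G B).Adj none y → y ∈ some '' B := by
    intro y h
    rcases h with ⟨a', b', h1, h2, h⟩ | ⟨_, b, hb, h1⟩ | ⟨_, b, _, h1⟩
    · cases h1
    · exact ⟨b, hb, h1.symm⟩
    · cases h1
  refine ⟨some '' B, ?_, ?_, ?_⟩
  · rintro _ ⟨a, ha, rfl⟩ b hb
    rcases b with _ | b
    · exact Or.inr (Or.inr ⟨rfl, a, ha, rfl⟩)
    · exact Or.inl ⟨a, b, rfl, rfl, h1 a ha b (fun hb' => hb ⟨b, hb', rfl⟩)⟩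
  · rintro _ ⟨a, ha, rfl⟩ _ ⟨b, hb, rfl⟩ _ ⟨a', ha', rfl⟩ _ ⟨b', hb', rfl⟩ haa hbb c1 c2 c3 c4
    exact h2 a ha b hb a' ha' b' hb' (fun h => haa (by rw [h])) (fun h => hbb (by rw [h]))
      (hss _ _ c1) (hss _ _ c2) (hss _ _ c3) (hss _ _ c4)
  · intro a ha b hb a' ha' b' hb' haa hbb c1 c2 c3 c4
    rcases a with _ | a
    · exact hb (hnone _ c1)
    rcases b with _ | b
    · exact ha (hnone _ c1.symm)
    rcases a' with _ | a'
    · exact hb (hnone _ c2.symm)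
    rcases b' with _ | b'
    · exact ha (hnone _ c4)
    exact h3 a (fun h => ha ⟨a, h, rfl⟩) b (fun h => hb ⟨b, h, rfl⟩) a' (fun h => ha' ⟨a', h, rfl⟩)
      b' (fun h => hb' ⟨b', h, rfl⟩) (fun h => haa (by rw [h])) (fun h => hbb (by rw [h]))
      (hss _ _ c1) (hss _ _ c2) (hss _ _ c3) (hss _ _ c4)

theorem addV_card {V : Type*} [Finite V] (G : SimpleGraph V) (B : Set V) :
    G.edgeSet.ncard + B.ncard ≤ (addV G B).edgeSet.ncard := by
  have hi1 : Function.Injective (Sym2.map (some : V → Option V)) :=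
    Sym2.map.injective (Option.some_injective V)
  have hi2 : Function.Injective (fun b : V => s((none : Option V), some b)) := by
    intro b b' h
    simp only [Sym2.eq_iff] at h
    rcases h with ⟨_, h⟩ | ⟨h, _⟩
    · exact Option.some_injective V h
    · cases h
  rw [← Set.ncard_image_of_injective G.edgeSet hi1, ← Set.ncard_image_of_injective B hi2,
    ← Set.ncard_union_eq]
  · apply Set.ncard_le_ncard _ (Set.toFinite _)
    rintro e (⟨e, he, rfl⟩ | ⟨b, hb, rfl⟩)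
    · induction e using Sym2.ind with
      | _ x y =>
        rw [Sym2.map_mk, SimpleGraph.mem_edgeSet]
        exact Or.inl ⟨x, y, rfl, rfl, he⟩
    · rw [SimpleGraph.mem_edgeSet]
      exact Or.inr (Or.inl ⟨rfl, b, hb, rfl⟩)
  · rw [Set.disjoint_left]
    rintro e ⟨e, he, rfl⟩ ⟨b, hb, h⟩
    induction e using Sym2.ind with
    | _ x y =>
      rw [Sym2.map_mk] at h
      simp only [Sym2.eq_iff] at h
      rcases h with ⟨h, _⟩ | ⟨h, _⟩ <;> cases h

theorem qbar_step_nat (m : ℕ) : 2 * qbar m + m ≤ 2 * qbar (m + 1) := by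
  obtain ⟨G, ⟨A, hA⟩, hG⟩ := qbar_mem m
  obtain ⟨B, hB, hBm⟩ : ∃ B : Set (Fin m), ((∀ a ∈ B, ∀ b ∈ Bᶜ, G.Adj a b) ∧ C4Free G B ∧
      C4Free G Bᶜ) ∧ m ≤ 2 * B.ncard := by
    have hsum : A.ncard + Aᶜ.ncard = m := by
      rw [Set.ncard_add_ncard_compl]
      simp
    by_cases h : m ≤ 2 * A.ncard
    · exact ⟨A, hA, h⟩
    · exact ⟨Aᶜ, InQ.symm_class hA, by omega⟩
  have h1 := le_qbar (addV G B) (addV_InQ G B hB)
  have h2 := addV_card G B
  rw [Fintype.card_option, Fintype.card_fin] at h1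
  omega

theorem qbar_step (m : ℕ) : (qbar m : ℝ) + m / 2 ≤ qbar (m + 1) := by
  have h := qbar_step_nat m
  have h' : 2 * (qbar m : ℝ) + m ≤ 2 * qbar (m + 1) := by exact_mod_cast h
  linarith

theorem qbar_low (m : ℕ) : (m : ℝ) ^ 2 / 4 - 1 ≤ qbar m := by
  have key : ∀ m : ℕ, m ^ 2 ≤ 4 * qbar m + m % 2 := by
    intro m
    induction m with
    | zero => simp
    | succ m ih =>
      have h := qbar_step_nat m
      rcases Nat.even_or_odd' m with ⟨k, rfl | rfl⟩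
      · have e1 : 2 * k % 2 = 0 := by omega
        have e2 : (2 * k + 1) % 2 = 1 := by omega
        rw [e1] at ih
        rw [e2]
        nlinarith
      · have e1 : (2 * k + 1) % 2 = 1 := by omega
        have e2 : (2 * k + 1 + 1) % 2 = 0 := by omega
        rw [e1] at ih
        rw [e2]
        have h2 : qbar (2 * k + 1) + k + 1 ≤ qbar (2 * k + 1 + 1) := by omega
        nlinarith
  have h := key m
  have h2 : m % 2 ≤ 1 := by omega
  have h3 : m ^ 2 ≤ 4 * qbar m + 1 := by omega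
  have h4 : (m : ℝ) ^ 2 ≤ 4 * qbar m + 1 := by exact_mod_cast h3
  linarith

end K22T.E7
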