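import Pool.Agent.K22T.RU
import Pool.Agent.K22T.E4
import Pool.Agent.K22T.E5
import Pool.Agent.K22T.E6
import Pool.Agent.K22T.E7
import Pool.Agent.K22T.Contain
set_option autoImplicit false
open Finset BigOperators

namespace K22T.Final

theorem min_degree_case (c : ℝ) (hc0 : 0 < c) (hc : c < 1 / 16) :
    ∃ γ > (0 : ℝ), ∃ n₀ : ℕ,
      ∀ (V : Type) [Fintype V] (G : SimpleGraph V), n₀ ≤ Fintype.card V →
      (∀ v, (1 / 2 - γ) * Fintype.card V ≤ (G.neighborSet v).ncard) → NoBook G c →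
      G.edgeSet.ncard ≤ qbar (Fintype.card V) := by
  obtain ⟨γE, hγE, nE, hE⟩ := E4.endgame c hc0 hc E5.superlin
  obtain ⟨γT, hγT, nT, hT⟩ := RU.reg_tri c hc0 hc γE hγE
  refine ⟨min γE γT, lt_min hγE hγT, max nE nT, ?_⟩
  intro V _ G hn hdeg hNB
  classical
  have hdeg' : ∀ v, (1 / 2 - min γE γT) * Fintype.card V ≤ G.degree v := by
    intro v
    have := hdeg v
    have e : (G.neighborSet v).ncard = G.degree v := by
      rw [← SimpleGraph.card_neighborSet_eq_degree, ← Nat.card_eq_fintype_card]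
      rfl
    rwa [e] at this
  have hn0 : (0 : ℝ) ≤ Fintype.card V := Nat.cast_nonneg _
  have hedge : (1 / 4 - γT) * (Fintype.card V : ℝ) ^ 2 ≤ (G.edgeSet.ncard : ℝ) := by
    have h1 : ∑ v, (G.degree v : ℝ) = 2 * (G.edgeSet.ncard : ℝ) := by
      have := G.sum_degrees_eq_twice_card_edges
      rw [Set.ncard_eq_toFinset_card']
      have h2 : G.edgeSet.toFinset.card = G.edgeFinset.card := by
        congr 1
      rw [h2]
      exact_mod_cast this
    have h3 : ∑ v : V, (1 / 2 - min γE γT) * (Fintype.card V : ℝ) ≤ ∑ v, (G.degree v : ℝ) :=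
      Finset.sum_le_sum fun v _ => hdeg' v
    rw [Finset.sum_const, Finset.card_univ, nsmul_eq_mul, h1] at h3
    have h4 : min γE γT ≤ γT := min_le_right _ _
    have h5 : (0 : ℝ) < γT := hγT
    nlinarith [mul_nonneg hn0 hn0, mul_nonneg (mul_nonneg hn0 hn0) (sub_nonneg.mpr h4),
      mul_nonneg (mul_nonneg hn0 hn0) h5.le]
  have htri := hT V G ((le_max_right _ _).trans hn) hNB hedge
  obtain ⟨H, hHQ, hHe⟩ := hE V G ((le_max_left _ _).trans hn) (by
    intro v
    refine le_trans ?_ (hdeg' v)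
    apply mul_le_mul_of_nonneg_right _ hn0
    have := min_le_left γE γT
    linarith) htri hNB
  exact hHe.trans (E7.le_qbar H hHQ)

theorem main_NoBook (c : ℝ) (hc0 : 0 < c) (hc : c < 1 / 16) :
    ∃ n₀ : ℕ, ∀ (V : Type) [Fintype V] (G : SimpleGraph V), n₀ ≤ Fintype.card V →
      NoBook G c → G.edgeSet.ncard ≤ qbar (Fintype.card V) :=
  E6.deletion qbar E7.qbar_step E7.qbar_low
    (fun c hc0 hc ε hε => RU.reg_upper c hc0 hc ε hε)
    (fun c hc0 hc => min_degree_case c hc0 hc) c hc0 hc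

theorem main (c : ℝ) (hc : c < 1 / 16) :
    ∃ n₀ : ℕ, ∀ n : ℕ, n₀ ≤ n → ∀ G : SimpleGraph (Fin n), qbar n + 1 ≤ G.edgeSet.ncard →
      ∃ t : ℕ, c * n ≤ t ∧ (Fin.K22 t).IsContained G := by
  have hc1 : max c (1 / 32) < 1 / 16 := max_lt hc (by norm_num)
  have hc0 : 0 < max c (1 / 32) := lt_of_lt_of_le (by norm_num) (le_max_right _ _)
  obtain ⟨n₀, h⟩ := main_NoBook (max c (1 / 32)) hc0 hc1
  refine ⟨n₀, fun n hn G hG => ?_⟩
  by_contra hcon
  have hNB : NoBook G (max c (1 / 32)) := by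
    by_contra hnb
    obtain ⟨t, ht, hK⟩ := Fin.exists_K22 G _ hnb
    refine hcon ⟨t, ?_, hK⟩
    rw [Fintype.card_fin] at ht
    refine le_trans ?_ ht
    exact mul_le_mul_of_nonneg_right (le_max_left _ _) (Nat.cast_nonneg _)
  have := h (Fin n) G (by simpa using hn) hNB
  rw [Fintype.card_fin] at this
  omega

end K22T.Final
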