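import Pool.Agent.K22T.Defs
set_option autoImplicit false
open Finset BigOperators

namespace K22T.R1

theorem R1_aux {V : Type*} [Fintype V] [DecidableEq V] (G : SimpleGraph V) [DecidableRel G.Adj]
    (A B : Finset V) (ε : ℝ) (hε : 0 < ε) (hunif : G.IsUniform ε A B)
    (hB : 0 < B.card) (S T : Finset V) (hS : S ⊆ B) (hT : T ⊆ A) (hSc : (B.card : ℝ) * ε ≤ S.card)
    (h : ∀ a ∈ T, ((G.edgeDensity A B : ℝ) + ε) * S.card < (S.filter (fun b => G.Adj a b)).card) :
    (T.card : ℝ) ≤ ε * A.card := by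
  by_contra hcon
  push Not at hcon
  have hTc : (A.card : ℝ) * ε ≤ T.card := by linarith
  have hu := hunif hT hS hTc hSc
  have hBr : (0 : ℝ) < B.card := by exact_mod_cast hB
  have hSpos : (0 : ℝ) < S.card := lt_of_lt_of_le (by positivity) hSc
  have hTpos : (0 : ℝ) < T.card := lt_of_le_of_lt (by positivity) hcon
  have hTne : T.Nonempty := Finset.card_pos.1 (by exact_mod_cast hTpos)
  have hcard : (G.interedges T S).card = ∑ a ∈ T, (S.filter (fun b => G.Adj a b)).card := by
    rw [SimpleGraph.interedges, Rel.interedges, Finset.card_filter, Finset.sum_product]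
    refine Finset.sum_congr rfl fun a _ => ?_
    rw [Finset.card_filter]
  have hdens : (G.edgeDensity T S : ℝ) = (∑ a ∈ T, ((S.filter (fun b => G.Adj a b)).card : ℝ)) /
      ((T.card : ℝ) * S.card) := by
    rw [SimpleGraph.edgeDensity_def, hcard]
    push_cast
    rfl
  have hgt : (G.edgeDensity A B : ℝ) + ε < G.edgeDensity T S := by
    rw [hdens, lt_div_iff₀ (by positivity)]
    calc ((G.edgeDensity A B : ℝ) + ε) * ((T.card : ℝ) * S.card)
        = ∑ a ∈ T, ((G.edgeDensity A B : ℝ) + ε) * S.card := by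
          rw [Finset.sum_const, nsmul_eq_mul]; ring
      _ < _ := Finset.sum_lt_sum_of_nonempty hTne h
  have := (abs_lt.1 hu).2
  linarith

/-- upper bound for the number of (possibly degenerate) four-cycles in an ε-uniform pair -/
theorem R1 {V : Type*} [Fintype V] [DecidableEq V] (G : SimpleGraph V) [DecidableRel G.Adj]
    (A B : Finset V) (ε : ℝ) (hε : 0 < ε) (hunif : G.IsUniform ε A B)
    (hd : ε ≤ ((G.edgeDensity A B : ℝ) + ε) ^ 2) :
    ∑ a ∈ A, ∑ a' ∈ A, ((B.filter (fun b => G.Adj a b ∧ G.Adj a' b)).card : ℝ) ^ 2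
      ≤ (((G.edgeDensity A B : ℝ) + ε) ^ 4 + 2 * ε) * ((A.card : ℝ) ^ 2 * (B.card : ℝ) ^ 2) := by
  set D : ℝ := (G.edgeDensity A B : ℝ) + ε with hD
  have hD0 : 0 < D := by
    have : (0 : ℝ) ≤ G.edgeDensity A B := by
      exact_mod_cast (G.edgeDensity_nonneg A B)
    linarith
  have hcB : ∀ a a', ((B.filter (fun b => G.Adj a b ∧ G.Adj a' b)).card : ℝ) ≤ B.card := by
    intro a a'
    exact_mod_cast Finset.card_filter_le _ _
  rcases Nat.eq_zero_or_pos B.card with hB0 | hB
  · have : B = ∅ := Finset.card_eq_zero.1 hB0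
    subst this
    simp
  have hBr : (0 : ℝ) < B.card := by exact_mod_cast hB
  rcases le_or_gt ε 1 with hε1 | hε1
  swap
  · have h1 : ∑ a ∈ A, ∑ a' ∈ A, ((B.filter (fun b => G.Adj a b ∧ G.Adj a' b)).card : ℝ) ^ 2
        ≤ ∑ a ∈ A, ∑ a' ∈ A, (B.card : ℝ) ^ 2 := by
      refine Finset.sum_le_sum fun a _ => Finset.sum_le_sum fun a' _ => ?_
      exact pow_le_pow_left₀ (by positivity) (hcB a a') 2
    refine h1.trans ?_
    rw [Finset.sum_const, Finset.sum_const, nsmul_eq_mul, nsmul_eq_mul, ← mul_assoc, ← pow_two]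
    have h2 : (0 : ℝ) ≤ (A.card : ℝ) ^ 2 * (B.card : ℝ) ^ 2 := by positivity
    have h3 : (1 : ℝ) ≤ D ^ 4 + 2 * ε := by nlinarith [pow_pos hD0 4]
    nlinarith
  -- bad vertices
  set Bad1 := A.filter (fun a => D * B.card < (B.filter (fun b => G.Adj a b)).card) with hBad1
  have hBad1c : (Bad1.card : ℝ) ≤ ε * A.card := by
    refine R1_aux G A B ε hε hunif hB B Bad1 (Finset.Subset.refl _) (Finset.filter_subset _ _) ?_ ?_
    · nlinarith
    · intro a ha
      exact (Finset.mem_filter.1 ha).2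
  -- bad partners
  have hpart : ∀ a ∈ A, a ∉ Bad1 →
      ((A.filter (fun a' => D ^ 2 * B.card <
        ((B.filter (fun b => G.Adj a b ∧ G.Adj a' b)).card : ℝ))).card : ℝ) ≤ ε * A.card := by
    intro a ha hab
    have hdeg : ((B.filter (fun b => G.Adj a b)).card : ℝ) ≤ D * B.card := by
      by_contra hcon
      push Not at hcon
      exact hab (Finset.mem_filter.2 ⟨ha, hcon⟩)
    rcases le_or_gt ((B.card : ℝ) * ε) ((B.filter (fun b => G.Adj a b)).card : ℝ) with hge | hlt
    · refine R1_aux G A B ε hε hunif hB (B.filter (fun b => G.Adj a b)) _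
        (Finset.filter_subset _ _) (Finset.filter_subset _ _) hge ?_
      intro a' ha'
      have h1 := (Finset.mem_filter.1 ha').2
      rw [Finset.filter_filter]
      refine lt_of_le_of_lt ?_ h1
      calc D * ((B.filter (fun b => G.Adj a b)).card : ℝ) ≤ D * (D * B.card) :=
            mul_le_mul_of_nonneg_left hdeg hD0.le
        _ = D ^ 2 * B.card := by ring
    · have : A.filter (fun a' => D ^ 2 * B.card <
        ((B.filter (fun b => G.Adj a b ∧ G.Adj a' b)).card : ℝ)) = ∅ := by
        rw [Finset.filter_eq_empty_iff]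
        intro a' _ hcon
        have h1 : ((B.filter (fun b => G.Adj a b ∧ G.Adj a' b)).card : ℝ) ≤
            ((B.filter (fun b => G.Adj a b)).card : ℝ) := by
          exact_mod_cast Finset.card_le_card (fun b hb => by
            rw [Finset.mem_filter] at hb ⊢
            exact ⟨hb.1, hb.2.1⟩)
        have h2 : (B.card : ℝ) * ε ≤ D ^ 2 * B.card := by nlinarith
        linarith
      rw [this]
      simp only [Finset.card_empty, Nat.cast_zero]
      positivity
  -- pointwise bound
  have hpt : ∀ a ∈ A, ∑ a' ∈ A, ((B.filter (fun b => G.Adj a b ∧ G.Adj a' b)).card : ℝ) ^ 2 ≤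
      A.card * (D ^ 2 * B.card) ^ 2 + (B.card : ℝ) ^ 2 * (ε * A.card) +
        (if a ∈ Bad1 then (B.card : ℝ) ^ 2 * A.card else 0) := by
    intro a ha
    by_cases hab : a ∈ Bad1
    · rw [if_pos hab]
      have h1 : ∑ a' ∈ A, ((B.filter (fun b => G.Adj a b ∧ G.Adj a' b)).card : ℝ) ^ 2 ≤
          ∑ a' ∈ A, (B.card : ℝ) ^ 2 :=
        Finset.sum_le_sum fun a' _ => pow_le_pow_left₀ (by positivity) (hcB a a') 2
      rw [Finset.sum_const, nsmul_eq_mul] at h1
      have h2 : (0 : ℝ) ≤ A.card * (D ^ 2 * B.card) ^ 2 + (B.card : ℝ) ^ 2 * (ε * A.card) := by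
        positivity
      nlinarith
    · rw [if_neg hab, add_zero]
      have h1 : ∑ a' ∈ A, ((B.filter (fun b => G.Adj a b ∧ G.Adj a' b)).card : ℝ) ^ 2 ≤
          ∑ a' ∈ A, ((D ^ 2 * B.card) ^ 2 + if D ^ 2 * B.card <
            ((B.filter (fun b => G.Adj a b ∧ G.Adj a' b)).card : ℝ) then (B.card : ℝ) ^ 2 else 0) := by
        refine Finset.sum_le_sum fun a' _ => ?_
        by_cases hc : D ^ 2 * B.card < ((B.filter (fun b => G.Adj a b ∧ G.Adj a' b)).card : ℝ)
        · rw [if_pos hc]
          have := pow_le_pow_left₀ (by positivity) (hcB a a') 2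
          nlinarith [sq_nonneg (D ^ 2 * (B.card : ℝ))]
        · rw [if_neg hc, add_zero]
          exact pow_le_pow_left₀ (by positivity) (not_lt.1 hc) 2
      rw [Finset.sum_add_distrib, Finset.sum_const, nsmul_eq_mul, ← Finset.sum_filter,
        Finset.sum_const, nsmul_eq_mul] at h1
      refine h1.trans ?_
      have h2 := hpart a ha hab
      have h3 : (0 : ℝ) ≤ (B.card : ℝ) ^ 2 := by positivity
      nlinarith
  refine (Finset.sum_le_sum hpt).trans ?_
  rw [Finset.sum_add_distrib, Finset.sum_const, nsmul_eq_mul, ← Finset.sum_filter,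
    Finset.sum_const, nsmul_eq_mul]
  have h4 : ((A.filter (fun a => a ∈ Bad1)).card : ℝ) ≤ ε * A.card := by
    refine le_trans ?_ hBad1c
    exact_mod_cast Finset.card_le_card (fun a ha => (Finset.mem_filter.1 ha).2)
  have h5 : (0 : ℝ) ≤ (B.card : ℝ) ^ 2 * A.card := by positivity
  nlinarith

end K22T.R1
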