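import Pool.Agent.K22T.Defs
set_option autoImplicit false
open Finset BigOperators

namespace K22T.R23

theorem card_inter {V : Type*} [Fintype V] [DecidableEq V] (G : SimpleGraph V)
    [DecidableRel G.Adj] (A B : Finset V) :
    ((G.interedges A B).card : ℝ) = ∑ b ∈ B, ∑ a ∈ A, (if G.Adj a b then (1 : ℝ) else 0) := by
  rw [SimpleGraph.interedges_def, Finset.card_filter, Finset.sum_product_right]
  push_cast
  rfl

/-- Sidorenko for the four-cycle: Cauchy-Schwarz twice -/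
theorem R2 {V : Type*} [Fintype V] [DecidableEq V] (G : SimpleGraph V) [DecidableRel G.Adj]
    (A B : Finset V) :
    ((G.interedges A B).card : ℝ) ^ 4 ≤ (A.card : ℝ) ^ 2 * (B.card : ℝ) ^ 2 *
      ∑ a ∈ A, ∑ a' ∈ A, ((B.filter (fun b => G.Adj a b ∧ G.Adj a' b)).card : ℝ) ^ 2 := by
  set m : V → V → ℝ := fun a b => if G.Adj a b then (1 : ℝ) else 0 with hm
  have hco : ∀ a a', ((B.filter (fun b => G.Adj a b ∧ G.Adj a' b)).card : ℝ) =
      ∑ b ∈ B, m a b * m a' b := by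
    intro a a'
    rw [Finset.card_filter]
    push_cast
    apply Finset.sum_congr rfl
    intro b _
    rw [hm]
    by_cases h1 : G.Adj a b <;> by_cases h2 : G.Adj a' b <;> simp [h1, h2]
  have he : ((G.interedges A B).card : ℝ) = ∑ b ∈ B, ∑ a ∈ A, m a b := card_inter G A B
  have h1 : (∑ b ∈ B, ∑ a ∈ A, m a b) ^ 2 ≤ (B.card : ℝ) * ∑ b ∈ B, (∑ a ∈ A, m a b) ^ 2 :=
    sq_sum_le_card_mul_sum_sq
  have h2 : ∑ b ∈ B, (∑ a ∈ A, m a b) ^ 2 =
      ∑ p ∈ A ×ˢ A, ∑ b ∈ B, m p.1 b * m p.2 b := by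
    rw [Finset.sum_comm]
    apply Finset.sum_congr rfl
    intro b _
    rw [sq, Finset.sum_mul_sum, Finset.sum_product]
  have h3 : (∑ p ∈ A ×ˢ A, ∑ b ∈ B, m p.1 b * m p.2 b) ^ 2 ≤
      ((A ×ˢ A).card : ℝ) * ∑ p ∈ A ×ˢ A, (∑ b ∈ B, m p.1 b * m p.2 b) ^ 2 :=
    sq_sum_le_card_mul_sum_sq
  have h4 : ∑ a ∈ A, ∑ a' ∈ A, ((B.filter (fun b => G.Adj a b ∧ G.Adj a' b)).card : ℝ) ^ 2 =
      ∑ p ∈ A ×ˢ A, (∑ b ∈ B, m p.1 b * m p.2 b) ^ 2 := by
    rw [Finset.sum_product]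
    apply Finset.sum_congr rfl; intro a _
    apply Finset.sum_congr rfl; intro a' _
    rw [hco]
  rw [h4, he]
  rw [h2] at h1
  set T := ∑ p ∈ A ×ˢ A, ∑ b ∈ B, m p.1 b * m p.2 b with hT
  have h5 : ((A ×ˢ A).card : ℝ) = (A.card : ℝ) ^ 2 := by
    rw [Finset.card_product]; push_cast; ring
  rw [h5] at h3
  set E := ∑ b ∈ B, ∑ a ∈ A, m a b with hE
  have h6 : (E ^ 2) ^ 2 ≤ ((B.card : ℝ) * T) ^ 2 := pow_le_pow_left₀ (sq_nonneg E) h1 2
  calc E ^ 4 = (E ^ 2) ^ 2 := by ring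
    _ ≤ ((B.card : ℝ) * T) ^ 2 := h6
    _ = (B.card : ℝ) ^ 2 * T ^ 2 := by ring
    _ ≤ (B.card : ℝ) ^ 2 * ((A.card : ℝ) ^ 2 * ∑ p ∈ A ×ˢ A, (∑ b ∈ B, m p.1 b * m p.2 b) ^ 2) :=
        mul_le_mul_of_nonneg_left h3 (sq_nonneg _)
    _ = _ := by ring

/-- few vertices have few neighbours -/
theorem R3 {V : Type*} [Fintype V] [DecidableEq V] (G : SimpleGraph V) [DecidableRel G.Adj]
    (A C : Finset V) (ε : ℝ) (hε : 0 < ε) (hε1 : ε ≤ 1) (hunif : G.IsUniform ε A C) :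
    ((C.filter (fun z => ((A.filter (fun a => G.Adj a z)).card : ℝ)
        < ((G.edgeDensity A C : ℝ) - ε) * A.card)).card : ℝ) ≤ ε * C.card := by
  by_contra hcon
  push Not at hcon
  set Bad := C.filter (fun z => ((A.filter (fun a => G.Adj a z)).card : ℝ)
        < ((G.edgeDensity A C : ℝ) - ε) * A.card) with hBad
  have hBpos : (0 : ℝ) < Bad.card := lt_of_le_of_lt (by positivity) hcon
  have hBne : Bad.Nonempty := by
    rw [← Finset.card_pos]; exact_mod_cast hBpos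
  have hApos : (0 : ℝ) < A.card := by
    obtain ⟨z, hz⟩ := hBne
    have h1 := (Finset.mem_filter.mp hz).2
    by_contra h0
    push Not at h0
    have hA0 : (A.card : ℝ) = 0 := le_antisymm h0 (Nat.cast_nonneg _)
    rw [hA0, mul_zero] at h1
    have : (0 : ℝ) ≤ ((A.filter (fun a => G.Adj a z)).card : ℝ) := Nat.cast_nonneg _
    linarith
  have h1 := hunif (Finset.Subset.refl A) (Finset.filter_subset _ _ : Bad ⊆ C)
    (by nlinarith) (by linarith)
  have h2 : ((G.interedges A Bad).card : ℝ) <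
      ((G.edgeDensity A C : ℝ) - ε) * A.card * Bad.card := by
    rw [card_inter]
    calc ∑ b ∈ Bad, ∑ a ∈ A, (if G.Adj a b then (1 : ℝ) else 0)
        < ∑ b ∈ Bad, ((G.edgeDensity A C : ℝ) - ε) * A.card := by
          apply Finset.sum_lt_sum_of_nonempty hBne
          intro z hz
          have h3 := (Finset.mem_filter.mp hz).2
          rw [Finset.card_filter] at h3
          push_cast at h3
          exact h3
      _ = _ := by rw [Finset.sum_const, nsmul_eq_mul]; ring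
  have h3 : ((G.edgeDensity A Bad : ℚ) : ℝ) < (G.edgeDensity A C : ℝ) - ε := by
    rw [SimpleGraph.edgeDensity_def]
    push_cast
    rw [div_lt_iff₀ (by positivity)]
    linarith
  rw [abs_lt] at h1
  linarith [h1.1]

end K22T.R23
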