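import Pool.Agent.K22T.Defs
import Pool.Agent.K22T.R1
import Pool.Agent.K22T.R23
set_option autoImplicit false
open Finset BigOperators

namespace K22T.R4
open K22T.R1 K22T.R23






section R4aux

variable {V : Type*} [Fintype V] [DecidableEq V] (G : SimpleGraph V) [DecidableRel G.Adj]

/-- indicator of adjacency -/
def r4e (x y : V) : ℝ := if G.Adj x y then 1 else 0

/-- number of closed walks of length four between `A` and `B` -/
def r4Q (A B : Finset V) : ℝ :=
  ∑ a ∈ A, ∑ a' ∈ A, ((B.filter (fun b => G.Adj a b ∧ G.Adj a' b)).card : ℝ) ^ 2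

theorem r4e_nonneg (x y : V) : 0 ≤ r4e G x y := by unfold r4e; split_ifs <;> norm_num

theorem r4e_le (x y : V) : r4e G x y ≤ 1 := by unfold r4e; split_ifs <;> norm_num

theorem r4Q_nonneg (A B : Finset V) : 0 ≤ r4Q G A B :=
  Finset.sum_nonneg fun _ _ => Finset.sum_nonneg fun _ _ => by positivity

theorem r4_card (B : Finset V) (a a' : V) :
    ((B.filter (fun b => G.Adj a b ∧ G.Adj a' b)).card : ℝ) =
      ∑ b ∈ B, r4e G a b * r4e G a' b := by
  rw [Finset.card_filter]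
  push_cast
  refine Finset.sum_congr rfl fun b _ => ?_
  unfold r4e
  by_cases h1 : G.Adj a b <;> by_cases h2 : G.Adj a' b <;> simp [h1, h2]

theorem r4_Q (A B : Finset V) : r4Q G A B = ∑ a ∈ A, ∑ a' ∈ A, ∑ b ∈ B, ∑ b' ∈ B,
    (r4e G a b * r4e G a' b) * (r4e G a b' * r4e G a' b') := by
  unfold r4Q
  refine Finset.sum_congr rfl fun a _ => Finset.sum_congr rfl fun a' _ => ?_
  rw [r4_card, sq, Finset.sum_mul_sum]

theorem r4_sumf (A : Finset V) (z : V) (f : V → ℝ) :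
    ∑ a ∈ A.filter (fun a => G.Adj a z), f a = ∑ a ∈ A, r4e G a z * f a := by
  rw [Finset.sum_filter]
  refine Finset.sum_congr rfl fun a _ => ?_
  unfold r4e
  split_ifs <;> simp

theorem r4_Qz (A B : Finset V) (z : V) :
    r4Q G (A.filter (fun a => G.Adj a z)) (B.filter (fun b => G.Adj b z)) =
      ∑ a ∈ A, ∑ a' ∈ A, ∑ b ∈ B, ∑ b' ∈ B,
        ((r4e G a b * r4e G a' b) * (r4e G a b' * r4e G a' b')) *
        (r4e G a z * r4e G a' z * (r4e G b z * r4e G b' z)) := by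
  rw [r4_Q, r4_sumf]
  refine Finset.sum_congr rfl fun a _ => ?_
  rw [r4_sumf, Finset.mul_sum]
  refine Finset.sum_congr rfl fun a' _ => ?_
  rw [r4_sumf, Finset.mul_sum, Finset.mul_sum]
  refine Finset.sum_congr rfl fun b _ => ?_
  rw [r4_sumf, Finset.mul_sum, Finset.mul_sum, Finset.mul_sum]
  refine Finset.sum_congr rfl fun b' _ => ?_
  ring

theorem r4_K (a a' b b' : V) :
    ∑ z, r4e G a z * r4e G a' z * (r4e G b z * r4e G b' z) =
      (({z | G.Adj a z ∧ G.Adj a' z ∧ G.Adj b z ∧ G.Adj b' z} : Set V).ncard : ℝ) := by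
  have h1 : ({z | G.Adj a z ∧ G.Adj a' z ∧ G.Adj b z ∧ G.Adj b' z} : Set V) =
      ((Finset.univ.filter fun z => G.Adj a z ∧ G.Adj a' z ∧ G.Adj b z ∧ G.Adj b' z :
        Finset V) : Set V) := by
    ext z; simp
  rw [h1, Set.ncard_coe_finset, Finset.card_filter]
  push_cast
  refine Finset.sum_congr rfl fun z _ => ?_
  unfold r4e
  by_cases h1 : G.Adj a z <;> by_cases h2 : G.Adj a' z <;> by_cases h3 : G.Adj b z <;>
    by_cases h4 : G.Adj b' z <;> simp [h1, h2, h3, h4]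

theorem r4_up (c : ℝ) (hc : 0 < c) (hG : NoBook G c) (A B : Finset V) :
    ∑ z, r4Q G (A.filter (fun a => G.Adj a z)) (B.filter (fun b => G.Adj b z)) ≤
      c * Fintype.card V * r4Q G A B + Fintype.card V *
        ((A.card : ℝ) * (B.card : ℝ) ^ 2 + (A.card : ℝ) ^ 2 * B.card) := by
  have e1 : ∑ z, r4Q G (A.filter (fun a => G.Adj a z)) (B.filter (fun b => G.Adj b z)) =
      ∑ a ∈ A, ∑ a' ∈ A, ∑ b ∈ B, ∑ b' ∈ B,
        ((r4e G a b * r4e G a' b) * (r4e G a b' * r4e G a' b')) *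
        ∑ z, (r4e G a z * r4e G a' z * (r4e G b z * r4e G b' z)) := by
    simp only [r4_Qz]
    rw [Finset.sum_comm]
    refine Finset.sum_congr rfl fun a _ => ?_
    rw [Finset.sum_comm]
    refine Finset.sum_congr rfl fun a' _ => ?_
    rw [Finset.sum_comm]
    refine Finset.sum_congr rfl fun b _ => ?_
    rw [Finset.sum_comm]
    refine Finset.sum_congr rfl fun b' _ => ?_
    rw [Finset.mul_sum]
  have hn : (0 : ℝ) ≤ Fintype.card V := by positivity
  have e2 : ∀ a a' b b' : V, ((r4e G a b * r4e G a' b) * (r4e G a b' * r4e G a' b')) *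
        ∑ z, (r4e G a z * r4e G a' z * (r4e G b z * r4e G b' z)) ≤
      c * Fintype.card V * ((r4e G a b * r4e G a' b) * (r4e G a b' * r4e G a' b')) +
      ((if a = a' then (Fintype.card V : ℝ) else 0) + (if b = b' then (Fintype.card V : ℝ) else 0))
      := by
    intro a a' b b'
    set E := (r4e G a b * r4e G a' b) * (r4e G a b' * r4e G a' b') with hE
    have hE0 : 0 ≤ E := by
      have := r4e_nonneg G
      exact mul_nonneg (mul_nonneg (this _ _) (this _ _)) (mul_nonneg (this _ _) (this _ _))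
    have hE1 : E ≤ 1 := by
      have h0 := r4e_nonneg G
      have h1 := r4e_le G
      have m1 : r4e G a b * r4e G a' b ≤ 1 := mul_le_one₀ (h1 _ _) (h0 _ _) (h1 _ _)
      have m2 : r4e G a b' * r4e G a' b' ≤ 1 := mul_le_one₀ (h1 _ _) (h0 _ _) (h1 _ _)
      exact mul_le_one₀ m1 (mul_nonneg (h0 _ _) (h0 _ _)) m2
    rw [r4_K]
    have hK : (({z | G.Adj a z ∧ G.Adj a' z ∧ G.Adj b z ∧ G.Adj b' z} : Set V).ncard : ℝ) ≤
        Fintype.card V := by
      have := Set.ncard_le_card (s := ({z | G.Adj a z ∧ G.Adj a' z ∧ G.Adj b z ∧ G.Adj b' z} : Set V))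
      rw [Nat.card_eq_fintype_card] at this
      exact_mod_cast this
    have hK0 : (0 : ℝ) ≤ (({z | G.Adj a z ∧ G.Adj a' z ∧ G.Adj b z ∧ G.Adj b' z} : Set V).ncard : ℝ)
      := by positivity
    have hdeg : E * (({z | G.Adj a z ∧ G.Adj a' z ∧ G.Adj b z ∧ G.Adj b' z} : Set V).ncard : ℝ) ≤
        Fintype.card V := by
      calc _ ≤ 1 * (Fintype.card V : ℝ) := mul_le_mul hE1 hK hK0 (by norm_num)
        _ = _ := one_mul _
    have hcE : 0 ≤ c * Fintype.card V * E := by positivity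
    by_cases h1 : a = a'
    · rw [if_pos h1]
      split_ifs <;> linarith
    by_cases h2 : b = b'
    · rw [if_pos h2, if_neg h1]
      linarith
    rw [if_neg h1, if_neg h2]
    by_cases h3 : G.Adj a b ∧ G.Adj a b' ∧ G.Adj a' b ∧ G.Adj a' b'
    · have h4 := hG a a' b b' h1 h2 h3.1 h3.2.1 h3.2.2.1 h3.2.2.2
      have h5 := mul_le_mul_of_nonneg_left h4.le hE0
      linarith
    · have hE00 : E = 0 := by
        rw [hE]
        unfold r4e
        by_cases g1 : G.Adj a b <;> by_cases g2 : G.Adj a' b <;> by_cases g3 : G.Adj a b' <;>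
          by_cases g4 : G.Adj a' b' <;> simp [g1, g2, g3, g4] <;> exact h3 ⟨g1, g3, g2, g4⟩
      rw [hE00]
      simp
  rw [e1]
  calc ∑ a ∈ A, ∑ a' ∈ A, ∑ b ∈ B, ∑ b' ∈ B,
        ((r4e G a b * r4e G a' b) * (r4e G a b' * r4e G a' b')) *
        ∑ z, (r4e G a z * r4e G a' z * (r4e G b z * r4e G b' z))
      ≤ ∑ a ∈ A, ∑ a' ∈ A, ∑ b ∈ B, ∑ b' ∈ B,
        (c * Fintype.card V * ((r4e G a b * r4e G a' b) * (r4e G a b' * r4e G a' b')) +
      ((if a = a' then (Fintype.card V : ℝ) else 0) + (if b = b' then (Fintype.card V : ℝ) else 0)))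
      := Finset.sum_le_sum fun a _ => Finset.sum_le_sum fun a' _ => Finset.sum_le_sum fun b _ =>
        Finset.sum_le_sum fun b' _ => e2 a a' b b'
    _ = _ := by
      rw [r4_Q]
      simp only [Finset.sum_add_distrib, ← Finset.mul_sum]
      rw [mul_add]
      congr 1
      have s1 : ∑ a ∈ A, ∑ a' ∈ A, ∑ _b ∈ B, ∑ _b' ∈ B, (if a = a' then (Fintype.card V : ℝ) else 0)
          = Fintype.card V * ((A.card : ℝ) * (B.card : ℝ) ^ 2) := by
        have : ∀ a ∈ A, ∑ a' ∈ A, ∑ _b ∈ B, ∑ _b' ∈ B, (if a = a' then (Fintype.card V : ℝ) else 0)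
            = (B.card : ℝ) ^ 2 * Fintype.card V := by
          intro a ha
          simp only [Finset.sum_const, nsmul_eq_mul]
          simp only [← Finset.mul_sum]
          rw [Finset.sum_ite_eq A a (fun _ => (Fintype.card V : ℝ)), if_pos ha]
          ring
        rw [Finset.sum_congr rfl this, Finset.sum_const, nsmul_eq_mul]
        ring
      have s2 : ∑ _a ∈ A, ∑ _a' ∈ A, ∑ b ∈ B, ∑ b' ∈ B, (if b = b' then (Fintype.card V : ℝ) else 0)
          = Fintype.card V * ((A.card : ℝ) ^ 2 * B.card) := by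
        have : ∑ b ∈ B, ∑ b' ∈ B, (if b = b' then (Fintype.card V : ℝ) else 0)
            = B.card * Fintype.card V := by
          have h : ∀ b ∈ B, ∑ b' ∈ B, (if b = b' then (Fintype.card V : ℝ) else 0)
              = Fintype.card V := by
            intro b hb
            rw [Finset.sum_ite_eq B b (fun _ => (Fintype.card V : ℝ)), if_pos hb]
          rw [Finset.sum_congr rfl h, Finset.sum_const, nsmul_eq_mul]
        simp only [this, Finset.sum_const, nsmul_eq_mul]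
        ring
      rw [s1, s2]

/-- lower bound for one vertex -/
theorem r4_low (A B : Finset V) (z : V) (ε α β : ℝ) (hε : 0 < ε) (hα : ε ≤ α) (hβ : ε ≤ β)
    (hunif : G.IsUniform ε A B) (hd : ε ≤ (G.edgeDensity A B : ℝ)) (hA : 0 < A.card)
    (hB : 0 < B.card)
    (h1 : α * A.card ≤ ((A.filter (fun a => G.Adj a z)).card : ℝ))
    (h2 : β * B.card ≤ ((B.filter (fun a => G.Adj a z)).card : ℝ)) :
    ((G.edgeDensity A B : ℝ) - ε) ^ 4 * (α ^ 2 * β ^ 2) * ((A.card : ℝ) ^ 2 * (B.card : ℝ) ^ 2) ≤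
      r4Q G (A.filter (fun a => G.Adj a z)) (B.filter (fun b => G.Adj b z)) := by
  set A1 := A.filter (fun a => G.Adj a z) with hA1
  set B1 := B.filter (fun a => G.Adj a z) with hB1
  have hA' : (0 : ℝ) < A.card := by exact_mod_cast hA
  have hB' : (0 : ℝ) < B.card := by exact_mod_cast hB
  have hα0 : 0 < α := lt_of_lt_of_le hε hα
  have hβ0 : 0 < β := lt_of_lt_of_le hε hβ
  have hA1' : (0 : ℝ) < A1.card := lt_of_lt_of_le (by positivity) h1
  have hB1' : (0 : ℝ) < B1.card := lt_of_lt_of_le (by positivity) h2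
  have hu := hunif (Finset.filter_subset (fun a => G.Adj a z) A)
    (Finset.filter_subset (fun a => G.Adj a z) B)
    (by rw [mul_comm]; exact (mul_le_mul_of_nonneg_right hα hA'.le).trans h1)
    (by rw [mul_comm]; exact (mul_le_mul_of_nonneg_right hβ hB'.le).trans h2)
  rw [← hA1, ← hB1] at hu
  have hdens : (G.edgeDensity A B : ℝ) - ε ≤ (G.edgeDensity A1 B1 : ℝ) := by
    have := (abs_lt.1 hu).1
    linarith
  have hR := R2 G A1 B1
  have hcard : ((G.interedges A1 B1).card : ℝ) = (G.edgeDensity A1 B1 : ℝ) * (A1.card * B1.card) := by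
    rw [SimpleGraph.edgeDensity_def]
    push_cast
    field_simp
  have hQ : (G.edgeDensity A1 B1 : ℝ) ^ 4 * ((A1.card : ℝ) ^ 2 * (B1.card : ℝ) ^ 2) ≤ r4Q G A1 B1 := by
    have h3 : (A1.card : ℝ) ^ 2 * (B1.card : ℝ) ^ 2 *
        ((G.edgeDensity A1 B1 : ℝ) ^ 4 * ((A1.card : ℝ) ^ 2 * (B1.card : ℝ) ^ 2)) ≤
        (A1.card : ℝ) ^ 2 * (B1.card : ℝ) ^ 2 * r4Q G A1 B1 := by
      rw [hcard] at hR
      calc _ = ((G.edgeDensity A1 B1 : ℝ) * (A1.card * B1.card)) ^ 4 := by ring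
        _ ≤ _ := hR
    exact le_of_mul_le_mul_left h3 (by positivity)
  refine le_trans ?_ hQ
  have hd0 : 0 ≤ (G.edgeDensity A B : ℝ) - ε := by linarith
  have m1 : ((G.edgeDensity A B : ℝ) - ε) ^ 4 ≤ (G.edgeDensity A1 B1 : ℝ) ^ 4 :=
    pow_le_pow_left₀ hd0 hdens 4
  have m2 : (α * A.card) ^ 2 ≤ (A1.card : ℝ) ^ 2 := pow_le_pow_left₀ (by positivity) h1 2
  have m3 : (β * B.card) ^ 2 ≤ (B1.card : ℝ) ^ 2 := pow_le_pow_left₀ (by positivity) h2 2
  calc ((G.edgeDensity A B : ℝ) - ε) ^ 4 * (α ^ 2 * β ^ 2) * ((A.card : ℝ) ^ 2 * (B.card : ℝ) ^ 2)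
      = ((G.edgeDensity A B : ℝ) - ε) ^ 4 * ((α * A.card) ^ 2 * (β * B.card) ^ 2) := by ring
    _ ≤ _ := mul_le_mul m1 (mul_le_mul m2 m3 (by positivity) (by positivity)) (by positivity)
        (by positivity)

end R4aux

open Classical in
/-- THE TARGET of this job: in a regular partition the reduced graph satisfies the codegree bound -/
theorem R4 (c c' δ : ℝ) (hc : 0 < c) (hcc : c < c') (hδ : 0 < δ) :
    ∃ ε0 > 0, ∀ ε : ℝ, 0 < ε → ε ≤ ε0 → ∃ M0 : ℕ, ∀ (V : Type) [Fintype V] [DecidableEq V]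
      (G : SimpleGraph V) [DecidableRel G.Adj], NoBook G c → ∀ P : Finset (Finset V),
      (∀ A ∈ P, ∀ B ∈ P, A ≠ B → Disjoint A B) → ∀ A ∈ P, ∀ B ∈ P, A ≠ B → G.IsUniform ε A B →
      δ ≤ (G.edgeDensity A B : ℝ) → M0 ≤ A.card → M0 ≤ B.card →
      ∑ C ∈ P.filter (fun C => G.IsUniform ε A C ∧ G.IsUniform ε B C ∧
          δ ≤ (G.edgeDensity A C : ℝ) ∧ δ ≤ (G.edgeDensity B C : ℝ)),
        (C.card : ℝ) * ((G.edgeDensity A C : ℝ) ^ 2 * (G.edgeDensity B C : ℝ) ^ 2)
        ≤ c' * Fintype.card V := by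
  -- choice of the parameters
  set φ : ℝ → ℝ := fun ε => c * ((1 + ε / δ) ^ 4 + 2 * ε / δ ^ 4) with hφ
  set ψ : ℝ → ℝ := fun ε => (1 - 2 * ε) * (1 - ε / δ) ^ 8 with hψ
  have hcont : Continuous fun ε => c' * ψ ε - φ ε := by
    simp only [hφ, hψ]
    fun_prop
  have h0 : 0 < c' * ψ 0 - φ 0 := by
    simp only [hφ, hψ]
    norm_num
    exact hcc
  obtain ⟨r, hr, hball⟩ := Metric.isOpen_iff.1 (hcont.isOpen_preimage _ isOpen_Ioi) 0
    (show (0 : ℝ) ∈ (fun ε => c' * ψ ε - φ ε) ⁻¹' Set.Ioi 0 from h0)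
  have hc' : 0 < c' := hc.trans hcc
  refine ⟨min (r / 2) (min (δ / 2) (min (δ ^ 2) (1 / 4))), by positivity, fun ε hε hε0 => ?_⟩
  have he1 : ε ≤ r / 2 := hε0.trans (min_le_left _ _)
  have he2 : ε ≤ δ / 2 := hε0.trans ((min_le_right _ _).trans (min_le_left _ _))
  have he3 : ε ≤ δ ^ 2 := hε0.trans ((min_le_right _ _).trans ((min_le_right _ _).trans
    (min_le_left _ _)))
  have he4 : ε ≤ 1 / 4 := hε0.trans ((min_le_right _ _).trans ((min_le_right _ _).trans
    (min_le_right _ _)))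
  have hgap : 0 < c' * ψ ε - φ ε := by
    have : ε ∈ Metric.ball (0 : ℝ) r := by
      rw [Metric.mem_ball, Real.dist_eq, sub_zero, abs_of_pos hε]
      linarith
    exact hball this
  set gap := c' * ψ ε - φ ε with hgapdef
  obtain ⟨M, hM⟩ := exists_nat_gt (2 / (gap * δ ^ 4))
  refine ⟨M + 1, ?_⟩
  intro V _ _ G _ hG P hP A hA B hB hAB hunif hdAB hMA hMB
  have hA0 : 0 < A.card := by omega
  have hB0 : 0 < B.card := by omega
  have hA' : (0 : ℝ) < A.card := by exact_mod_cast hA0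
  have hB' : (0 : ℝ) < B.card := by exact_mod_cast hB0
  set n : ℝ := (Fintype.card V : ℝ) with hn
  have hn0 : 0 ≤ n := by positivity
  set d : ℝ := (G.edgeDensity A B : ℝ) with hd
  have hd0 : 0 < d := lt_of_lt_of_le hδ hdAB
  have hε1 : ε ≤ 1 := by linarith
  -- upper bound
  have hup := r4_up G c hc hG A B
  have hR1 : r4Q G A B ≤ ((d + ε) ^ 4 + 2 * ε) * ((A.card : ℝ) ^ 2 * (B.card : ℝ) ^ 2) := by
    apply R1 G A B ε hε hunif
    have : δ ^ 2 ≤ (d + ε) ^ 2 := pow_le_pow_left₀ hδ.le (by linarith) 2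
    exact he3.trans this
  -- lower bound
  set F := P.filter (fun C => G.IsUniform ε A C ∧ G.IsUniform ε B C ∧
          δ ≤ (G.edgeDensity A C : ℝ) ∧ δ ≤ (G.edgeDensity B C : ℝ)) with hF
  set q : V → ℝ := fun z => r4Q G (A.filter (fun a => G.Adj a z)) (B.filter (fun b => G.Adj b z))
    with hq
  have hq0 : ∀ z, 0 ≤ q z := fun z => r4Q_nonneg G _ _
  have hsum : ∑ C ∈ F, ∑ z ∈ C, q z ≤ ∑ z, q z := by
    rw [← Finset.sum_biUnion]
    · exact Finset.sum_le_sum_of_subset_of_nonneg (Finset.subset_univ _) fun z _ _ => hq0 z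
    · intro C hC C' hC' hne
      exact hP C (Finset.mem_filter.1 hC).1 C' (Finset.mem_filter.1 hC').1 hne
  set t : ℝ := 1 - ε / δ with ht
  have hεδ : ε / δ ≤ 1 / 2 := by
    rw [div_le_iff₀ hδ]; linarith
  have ht0 : 1 / 2 ≤ t := by rw [ht]; linarith
  set W : ℝ := (A.card : ℝ) ^ 2 * (B.card : ℝ) ^ 2 with hW
  have hW0 : 0 < W := by positivity
  have htd : ∀ x : ℝ, δ ≤ x → t * x ≤ x - ε := by
    intro x hx
    have : ε ≤ ε / δ * x := by
      rw [div_mul_eq_mul_div, le_div_iff₀ hδ]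
      exact mul_le_mul_of_nonneg_left hx hε.le
    rw [ht]
    linarith
  have hlow : ∀ C ∈ F, (1 - 2 * ε) * C.card * (t ^ 8 * d ^ 4 * ((G.edgeDensity A C : ℝ) ^ 2 *
      (G.edgeDensity B C : ℝ) ^ 2) * W) ≤ ∑ z ∈ C, q z := by
    intro C hC
    obtain ⟨_, hAC, hBC, hdA, hdB⟩ := Finset.mem_filter.1 hC
    set α : ℝ := (G.edgeDensity A C : ℝ) - ε with hα
    set β : ℝ := (G.edgeDensity B C : ℝ) - ε with hβ
    set bad1 := C.filter (fun z => ((A.filter (fun a => G.Adj a z)).card : ℝ)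
        < ((G.edgeDensity A C : ℝ) - ε) * A.card) with hbad1
    set bad2 := C.filter (fun z => ((B.filter (fun a => G.Adj a z)).card : ℝ)
        < ((G.edgeDensity B C : ℝ) - ε) * B.card) with hbad2
    have hb1 : (bad1.card : ℝ) ≤ ε * C.card := R3 G A C ε hε hε1 hAC
    have hb2 : (bad2.card : ℝ) ≤ ε * C.card := R3 G B C ε hε hε1 hBC
    set good := C \ (bad1 ∪ bad2) with hgood
    have hsub : bad1 ∪ bad2 ⊆ C :=
      Finset.union_subset (Finset.filter_subset _ _) (Finset.filter_subset _ _)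
    have hgcard : (1 - 2 * ε) * C.card ≤ (good.card : ℝ) := by
      have h1 : good.card = C.card - (bad1 ∪ bad2).card := Finset.card_sdiff_of_subset hsub
      have h2 : (bad1 ∪ bad2).card ≤ bad1.card + bad2.card := Finset.card_union_le _ _
      have h3 : (bad1 ∪ bad2).card ≤ C.card := Finset.card_le_card hsub
      have h4 : (good.card : ℝ) = C.card - ((bad1 ∪ bad2).card : ℝ) := by
        rw [h1, Nat.cast_sub h3]
      have h5 : ((bad1 ∪ bad2).card : ℝ) ≤ bad1.card + bad2.card := by exact_mod_cast h2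
      rw [h4]
      linarith
    have hz : ∀ z ∈ good, t ^ 8 * d ^ 4 * ((G.edgeDensity A C : ℝ) ^ 2 *
        (G.edgeDensity B C : ℝ) ^ 2) * W ≤ q z := by
      intro z hz
      rw [hgood, Finset.mem_sdiff, Finset.mem_union, not_or] at hz
      obtain ⟨hzC, hz1, hz2⟩ := hz
      have h1 : α * A.card ≤ ((A.filter (fun a => G.Adj a z)).card : ℝ) := by
        by_contra hcon
        exact hz1 (Finset.mem_filter.2 ⟨hzC, not_le.1 hcon⟩)
      have h2 : β * B.card ≤ ((B.filter (fun a => G.Adj a z)).card : ℝ) := by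
        by_contra hcon
        exact hz2 (Finset.mem_filter.2 ⟨hzC, not_le.1 hcon⟩)
      have h3 := r4_low G A B z ε α β hε (by rw [hα]; linarith) (by rw [hβ]; linarith) hunif
        (by rw [← hd]; linarith) hA0 hB0 h1 h2
      refine le_trans ?_ h3
      rw [← hW]
      apply mul_le_mul_of_nonneg_right _ hW0.le
      have k1 : (t * d) ^ 4 ≤ (d - ε) ^ 4 := pow_le_pow_left₀ (by positivity) (htd d hdAB) 4
      have k2 : (t * (G.edgeDensity A C : ℝ)) ^ 2 ≤ α ^ 2 :=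
        pow_le_pow_left₀ (mul_nonneg (by linarith) (by linarith)) (htd _ hdA) 2
      have k3 : (t * (G.edgeDensity B C : ℝ)) ^ 2 ≤ β ^ 2 :=
        pow_le_pow_left₀ (mul_nonneg (by linarith) (by linarith)) (htd _ hdB) 2
      calc t ^ 8 * d ^ 4 * ((G.edgeDensity A C : ℝ) ^ 2 * (G.edgeDensity B C : ℝ) ^ 2)
          = (t * d) ^ 4 * ((t * (G.edgeDensity A C : ℝ)) ^ 2 *
            (t * (G.edgeDensity B C : ℝ)) ^ 2) := by ring
        _ ≤ (d - ε) ^ 4 * (α ^ 2 * β ^ 2) :=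
            mul_le_mul k1 (mul_le_mul k2 k3 (by positivity) (by positivity)) (by positivity)
              (by positivity)
    have hX0 : 0 ≤ t ^ 8 * d ^ 4 * ((G.edgeDensity A C : ℝ) ^ 2 *
        (G.edgeDensity B C : ℝ) ^ 2) * W := by positivity
    calc _ ≤ (good.card : ℝ) * (t ^ 8 * d ^ 4 * ((G.edgeDensity A C : ℝ) ^ 2 *
        (G.edgeDensity B C : ℝ) ^ 2) * W) := mul_le_mul_of_nonneg_right hgcard hX0
      _ = ∑ _z ∈ good, (t ^ 8 * d ^ 4 * ((G.edgeDensity A C : ℝ) ^ 2 *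
        (G.edgeDensity B C : ℝ) ^ 2) * W) := by rw [Finset.sum_const, nsmul_eq_mul]
      _ ≤ ∑ z ∈ good, q z := Finset.sum_le_sum hz
      _ ≤ ∑ z ∈ C, q z := Finset.sum_le_sum_of_subset_of_nonneg Finset.sdiff_subset
          fun z _ _ => hq0 z
  set S := ∑ C ∈ F, (C.card : ℝ) * ((G.edgeDensity A C : ℝ) ^ 2 * (G.edgeDensity B C : ℝ) ^ 2)
    with hS
  have hmain : (1 - 2 * ε) * t ^ 8 * d ^ 4 * W * S ≤
      c * n * (((d + ε) ^ 4 + 2 * ε) * W) +
        n * ((A.card : ℝ) * (B.card : ℝ) ^ 2 + (A.card : ℝ) ^ 2 * B.card) := by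
    calc (1 - 2 * ε) * t ^ 8 * d ^ 4 * W * S = ∑ C ∈ F, (1 - 2 * ε) * C.card *
          (t ^ 8 * d ^ 4 * ((G.edgeDensity A C : ℝ) ^ 2 * (G.edgeDensity B C : ℝ) ^ 2) * W) := by
          rw [hS, Finset.mul_sum]
          exact Finset.sum_congr rfl fun C _ => by ring
      _ ≤ ∑ C ∈ F, ∑ z ∈ C, q z := Finset.sum_le_sum hlow
      _ ≤ _ := hsum
      _ ≤ _ := hup
      _ ≤ _ := by
          have : c * n * r4Q G A B ≤ c * n * (((d + ε) ^ 4 + 2 * ε) * W) :=
            mul_le_mul_of_nonneg_left hR1 (by positivity)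
          linarith
  -- divide by `d ^ 4 * W`
  have hMr : (2 : ℝ) / (gap * δ ^ 4) < M := hM
  have hAM : (M : ℝ) ≤ A.card := by
    have : M ≤ A.card := by omega
    exact_mod_cast this
  have hBM : (M : ℝ) ≤ B.card := by
    have : M ≤ B.card := by omega
    exact_mod_cast this
  have hMpos : (0 : ℝ) < M := lt_trans (by positivity) hMr
  have hgM : 2 ≤ gap * δ ^ 4 * M := by
    rw [div_lt_iff₀ (by positivity)] at hMr
    linarith
  have hdeg : (A.card : ℝ) * (B.card : ℝ) ^ 2 + (A.card : ℝ) ^ 2 * B.card ≤ gap * d ^ 4 * W := by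
    have h1 : (A.card : ℝ) * (B.card : ℝ) ^ 2 * M ≤ W := by
      rw [hW]
      calc (A.card : ℝ) * (B.card : ℝ) ^ 2 * M ≤ (A.card : ℝ) * (B.card : ℝ) ^ 2 * A.card :=
            mul_le_mul_of_nonneg_left hAM (by positivity)
        _ = _ := by ring
    have h2 : (A.card : ℝ) ^ 2 * B.card * M ≤ W := by
      rw [hW]
      calc (A.card : ℝ) ^ 2 * B.card * M ≤ (A.card : ℝ) ^ 2 * B.card * B.card :=
            mul_le_mul_of_nonneg_left hBM (by positivity)
        _ = _ := by ring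
    have h3 : ((A.card : ℝ) * (B.card : ℝ) ^ 2 + (A.card : ℝ) ^ 2 * B.card) * M ≤
        (gap * d ^ 4 * W) * M := by
      have h4 : δ ^ 4 ≤ d ^ 4 := pow_le_pow_left₀ hδ.le hdAB 4
      have h5 : gap * δ ^ 4 * M ≤ gap * d ^ 4 * M := by
        apply mul_le_mul_of_nonneg_right _ hMpos.le
        exact mul_le_mul_of_nonneg_left h4 hgap.le
      calc ((A.card : ℝ) * (B.card : ℝ) ^ 2 + (A.card : ℝ) ^ 2 * B.card) * M ≤ 2 * W := by
            rw [add_mul]; linarith
        _ ≤ (gap * d ^ 4 * M) * W := mul_le_mul_of_nonneg_right (hgM.trans h5) hW0.le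
        _ = _ := by ring
    exact le_of_mul_le_mul_right h3 hMpos
  have hd4 : (d + ε) ^ 4 + 2 * ε ≤ d ^ 4 * ((1 + ε / δ) ^ 4 + 2 * ε / δ ^ 4) := by
    have h1 : d + ε ≤ d * (1 + ε / δ) := by
      have : ε ≤ ε / δ * d := by
        rw [div_mul_eq_mul_div, le_div_iff₀ hδ]
        exact mul_le_mul_of_nonneg_left hdAB hε.le
      linarith
    have h2 : (d + ε) ^ 4 ≤ (d * (1 + ε / δ)) ^ 4 := pow_le_pow_left₀ (by positivity) h1 4
    have h3 : 2 * ε ≤ d ^ 4 * (2 * ε / δ ^ 4) := by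
      rw [mul_div_assoc', le_div_iff₀ (by positivity), mul_comm (d ^ 4)]
      exact mul_le_mul_of_nonneg_left (pow_le_pow_left₀ hδ.le hdAB 4) (by positivity)
    rw [mul_add, ← mul_pow]
    linarith
  have hfin : d ^ 4 * W * (ψ ε * S) ≤ d ^ 4 * W * ((φ ε + gap) * n) := by
    calc d ^ 4 * W * (ψ ε * S) = (1 - 2 * ε) * t ^ 8 * d ^ 4 * W * S := by
          simp only [hψ, ht]; ring
      _ ≤ _ := hmain
      _ ≤ c * n * ((d ^ 4 * ((1 + ε / δ) ^ 4 + 2 * ε / δ ^ 4)) * W) + n * (gap * d ^ 4 * W) := by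
          apply add_le_add
          · apply mul_le_mul_of_nonneg_left _ (by positivity)
            exact mul_le_mul_of_nonneg_right hd4 hW0.le
          · exact mul_le_mul_of_nonneg_left hdeg hn0
      _ = _ := by simp only [hφ]; ring
  have hfin2 : ψ ε * S ≤ (φ ε + gap) * n := le_of_mul_le_mul_left hfin (by positivity)
  have hψ0 : 0 < ψ ε := by
    simp only [hψ]
    have h1 : 0 < 1 - 2 * ε := by linarith
    have h2 : 0 < 1 - ε / δ := by linarith
    positivity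
  have hfg : φ ε + gap = c' * ψ ε := by rw [hgapdef]; ring
  rw [hfg] at hfin2
  have : ψ ε * S ≤ ψ ε * (c' * n) := by linarith
  exact le_of_mul_le_mul_left this hψ0

end K22T.R4
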