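import Pool.Agent.K22T.Defs
import Pool.Agent.K22T.R4
set_option autoImplicit false
open Finset BigOperators

namespace K22T.RW
open K22T.R4



open Classical in


open Classical in
theorem sum_bad {V : Type} [Fintype V] [DecidableEq V] (G : SimpleGraph V) [DecidableRel G.Adj]
    (P : Finpartition (univ : Finset V)) (hV : (univ : Finset V).Nonempty) (η ε : ℝ) (hη : 0 < η)
    (hε : 0 < ε) (hεη : ε ≤ η / 8) (hP : P.IsEquipartition) (hU : P.IsUniform G ε)
    (hk : 8 / η ≤ P.parts.card) :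
    ∑ A ∈ P.parts, ∑ B ∈ P.parts, (if A ≠ B ∧ G.IsUniform ε A B ∧
      η / 8 ≤ (G.edgeDensity A B : ℝ) then (0 : ℝ) else ((G.interedges A B).card : ℝ))
      ≤ η * (Fintype.card V : ℝ) ^ 2 := by
  set n : ℝ := (Fintype.card V : ℝ) with hn
  set k : ℕ := P.parts.card with hkdef
  have hkn : k ≤ Fintype.card V := P.card_parts_le_card
  have hkn' : (k : ℝ) ≤ n := by rw [hn]; exact_mod_cast hkn
  have hkpos : 0 < (k : ℝ) := lt_of_lt_of_le (by positivity) hk
  have hnpos : 0 < n := lt_of_lt_of_le hkpos hkn'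
  have hsum : ∑ A ∈ P.parts, (A.card : ℝ) = n := by
    have := P.sum_card_parts
    rw [hn, ← Finset.card_univ, ← this]
    push_cast
    rfl
  have hmax : ∀ A ∈ P.parts, (A.card : ℝ) ≤ n / k + 1 := by
    intro A hA
    have h1 := hP.card_part_le_average_add_one hA
    rw [Finset.card_univ] at h1
    have h2 : ((Fintype.card V / k : ℕ) : ℝ) ≤ n / k := Nat.cast_div_le
    have h3 : (A.card : ℝ) ≤ ((Fintype.card V / k : ℕ) : ℝ) + 1 := by exact_mod_cast h1
    linarith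
  have hterm : ∀ A ∈ P.parts, ∀ B ∈ P.parts, (if A ≠ B ∧ G.IsUniform ε A B ∧
      η / 8 ≤ (G.edgeDensity A B : ℝ) then (0 : ℝ) else ((G.interedges A B).card : ℝ)) ≤
      (if A = B then (A.card : ℝ) ^ 2 else 0) +
      (if A ≠ B ∧ ¬ G.IsUniform ε A B then (A.card : ℝ) * B.card else 0) +
      η / 8 * ((A.card : ℝ) * B.card) := by
    intro A hA B hB
    have h0 : ((G.interedges A B).card : ℝ) ≤ (A.card : ℝ) * B.card := by
      exact_mod_cast G.card_interedges_le_mul A B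
    have hAB : 0 ≤ (A.card : ℝ) * B.card := by positivity
    have hAB' : 0 ≤ η / 8 * ((A.card : ℝ) * B.card) := by positivity
    by_cases h1 : A = B
    · rw [if_neg (by tauto), if_pos h1, if_neg (by tauto)]
      rw [← h1] at h0 hAB' ⊢
      nlinarith
    · by_cases h2 : G.IsUniform ε A B
      · by_cases h3 : η / 8 ≤ (G.edgeDensity A B : ℝ)
        · rw [if_pos ⟨h1, h2, h3⟩, if_neg h1, if_neg (by tauto)]
          linarith
        · rw [if_neg (by tauto), if_neg h1, if_neg (by tauto)]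
          have hd : ((G.interedges A B).card : ℝ) =
              (G.edgeDensity A B : ℝ) * ((A.card : ℝ) * B.card) := by
            rw [SimpleGraph.edgeDensity_def]
            have hA' : (A.card : ℝ) ≠ 0 := by
              have := P.nonempty_of_mem_parts hA
              exact_mod_cast this.card_pos.ne'
            have hB' : (B.card : ℝ) ≠ 0 := by
              have := P.nonempty_of_mem_parts hB
              exact_mod_cast this.card_pos.ne'
            push_cast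
            field_simp
          rw [hd]
          have h3' := (not_le.1 h3).le
          have := mul_le_mul_of_nonneg_right h3' hAB
          linarith
      · rw [if_neg (by tauto), if_neg h1, if_pos ⟨h1, h2⟩]
        linarith
  refine (Finset.sum_le_sum fun A hA => Finset.sum_le_sum fun B hB => hterm A hA B hB).trans ?_
  simp_rw [Finset.sum_add_distrib]
  have t1 : ∑ A ∈ P.parts, ∑ B ∈ P.parts, (if A = B then (A.card : ℝ) ^ 2 else 0) ≤
      η / 4 * n ^ 2 := by
    have e1 : ∑ A ∈ P.parts, ∑ B ∈ P.parts, (if A = B then (A.card : ℝ) ^ 2 else 0) =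
        ∑ A ∈ P.parts, (A.card : ℝ) ^ 2 := by
      refine Finset.sum_congr rfl fun A hA => ?_
      rw [Finset.sum_ite_eq, if_pos hA]
    rw [e1]
    have e2 : ∑ A ∈ P.parts, (A.card : ℝ) ^ 2 ≤ ∑ A ∈ P.parts, (n / k + 1) * A.card := by
      refine Finset.sum_le_sum fun A hA => ?_
      rw [sq]
      exact mul_le_mul_of_nonneg_right (hmax A hA) (Nat.cast_nonneg _)
    rw [← Finset.mul_sum, hsum] at e2
    have e3 : n / k ≤ η / 8 * n := by
      rw [div_le_iff₀ hkpos]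
      have : 8 ≤ η * k := by
        rw [div_le_iff₀ hη] at hk
        linarith
      nlinarith
    have e4 : 1 ≤ η / 8 * n := by
      have : 8 / η ≤ n := hk.trans hkn'
      rw [div_le_iff₀ hη] at this
      linarith
    nlinarith
  have t2 : ∑ A ∈ P.parts, ∑ B ∈ P.parts,
      (if A ≠ B ∧ ¬ G.IsUniform ε A B then (A.card : ℝ) * B.card else 0) ≤ η / 2 * n ^ 2 := by
    have e1 : ∑ A ∈ P.parts, ∑ B ∈ P.parts,
        (if A ≠ B ∧ ¬ G.IsUniform ε A B then (A.card : ℝ) * B.card else 0) =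
        ∑ i ∈ P.nonUniforms G ε, ((i.1.card : ℝ) * i.2.card) := by
      rw [← Finset.sum_product', ← Finset.sum_filter]
      refine Finset.sum_congr ?_ fun _ _ => rfl
      ext ⟨A, B⟩
      rw [Finpartition.mk_mem_nonUniforms]
      simp only [mem_filter, mem_product]
      tauto
    rw [e1]
    have e2 := hP.sum_nonUniforms_lt' hV hε hU
    rw [Finset.card_univ] at e2
    refine e2.le.trans ?_
    have e3 : (n + k) ^ 2 ≤ (2 * n) ^ 2 := by
      apply pow_le_pow_left₀ (by positivity)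
      linarith
    have e4 : ε * (n + k) ^ 2 ≤ η / 8 * (2 * n) ^ 2 :=
      mul_le_mul hεη e3 (by positivity) (by positivity)
    calc ε * (n + k) ^ 2 ≤ η / 8 * (2 * n) ^ 2 := e4
      _ = η / 2 * n ^ 2 := by ring
  have t3 : ∑ A ∈ P.parts, ∑ B ∈ P.parts, η / 8 * ((A.card : ℝ) * B.card) = η / 8 * n ^ 2 := by
    simp_rw [← Finset.mul_sum]
    rw [← Finset.sum_mul, hsum]
    ring
  rw [t3]
  nlinarith [mul_pos hη (pow_pos hnpos 2)]

open Classical in
/-- the weighted world attached to a graph by the regularity lemma -/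
theorem reg_world (c c' η : ℝ) (hc0 : 0 < c) (hcc : c < c') (hη : 0 < η) :
    ∃ n₀ : ℕ, ∀ (V : Type) [Fintype V] [DecidableEq V] (G : SimpleGraph V) [DecidableRel G.Adj],
      n₀ ≤ Fintype.card V → NoBook G c →
      ∃ (I : Type) (_ : Fintype I) (A : I → Finset V) (S : I → I → Prop),
        (∀ i j, S i j → S j i) ∧ (∀ i, ¬ S i i) ∧ (∀ i j, i ≠ j → Disjoint (A i) (A j)) ∧
        (∀ v, ∃ i, v ∈ A i) ∧
        Feas S c' (fun i => ((A i).card : ℝ) / Fintype.card V)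
          (fun i j => if S i j then (G.edgeDensity (A i) (A j) : ℝ) else 0) ∧
        ∑ i, ∑ j, (if S i j then (0 : ℝ) else ((G.interedges (A i) (A j)).card : ℝ))
          ≤ η * (Fintype.card V : ℝ) ^ 2 := by
  obtain ⟨ε0, hε0, hR⟩ := R4 c c' (η / 8) hc0 hcc (by positivity)
  obtain ⟨ε, hε⟩ : ∃ ε, ε = min ε0 (η / 8) := ⟨_, rfl⟩
  have hεpos : 0 < ε := by rw [hε]; exact lt_min hε0 (by positivity)
  have hε0' : ε ≤ ε0 := by rw [hε]; exact min_le_left _ _
  have hεη : ε ≤ η / 8 := by rw [hε]; exact min_le_right _ _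
  obtain ⟨M0, hR⟩ := hR ε hεpos hε0'
  obtain ⟨l, hl⟩ : ∃ l : ℕ, 8 / η ≤ l := ⟨_, Nat.le_ceil _⟩
  refine ⟨max (M0 * SzemerediRegularity.bound ε l) l, ?_⟩
  intro V _ _ G _ hn hNB
  have hln : l ≤ Fintype.card V := (le_max_right _ _).trans hn
  have hMn : M0 * SzemerediRegularity.bound ε l ≤ Fintype.card V := (le_max_left _ _).trans hn
  obtain ⟨P, hP1, hP2, hP3, hP4⟩ := szemeredi_regularity G hεpos hln
  have hlpos : 0 < (l : ℝ) := lt_of_lt_of_le (by positivity) hl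
  have hlpos' : 0 < l := by exact_mod_cast hlpos
  have hVpos : 0 < Fintype.card V := lt_of_lt_of_le hlpos' hln
  have hnpos : (0 : ℝ) < Fintype.card V := by exact_mod_cast hVpos
  have hVne : (univ : Finset V).Nonempty := by
    rw [← Finset.card_pos, Finset.card_univ]; exact hVpos
  have hk : 8 / η ≤ P.parts.card := hl.trans (by exact_mod_cast hP2)
  have hkpos : 0 < P.parts.card := lt_of_lt_of_le hlpos' hP2
  have hMcard : ∀ A ∈ P.parts, M0 ≤ A.card := by
    intro A hA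
    have h1 := hP1.average_le_card_part hA
    rw [Finset.card_univ] at h1
    refine le_trans ?_ h1
    rw [Nat.le_div_iff_mul_le hkpos]
    exact (Nat.mul_le_mul_left _ hP3).trans hMn
  have hdis : ∀ A ∈ P.parts, ∀ B ∈ P.parts, A ≠ B → Disjoint A B :=
    fun A hA B hB hAB => P.disjoint hA hB hAB
  refine ⟨{A // A ∈ P.parts}, inferInstance, fun i => i.1,
    fun i j => i.1 ≠ j.1 ∧ G.IsUniform ε i.1 j.1 ∧ η / 8 ≤ (G.edgeDensity i.1 j.1 : ℝ),
    ?_, ?_, ?_, ?_, ?_, ?_⟩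
  · rintro i j ⟨h1, h2, h3⟩
    exact ⟨h1.symm, h2.symm, by rwa [G.edgeDensity_comm]⟩
  · rintro i ⟨h1, -, -⟩
    exact h1 rfl
  · intro i j hij
    exact hdis _ i.2 _ j.2 fun h => hij (Subtype.ext h)
  · intro v
    obtain ⟨A, hA, hv⟩ := P.exists_mem (Finset.mem_univ v)
    exact ⟨⟨A, hA⟩, hv⟩
  · refine ⟨?_, ?_, ?_, ?_, ?_, ?_⟩
    · intro i
      positivity
    · rw [← Finset.sum_div]
      have h1 : ∑ i : {A // A ∈ P.parts}, ((i.1).card : ℝ) = Fintype.card V := by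
        rw [Finset.sum_coe_sort P.parts (fun A => (A.card : ℝ))]
        have := P.sum_card_parts
        rw [← Finset.card_univ, ← this]
        push_cast
        rfl
      rw [h1]
      exact div_self hnpos.ne'
    · intro i j
      have h1 : (0 : ℝ) ≤ (G.edgeDensity i.1 j.1 : ℝ) := by exact_mod_cast G.edgeDensity_nonneg _ _
      have h2 : (G.edgeDensity i.1 j.1 : ℝ) ≤ 1 := by exact_mod_cast G.edgeDensity_le_one _ _
      dsimp only
      split_ifs
      · exact ⟨h1, h2⟩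
      · exact ⟨le_refl _, zero_le_one⟩
    · intro i j
      dsimp only
      have hsym : (i.1 ≠ j.1 ∧ G.IsUniform ε i.1 j.1 ∧ η / 8 ≤ (G.edgeDensity i.1 j.1 : ℝ)) ↔
          (j.1 ≠ i.1 ∧ G.IsUniform ε j.1 i.1 ∧ η / 8 ≤ (G.edgeDensity j.1 i.1 : ℝ)) := by
        rw [G.edgeDensity_comm i.1 j.1]
        exact ⟨fun h => ⟨h.1.symm, h.2.1.symm, h.2.2⟩, fun h => ⟨h.1.symm, h.2.1.symm, h.2.2⟩⟩
      by_cases h : i.1 ≠ j.1 ∧ G.IsUniform ε i.1 j.1 ∧ η / 8 ≤ (G.edgeDensity i.1 j.1 : ℝ)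
      · rw [if_pos h, if_pos (hsym.1 h), G.edgeDensity_comm]
      · rw [if_neg h, if_neg (fun h' => h (hsym.2 h'))]
    · intro i j h
      dsimp only
      rw [if_neg h]
    · rintro a b ⟨hab1, hab2, hab3⟩
      have hr := hR V G hNB P.parts hdis a.1 a.2 b.1 b.2 hab1 hab2 hab3 (hMcard _ a.2)
        (hMcard _ b.2)
      rw [Finset.sum_filter] at hr
      have key : ∑ m : {A // A ∈ P.parts}, ((m.1).card : ℝ) *
          ((if a.1 ≠ m.1 ∧ G.IsUniform ε a.1 m.1 ∧ η / 8 ≤ (G.edgeDensity a.1 m.1 : ℝ) then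
            (G.edgeDensity a.1 m.1 : ℝ) else 0) ^ 2 *
          (if b.1 ≠ m.1 ∧ G.IsUniform ε b.1 m.1 ∧ η / 8 ≤ (G.edgeDensity b.1 m.1 : ℝ) then
            (G.edgeDensity b.1 m.1 : ℝ) else 0) ^ 2) ≤ c' * Fintype.card V := by
        rw [Finset.sum_coe_sort P.parts (fun C => ((C).card : ℝ) *
          ((if a.1 ≠ C ∧ G.IsUniform ε a.1 C ∧ η / 8 ≤ (G.edgeDensity a.1 C : ℝ) then
            (G.edgeDensity a.1 C : ℝ) else 0) ^ 2 *
          (if b.1 ≠ C ∧ G.IsUniform ε b.1 C ∧ η / 8 ≤ (G.edgeDensity b.1 C : ℝ) then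
            (G.edgeDensity b.1 C : ℝ) else 0) ^ 2))]
        refine le_trans (Finset.sum_le_sum fun C hC => ?_) hr
        by_cases h1 : a.1 ≠ C ∧ G.IsUniform ε a.1 C ∧ η / 8 ≤ (G.edgeDensity a.1 C : ℝ)
        · by_cases h2 : b.1 ≠ C ∧ G.IsUniform ε b.1 C ∧ η / 8 ≤ (G.edgeDensity b.1 C : ℝ)
          · rw [if_pos h1, if_pos h2, if_pos ⟨h1.2.1, h2.2.1, h1.2.2, h2.2.2⟩]
          · rw [if_neg h2]
            have : (0 : ℝ) ≤ (C.card : ℝ) * ((G.edgeDensity a.1 C : ℝ) ^ 2 *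
              (G.edgeDensity b.1 C : ℝ) ^ 2) := by positivity
            split_ifs <;> simp <;> positivity
        · rw [if_neg h1]
          split_ifs <;> simp <;> positivity
      have fin : ∑ m : {A // A ∈ P.parts}, ((m.1).card : ℝ) / (Fintype.card V : ℝ) *
          ((if a.1 ≠ m.1 ∧ G.IsUniform ε a.1 m.1 ∧ η / 8 ≤ (G.edgeDensity a.1 m.1 : ℝ) then
            (G.edgeDensity a.1 m.1 : ℝ) else 0) ^ 2 *
          (if b.1 ≠ m.1 ∧ G.IsUniform ε b.1 m.1 ∧ η / 8 ≤ (G.edgeDensity b.1 m.1 : ℝ) then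
            (G.edgeDensity b.1 m.1 : ℝ) else 0) ^ 2) ≤ c' := by
        have e1 : ∀ m : {A // A ∈ P.parts}, ((m.1).card : ℝ) / (Fintype.card V : ℝ) *
            ((if a.1 ≠ m.1 ∧ G.IsUniform ε a.1 m.1 ∧ η / 8 ≤ (G.edgeDensity a.1 m.1 : ℝ) then
              (G.edgeDensity a.1 m.1 : ℝ) else 0) ^ 2 *
            (if b.1 ≠ m.1 ∧ G.IsUniform ε b.1 m.1 ∧ η / 8 ≤ (G.edgeDensity b.1 m.1 : ℝ) then
              (G.edgeDensity b.1 m.1 : ℝ) else 0) ^ 2) =
            (((m.1).card : ℝ) *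
            ((if a.1 ≠ m.1 ∧ G.IsUniform ε a.1 m.1 ∧ η / 8 ≤ (G.edgeDensity a.1 m.1 : ℝ) then
              (G.edgeDensity a.1 m.1 : ℝ) else 0) ^ 2 *
            (if b.1 ≠ m.1 ∧ G.IsUniform ε b.1 m.1 ∧ η / 8 ≤ (G.edgeDensity b.1 m.1 : ℝ) then
              (G.edgeDensity b.1 m.1 : ℝ) else 0) ^ 2)) / (Fintype.card V : ℝ) :=
          fun m => by ring
        rw [Finset.sum_congr rfl fun m _ => e1 m, ← Finset.sum_div, div_le_iff₀ hnpos]
        exact key
      convert fin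
  · have h1 := sum_bad G P hVne η ε hη hεpos hεη hP1 hP4 hk
    have h2 : ∀ i : {A // A ∈ P.parts}, ∑ j : {A // A ∈ P.parts},
        (if i.1 ≠ j.1 ∧ G.IsUniform ε i.1 j.1 ∧ η / 8 ≤ (G.edgeDensity i.1 j.1 : ℝ) then (0 : ℝ)
          else ((G.interedges i.1 j.1).card : ℝ)) = ∑ B ∈ P.parts,
        (if i.1 ≠ B ∧ G.IsUniform ε i.1 B ∧ η / 8 ≤ (G.edgeDensity i.1 B : ℝ) then (0 : ℝ)
          else ((G.interedges i.1 B).card : ℝ)) := fun i =>
      Finset.sum_coe_sort P.parts (fun B => (if i.1 ≠ B ∧ G.IsUniform ε i.1 B ∧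
        η / 8 ≤ (G.edgeDensity i.1 B : ℝ) then (0 : ℝ) else ((G.interedges i.1 B).card : ℝ)))
    refine le_trans (le_of_eq ?_) h1
    rw [← Finset.sum_coe_sort P.parts (fun A => ∑ B ∈ P.parts, (if A ≠ B ∧ G.IsUniform ε A B ∧
      η / 8 ≤ (G.edgeDensity A B : ℝ) then (0 : ℝ) else ((G.interedges A B).card : ℝ)))]
    exact Finset.sum_congr rfl fun i _ => by convert h2 i

end K22T.RW
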