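import Pool.Agent.K22T.Defs
import Pool.Agent.K22T.RW
import Pool.Agent.K22T.A6
import Pool.Agent.K22T.B0
set_option autoImplicit false
open Finset BigOperators

namespace K22T.RU
open K22T.RW K22T.A6 K22T.B0







open Classical in

set_option linter.unusedSectionVars false
section auxRU
variable {V I : Type} [Fintype V] [Fintype I]

theorem aux_cl (A : I → Finset V) (hd : ∀ i j, i ≠ j → Disjoint (A i) (A j))
    (hc : ∀ v, ∃ i, v ∈ A i) : ∃ cl : V → I, ∀ i v, v ∈ A i ↔ cl v = i := by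
  choose cl hcl using hc
  refine ⟨cl, fun i v => ⟨fun h => ?_, fun h => h ▸ hcl v⟩⟩
  by_contra hne
  exact Finset.disjoint_left.1 (hd _ _ hne) (hcl v) h

variable [DecidableEq V] (G : SimpleGraph V) [DecidableRel G.Adj]

theorem aux_E (s t : Finset V) : ((G.interedges s t).card : ℝ) =
    ∑ u ∈ s, ∑ x ∈ t, if G.Adj u x then (1 : ℝ) else 0 := by
  have h : G.interedges s t = (s ×ˢ t).filter (fun e => G.Adj e.1 e.2) := by
    ext e
    rw [SimpleGraph.interedges, Rel.mem_interedges_iff, Finset.mem_filter, Finset.mem_product,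
      and_assoc]
  rw [h, Finset.card_filter]
  push_cast
  rw [Finset.sum_product]

theorem aux_dens (s t : Finset V) : ((G.interedges s t).card : ℝ) =
    (G.edgeDensity s t : ℝ) * (s.card * t.card) := by
  have h1 : (G.edgeDensity s t : ℝ) = ((G.interedges s t).card : ℝ) / (s.card * t.card) := by
    rw [SimpleGraph.edgeDensity, Rel.edgeDensity]
    push_cast
    rfl
  by_cases h : ((s.card : ℝ) * t.card) = 0
  · rw [h, mul_zero, aux_E]
    rcases mul_eq_zero.1 h with h2 | h2
    · have : s = ∅ := by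
        rw [← Finset.card_eq_zero]; exact_mod_cast h2
      rw [this]; simp
    · have : t = ∅ := by
        rw [← Finset.card_eq_zero]; exact_mod_cast h2
      rw [this]; simp
  · rw [h1, div_mul_cancel₀ _ h]

variable (A : I → Finset V) (cl : V → I)

theorem aux_sum1 (hcl : ∀ i v, v ∈ A i ↔ cl v = i) (f : V → ℝ) :
    ∑ v, f v = ∑ i, ∑ v ∈ A i, f v := by
  classical
  rw [← Finset.sum_fiberwise univ cl f]
  apply Finset.sum_congr rfl
  intro i _
  apply Finset.sum_congr _ (fun _ _ => rfl)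
  ext v
  rw [hcl]; simp

theorem aux_sumcl (hcl : ∀ i v, v ∈ A i ↔ cl v = i) (f : I → ℝ) :
    ∑ v, f (cl v) = ∑ i, ((A i).card : ℝ) * f i := by
  rw [aux_sum1 A cl hcl]
  apply Finset.sum_congr rfl
  intro i _
  rw [Finset.sum_congr rfl (fun v hv => by rw [(hcl i v).1 hv] : ∀ v ∈ A i, f (cl v) = f i),
    Finset.sum_const, nsmul_eq_mul]

theorem aux_L1 (hcl : ∀ i v, v ∈ A i ↔ cl v = i) (F : I → I → ℝ) :
    ∑ u, ∑ x, F (cl u) (cl x) * (if G.Adj u x then (1 : ℝ) else 0) =
      ∑ i, ∑ j, F i j * ((G.interedges (A i) (A j)).card : ℝ) := by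
  rw [aux_sum1 A cl hcl]
  apply Finset.sum_congr rfl
  intro i _
  have h1 : ∀ u ∈ A i, ∑ x, F (cl u) (cl x) * (if G.Adj u x then (1 : ℝ) else 0) =
      ∑ j, ∑ x ∈ A j, F i j * (if G.Adj u x then (1 : ℝ) else 0) := by
    intro u hu
    rw [aux_sum1 A cl hcl, (hcl i u).1 hu]
    apply Finset.sum_congr rfl
    intro j _
    apply Finset.sum_congr rfl
    intro x hx
    rw [(hcl j x).1 hx]
  rw [Finset.sum_congr rfl h1, Finset.sum_comm]
  apply Finset.sum_congr rfl
  intro j _
  rw [aux_E, Finset.mul_sum]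
  apply Finset.sum_congr rfl
  intro u _
  rw [Finset.mul_sum]

theorem aux_2e : (2 : ℝ) * (G.edgeSet.ncard : ℝ) =
    ∑ u, ∑ x, (if G.Adj u x then (1 : ℝ) else 0) := by
  have h1 : G.edgeSet.ncard = G.edgeFinset.card := by
    rw [← SimpleGraph.coe_edgeFinset, Set.ncard_coe_finset]
  have h2 := G.two_mul_card_edgeFinset
  have h3 : ((univ.filter fun e : V × V => G.Adj e.1 e.2).card : ℝ) =
      ∑ u, ∑ x, (if G.Adj u x then (1 : ℝ) else 0) := by
    rw [Finset.card_filter]
    push_cast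
    rw [Fintype.sum_prod_type]
  rw [← h3, h1]
  exact_mod_cast h2

theorem aux_tri : (tri G : ℝ) = ∑ u, ∑ x, ∑ y, (if G.Adj u x then (1 : ℝ) else 0) *
    (if G.Adj u y then (1 : ℝ) else 0) * (if G.Adj x y then (1 : ℝ) else 0) := by
  rw [tri]
  push_cast
  apply Finset.sum_congr rfl
  intro u _
  have h1 : G.neighborFinset u = univ.filter (fun x => G.Adj u x) := by
    ext x; simp
  rw [h1, Finset.sum_filter]
  apply Finset.sum_congr rfl
  intro x _
  have h2 : univ.filter (fun x => G.Adj u x) ∩ G.neighborFinset x =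
      univ.filter (fun y => G.Adj u y ∧ G.Adj x y) := by
    ext y; simp
  rw [h2, Finset.card_filter]
  push_cast
  by_cases hux : G.Adj u x
  · rw [if_pos hux]
    apply Finset.sum_congr rfl
    intro y _
    by_cases h3 : G.Adj u y <;> by_cases h4 : G.Adj x y <;> simp [h3, h4, hux]
  · rw [if_neg hux]
    simp [hux]

theorem aux_world (hn : 0 < Fintype.card V) (hcl : ∀ i v, v ∈ A i ↔ cl v = i)
    (S : I → I → Prop) (p : I → I → ℝ) (η : ℝ)
    (hp : ∀ i j, S i j → p i j = (G.edgeDensity (A i) (A j) : ℝ)) (hp0 : ∀ i j, ¬ S i j → p i j = 0)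
    (hη : ∑ i, ∑ j, (open Classical in if S i j then (0 : ℝ) else
      ((G.interedges (A i) (A j)).card : ℝ)) ≤ η * (Fintype.card V : ℝ) ^ 2) :
    (2 : ℝ) * (G.edgeSet.ncard : ℝ) ≤
      (Dens (fun i => ((A i).card : ℝ) / Fintype.card V) p + η) * (Fintype.card V : ℝ) ^ 2 := by
  classical
  have hn' : (0 : ℝ) < Fintype.card V := by exact_mod_cast hn
  rw [aux_2e]
  have h1 := aux_L1 G A cl hcl (fun _ _ => 1)
  simp only [one_mul] at h1
  rw [h1, add_mul, Dens, Finset.sum_mul]
  have h2 : ∑ i, ∑ j, ((G.interedges (A i) (A j)).card : ℝ) =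
      ∑ i, (∑ j, ((A i).card : ℝ) / Fintype.card V * (((A j).card : ℝ) / Fintype.card V) * p i j)
        * (Fintype.card V : ℝ) ^ 2 + ∑ i, ∑ j, (if S i j then (0 : ℝ) else
      ((G.interedges (A i) (A j)).card : ℝ)) := by
    rw [← Finset.sum_add_distrib]
    apply Finset.sum_congr rfl
    intro i _
    rw [Finset.sum_mul, ← Finset.sum_add_distrib]
    apply Finset.sum_congr rfl
    intro j _
    by_cases h : S i j
    · rw [if_pos h, hp i j h, aux_dens]
      field_simp
      ring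
    · rw [if_neg h, hp0 i j h]
      ring
  rw [h2]
  linarith

theorem aux_bad (hn : 0 < Fintype.card V) (hcl : ∀ i v, v ∈ A i ↔ cl v = i)
    (S : I → I → Prop) (p : I → I → ℝ) (η ε₁ : ℝ)
    (hp01 : ∀ i j, 0 ≤ p i j ∧ p i j ≤ 1)
    (hp : ∀ i j, S i j → p i j = (G.edgeDensity (A i) (A j) : ℝ)) 
    (hη : ∑ i, ∑ j, (open Classical in if S i j then (0 : ℝ) else
      ((G.interedges (A i) (A j)).card : ℝ)) ≤ η * (Fintype.card V : ℝ) ^ 2)
    (hε : ∑ i, ∑ j, ((A i).card : ℝ) / Fintype.card V * (((A j).card : ℝ) / Fintype.card V) *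
      (p i j - p i j ^ 2) ≤ ε₁) :
    ∑ u, ∑ x, (if 1 / 2 ≤ p (cl u) (cl x) then (0 : ℝ) else 1) *
      (if G.Adj u x then (1 : ℝ) else 0) ≤ (η + 2 * ε₁) * (Fintype.card V : ℝ) ^ 2 := by
  classical
  have hn' : (0 : ℝ) < Fintype.card V := by exact_mod_cast hn
  rw [aux_L1 G A cl hcl (fun i j => if 1 / 2 ≤ p i j then (0 : ℝ) else 1)]
  have h1 : ∑ i, ∑ j, (if 1 / 2 ≤ p i j then (0 : ℝ) else 1) *
      ((G.interedges (A i) (A j)).card : ℝ) ≤ ∑ i, ∑ j, ((if S i j then (0 : ℝ) else
      ((G.interedges (A i) (A j)).card : ℝ)) + 2 * (Fintype.card V : ℝ) ^ 2 *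
        (((A i).card : ℝ) / Fintype.card V * (((A j).card : ℝ) / Fintype.card V) *
      (p i j - p i j ^ 2))) := by
    apply Finset.sum_le_sum
    intro i _
    apply Finset.sum_le_sum
    intro j _
    have hpp : 0 ≤ p i j - p i j ^ 2 := by
      have := hp01 i j
      nlinarith
    have hnn : 0 ≤ 2 * (Fintype.card V : ℝ) ^ 2 *
        (((A i).card : ℝ) / Fintype.card V * (((A j).card : ℝ) / Fintype.card V) *
      (p i j - p i j ^ 2)) := by positivity
    by_cases h2 : 1 / 2 ≤ p i j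
    · rw [if_pos h2, zero_mul]
      split_ifs
      · linarith
      · positivity
    · rw [if_neg h2, one_mul]
      by_cases h3 : S i j
      · rw [if_pos h3, zero_add, aux_dens, ← hp i j h3]
        have h4 : 2 * (Fintype.card V : ℝ) ^ 2 *
          (((A i).card : ℝ) / Fintype.card V * (((A j).card : ℝ) / Fintype.card V) *
          (p i j - p i j ^ 2)) = 2 * (p i j - p i j ^ 2) * (((A i).card : ℝ) * ((A j).card : ℝ)) := by
          field_simp
        rw [h4]
        apply mul_le_mul_of_nonneg_right _ (by positivity)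
        have := hp01 i j
        push Not at h2
        nlinarith
      · rw [if_neg h3]
        linarith
  refine h1.trans ?_
  simp only [Finset.sum_add_distrib, ← Finset.mul_sum]
  nlinarith [hn']

theorem aux_alg (a b c N p q r : ℝ) (hN : N ≠ 0) : a * (b * (c * (8 * (p * q * r)))) =
    8 * (a / N * (b / N) * (c / N) * (p * q * r)) * N ^ 3 := by
  field_simp

theorem aux_tri_le (hn : 0 < Fintype.card V) (hcl : ∀ i v, v ∈ A i ↔ cl v = i)
    (p : I → I → ℝ) (β ε₁ : ℝ)
    (hp01 : ∀ i j, 0 ≤ p i j ∧ p i j ≤ 1)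
    (hbad : ∑ u, ∑ x, (if 1 / 2 ≤ p (cl u) (cl x) then (0 : ℝ) else 1) *
      (if G.Adj u x then (1 : ℝ) else 0) ≤ β * (Fintype.card V : ℝ) ^ 2)
    (hT : ∑ i, ∑ j, ∑ m, ((A i).card : ℝ) / Fintype.card V * (((A j).card : ℝ) / Fintype.card V) *
      (((A m).card : ℝ) / Fintype.card V) * (p i j * p j m * p i m) ≤ ε₁) :
    (tri G : ℝ) ≤ (3 * β + 8 * ε₁) * (Fintype.card V : ℝ) ^ 3 := by
  classical
  have hn' : (0 : ℝ) < Fintype.card V := by exact_mod_cast hn
  set b : V → V → ℝ := fun u x => (if 1 / 2 ≤ p (cl u) (cl x) then (0 : ℝ) else 1) *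
      (if G.Adj u x then (1 : ℝ) else 0) with hb
  have hb0 : ∀ u x, 0 ≤ b u x := by
    intro u x
    rw [hb]
    simp only
    split_ifs <;> simp
  rw [aux_tri]
  have h1 : ∑ u, ∑ x, ∑ y, (if G.Adj u x then (1 : ℝ) else 0) *
    (if G.Adj u y then (1 : ℝ) else 0) * (if G.Adj x y then (1 : ℝ) else 0) ≤
      ∑ u, ∑ x, ∑ y, (b u x + b u y + b x y +
        8 * (p (cl u) (cl x) * p (cl x) (cl y) * p (cl u) (cl y))) := by
    apply Finset.sum_le_sum; intro u _
    apply Finset.sum_le_sum; intro x _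
    apply Finset.sum_le_sum; intro y _
    have q1 := hp01 (cl u) (cl x)
    have q2 := hp01 (cl x) (cl y)
    have q3 := hp01 (cl u) (cl y)
    have q0 : 0 ≤ p (cl u) (cl x) * p (cl x) (cl y) * p (cl u) (cl y) :=
      mul_nonneg (mul_nonneg q1.1 q2.1) q3.1
    by_cases e1 : G.Adj u x
    · by_cases e2 : G.Adj u y
      · by_cases e3 : G.Adj x y
        · rw [if_pos e1, if_pos e2, if_pos e3]
          by_cases g1 : 1 / 2 ≤ p (cl u) (cl x)
          · by_cases g2 : 1 / 2 ≤ p (cl x) (cl y)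
            · by_cases g3 : 1 / 2 ≤ p (cl u) (cl y)
              · have k1 : 1 / 2 * (1 / 2) ≤ p (cl u) (cl x) * p (cl x) (cl y) :=
                  mul_le_mul g1 g2 (by norm_num) q1.1
                have k2 : 1 / 2 * (1 / 2) * (1 / 2) ≤
                    p (cl u) (cl x) * p (cl x) (cl y) * p (cl u) (cl y) :=
                  mul_le_mul k1 g3 (by norm_num) (mul_nonneg q1.1 q2.1)
                have := hb0 u x
                have := hb0 u y
                have := hb0 x y
                linarith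
              · have : b u y = 1 := by rw [hb]; simp only; rw [if_neg g3, if_pos e2, one_mul]
                have := hb0 u x
                have := hb0 x y
                linarith
            · have : b x y = 1 := by rw [hb]; simp only; rw [if_neg g2, if_pos e3, one_mul]
              have := hb0 u x
              have := hb0 u y
              linarith
          · have : b u x = 1 := by rw [hb]; simp only; rw [if_neg g1, if_pos e1, one_mul]
            have := hb0 u y
            have := hb0 x y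
            linarith
        · rw [if_neg e3, mul_zero]
          have := hb0 u x
          have := hb0 u y
          have := hb0 x y
          linarith
      · rw [if_neg e2, mul_zero, zero_mul]
        have := hb0 u x
        have := hb0 u y
        have := hb0 x y
        linarith
    · rw [if_neg e1, zero_mul, zero_mul]
      have := hb0 u x
      have := hb0 u y
      have := hb0 x y
      linarith
  refine h1.trans ?_
  simp only [Finset.sum_add_distrib]
  set B : ℝ := ∑ u, ∑ x, b u x with hB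
  have s1 : ∑ u, ∑ x, ∑ _y : V, b u x = Fintype.card V * B := by
    simp only [Finset.sum_const, Finset.card_univ, nsmul_eq_mul, ← Finset.mul_sum]
    rw [hB]
  have s2 : ∑ u, ∑ _x : V, ∑ y, b u y = Fintype.card V * B := by
    simp only [Finset.sum_const, Finset.card_univ, nsmul_eq_mul, ← Finset.mul_sum]
    rw [hB]
  have s3 : ∑ _u : V, ∑ x, ∑ y, b x y = Fintype.card V * B := by
    simp only [Finset.sum_const, Finset.card_univ, nsmul_eq_mul]
    rw [hB]
  have s4 : ∑ u, ∑ x, ∑ y, 8 * (p (cl u) (cl x) * p (cl x) (cl y) * p (cl u) (cl y)) =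
      8 * (∑ i, ∑ j, ∑ m, ((A i).card : ℝ) / Fintype.card V * (((A j).card : ℝ) / Fintype.card V) *
      (((A m).card : ℝ) / Fintype.card V) * (p i j * p j m * p i m)) * (Fintype.card V : ℝ) ^ 3 := by
    have t1 : ∀ u x, ∑ y, 8 * (p (cl u) (cl x) * p (cl x) (cl y) * p (cl u) (cl y)) =
        ∑ m, ((A m).card : ℝ) * (8 * (p (cl u) (cl x) * p (cl x) m * p (cl u) m)) := by
      intro u x
      exact aux_sumcl A cl hcl (fun m => 8 * (p (cl u) (cl x) * p (cl x) m * p (cl u) m))
    simp only [t1]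
    have t2 : ∀ u, ∑ x, ∑ m, ((A m).card : ℝ) * (8 * (p (cl u) (cl x) * p (cl x) m * p (cl u) m)) =
        ∑ j, ((A j).card : ℝ) * ∑ m, ((A m).card : ℝ) * (8 * (p (cl u) j * p j m * p (cl u) m)) := by
      intro u
      exact aux_sumcl A cl hcl
        (fun j => ∑ m, ((A m).card : ℝ) * (8 * (p (cl u) j * p j m * p (cl u) m)))
    simp only [t2]
    rw [aux_sumcl A cl hcl (fun i => ∑ j, ((A j).card : ℝ) * ∑ m, ((A m).card : ℝ) *
      (8 * (p i j * p j m * p i m)))]
    rw [Finset.mul_sum, Finset.sum_mul]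
    apply Finset.sum_congr rfl; intro i _
    rw [Finset.mul_sum, Finset.mul_sum, Finset.sum_mul]
    apply Finset.sum_congr rfl; intro j _
    rw [Finset.mul_sum, Finset.mul_sum, Finset.mul_sum, Finset.sum_mul]
    apply Finset.sum_congr rfl; intro m _
    exact aux_alg _ _ _ _ _ _ _ hn'.ne'
  rw [s1, s2, s3, s4]
  have u1 : (Fintype.card V : ℝ) * B ≤ β * (Fintype.card V : ℝ) ^ 3 := by
    have : (Fintype.card V : ℝ) * B ≤ (Fintype.card V : ℝ) * (β * (Fintype.card V : ℝ) ^ 2) :=
      mul_le_mul_of_nonneg_left hbad hn'.le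
    calc _ ≤ _ := this
      _ = _ := by ring
  have u2 := mul_le_mul_of_nonneg_right hT (by positivity : (0 : ℝ) ≤ (Fintype.card V : ℝ) ^ 3)
  nlinarith

end auxRU

/-- TARGET 1: upper bound for the number of edges -/
theorem reg_upper (c : ℝ) (hc0 : 0 < c) (hc : c < 1 / 16) (ε : ℝ) (hε : 0 < ε) :
    ∃ n₀ : ℕ, ∀ (V : Type) [Fintype V] (G : SimpleGraph V), n₀ ≤ Fintype.card V → NoBook G c →
      (G.edgeSet.ncard : ℝ) ≤ (1 / 4 + ε) * (Fintype.card V : ℝ) ^ 2 := by
  classical
  obtain ⟨n₀, hn₀⟩ := reg_world c ((c + 1 / 16) / 2) (2 * ε) hc0 (by linarith) (by linarith)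
  refine ⟨max n₀ 1, ?_⟩
  intro V _ G hn hG
  have hn1 : 0 < Fintype.card V := lt_of_lt_of_le one_pos ((le_max_right _ _).trans hn)
  obtain ⟨I, hI, A, S, hsym, hirr, hdis, hcov, hF, hη⟩ :=
    hn₀ V G ((le_max_left _ _).trans hn) hG
  obtain ⟨cl, hcl⟩ := aux_cl A hdis hcov
  have h1 := aux_world G A cl hn1 hcl S (fun i j => if S i j then
    (G.edgeDensity (A i) (A j) : ℝ) else 0) (2 * ε) (fun i j h => if_pos h)
    (fun i j h => if_neg h) hη
  have h2 := world_ineq S _ _ _ hsym (by linarith) hF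
  have h3 : (0 : ℝ) ≤ (Fintype.card V : ℝ) ^ 2 := by positivity
  nlinarith

/-- TARGET 2: few triangles if the graph is dense -/
theorem reg_tri (c : ℝ) (hc0 : 0 < c) (hc : c < 1 / 16) (ε : ℝ) (hε : 0 < ε) :
    ∃ γ > 0, ∃ n₀ : ℕ, ∀ (V : Type) [Fintype V] [DecidableEq V]
      (G : SimpleGraph V) [DecidableRel G.Adj],
      n₀ ≤ Fintype.card V → NoBook G c →
      (1 / 4 - γ) * (Fintype.card V : ℝ) ^ 2 ≤ (G.edgeSet.ncard : ℝ) →
      (tri G : ℝ) ≤ ε * (Fintype.card V : ℝ) ^ 3 := by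
  classical
  obtain ⟨γ₁, hγ₁, hst⟩ := stab_world
    (fun I _ S c w p hs _ hc h => world_ineq S c w p hs hc h) ((c + 1 / 16) / 2) (by linarith)
    (by linarith) (ε / 100) (by linarith)
  obtain ⟨η, hηdef⟩ : ∃ η, η = min (γ₁ / 2) (ε / 100) := ⟨_, rfl⟩
  have hη0 : 0 < η := by rw [hηdef]; exact lt_min (by linarith) (by linarith)
  have hη1 : η ≤ γ₁ / 2 := by rw [hηdef]; exact min_le_left _ _
  have hη2 : η ≤ ε / 100 := by rw [hηdef]; exact min_le_right _ _
  obtain ⟨n₀, hn₀⟩ := reg_world c ((c + 1 / 16) / 2) η hc0 (by linarith) hη0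
  refine ⟨γ₁ / 4, by linarith, max n₀ 1, ?_⟩
  intro V _ _ G _ hn hG he
  have hn1 : 0 < Fintype.card V := lt_of_lt_of_le one_pos ((le_max_right _ _).trans hn)
  have hn' : (0 : ℝ) < Fintype.card V := by exact_mod_cast hn1
  obtain ⟨I, hI, A, S, hsym, hirr, hdis, hcov, hF, hη⟩ :=
    hn₀ V G ((le_max_left _ _).trans hn) hG
  obtain ⟨cl, hcl⟩ := aux_cl A hdis hcov
  have h1 := aux_world G A cl hn1 hcl S (fun i j => if S i j then
    (G.edgeDensity (A i) (A j) : ℝ) else 0) η (fun i j h => if_pos h)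
    (fun i j h => if_neg h) hη
  have h2 : 1 / 2 - γ₁ ≤ Dens (fun i => ((A i).card : ℝ) / Fintype.card V)
      (fun i j => if S i j then (G.edgeDensity (A i) (A j) : ℝ) else 0) := by
    by_contra hcon
    push Not at hcon
    have h3 : (0 : ℝ) < (Fintype.card V : ℝ) ^ 2 := by positivity
    nlinarith
  obtain ⟨h4, h5⟩ := hst I S _ _ hsym hirr hF h2
  have h6 := aux_bad G A cl hn1 hcl S (fun i j => if S i j then
    (G.edgeDensity (A i) (A j) : ℝ) else 0) η (ε / 100) hF.2.2.1 (fun i j h => if_pos h) hη h4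
  have h7 := aux_tri_le G A cl hn1 hcl _ _ _ hF.2.2.1 h6 h5
  refine h7.trans ?_
  apply mul_le_mul_of_nonneg_right _ (by positivity)
  linarith

end K22T.RU
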